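import Pool.Agent.R239.Cop.Stage

open MeasureTheory ProbabilityTheory Filter Topology

namespace Pool.Agent.R239.Cop.Val

open Pool.Agent.R239.Cop

/-- `1 / (j log (j+2))` with `j = i + 1` -/
noncomputable def ff (i : ℕ) : ℝ := 1 / (((i : ℝ) + 1) * Real.log ((i : ℝ) + 3))

theorem one_le_log (i : ℕ) : 1 ≤ Real.log ((i : ℝ) + 3) := by
  rw [Real.le_log_iff_exp_le (by positivity)]
  have := Real.exp_one_lt_d9
  have : (0 : ℝ) ≤ i := Nat.cast_nonneg i
  linarith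

theorem ff_pos (i : ℕ) : 0 < ff i := by
  unfold ff
  have := one_le_log i
  positivity

theorem ff_le_one (i : ℕ) : ff i ≤ 1 := by
  unfold ff
  have := one_le_log i
  have h2 : (0 : ℝ) ≤ i := Nat.cast_nonneg i
  rw [div_le_one (by positivity)]
  nlinarith

theorem ff_step (i : ℕ) : ff (i + 1) + ff i / (2 * ((i : ℝ) + 1)) ≤ ff i := by
  have h1 := one_le_log i
  have h0 : (0 : ℝ) ≤ i := Nat.cast_nonneg i
  have h2 : Real.log ((i : ℝ) + 3) ≤ Real.log (((i + 1 : ℕ) : ℝ) + 3) := by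
    apply Real.log_le_log (by positivity)
    push_cast
    linarith
  have h3 : ff (i + 1) ≤ 1 / (((i : ℝ) + 2) * Real.log ((i : ℝ) + 3)) := by
    unfold ff
    apply one_div_le_one_div_of_le (by positivity)
    push_cast at h2 ⊢
    have h4 : ((i : ℝ) + 2) * Real.log ((i : ℝ) + 3) ≤ ((i : ℝ) + 2) * Real.log ((i : ℝ) + 1 + 3) :=
      mul_le_mul_of_nonneg_left h2 (by positivity)
    have h5 : ((i : ℝ) + 1 + 1) = (i : ℝ) + 2 := by ring
    rw [h5]
    exact h4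
  have h4 : 1 / (((i : ℝ) + 2) * Real.log ((i : ℝ) + 3)) = ff i - ff i / ((i : ℝ) + 2) := by
    unfold ff
    field_simp
    ring
  have h5 : ff i / (2 * ((i : ℝ) + 1)) ≤ ff i / ((i : ℝ) + 2) := by
    apply div_le_div_of_nonneg_left (ff_pos i).le (by positivity)
    linarith
  linarith

theorem ff_sum (N : ℕ) : (Real.log ((N : ℝ) + 2) - 1) / 2 ≤ ∑ i ∈ Finset.range (2 ^ N), ff i := by
  induction N with
  | zero =>
    have h1 := ff_pos 0
    have h2 : Real.log 2 < 1 := by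
      have := Real.log_two_lt_d9
      linarith
    simp only [pow_zero, Finset.range_one, Finset.sum_singleton, Nat.cast_zero, zero_add]
    linarith
  | succ N ih =>
    have h1 : ∑ i ∈ Finset.range (2 ^ (N + 1)), ff i
        = ∑ i ∈ Finset.range (2 ^ N), ff i + ∑ i ∈ Finset.Ico (2 ^ N) (2 ^ (N + 1)), ff i := by
      rw [Finset.sum_range_add_sum_Ico]
      exact Nat.pow_le_pow_right (by norm_num) (by omega)
    have h2 : ∀ i ∈ Finset.Ico (2 ^ N) (2 ^ (N + 1)), 1 / ((2 : ℝ) ^ (N + 1) * ((N : ℝ) + 2)) ≤ ff i := by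
      intro i hi
      rw [Finset.mem_Ico] at hi
      unfold ff
      apply one_div_le_one_div_of_le
      · have := one_le_log i
        positivity
      · have h3 : (i : ℝ) + 1 ≤ 2 ^ (N + 1) := by
          have : i + 1 ≤ 2 ^ (N + 1) := hi.2
          exact_mod_cast this
        have h4 : Real.log ((i : ℝ) + 3) ≤ (N : ℝ) + 2 := by
          have h5 : (i : ℝ) + 3 ≤ 2 ^ (N + 2) := by
            have h6 : (2 : ℝ) ≤ 2 ^ (N + 1) := by
              calc (2 : ℝ) = 2 ^ 1 := by norm_num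
                _ ≤ _ := pow_le_pow_right₀ (by norm_num) (by omega)
            have h7 : (2 : ℝ) ^ (N + 2) = 2 * 2 ^ (N + 1) := by ring
            linarith
          have h6 := Real.log_le_log (by positivity) h5
          rw [Real.log_pow] at h6
          have h7 : Real.log 2 < 1 := by
            have := Real.log_two_lt_d9
            linarith
          push_cast at h6
          have h8 : (0 : ℝ) ≤ N := Nat.cast_nonneg N
          nlinarith
        have h5 := one_le_log i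
        exact mul_le_mul h3 h4 (by linarith) (by positivity)
    have h3 := Finset.card_nsmul_le_sum _ _ _ h2
    rw [Nat.card_Ico, nsmul_eq_mul] at h3
    have h4 : ((2 ^ (N + 1) - 2 ^ N : ℕ) : ℝ) = 2 ^ N := by
      have : 2 ^ (N + 1) - 2 ^ N = 2 ^ N := by
        have : 2 ^ (N + 1) = 2 ^ N + 2 ^ N := by ring
        rw [this]
        exact Nat.add_sub_cancel _ _
      rw [this]; push_cast; rfl
    rw [h4] at h3
    have h5 : (2 : ℝ) ^ N * (1 / ((2 : ℝ) ^ (N + 1) * ((N : ℝ) + 2))) = 1 / (2 * ((N : ℝ) + 2)) := by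
      field_simp
      ring
    rw [h5] at h3
    have h6 : Real.log (((N + 1 : ℕ) : ℝ) + 2) - Real.log ((N : ℝ) + 2) ≤ 1 / ((N : ℝ) + 2) := by
      rw [← Real.log_div (by positivity) (by positivity)]
      have : (((N + 1 : ℕ) : ℝ) + 2) / ((N : ℝ) + 2) = 1 / ((N : ℝ) + 2) + 1 := by
        push_cast
        field_simp
        ring
      rw [this]
      have := Real.log_le_sub_one_of_pos (show (0 : ℝ) < 1 / ((N : ℝ) + 2) + 1 by positivity)
      linarith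
    have h7 : 1 / (2 * ((N : ℝ) + 2)) = (1 / ((N : ℝ) + 2)) / 2 := by
      field_simp
    rw [h1]
    rw [h7] at h3
    linarith

theorem exists_N (c C : ℝ) (hc : 0 < c) :
    ∃ N : ℕ, 1 ≤ N ∧
      (8 * Real.log ((N : ℝ) + 2) + C) * Real.exp (-(c * ((Real.log ((N : ℝ) + 2) - 1) / 2))) ≤ 1 / 4 ∧
      Real.exp (-(c * (N : ℝ) ^ 2)) * (8 * (N : ℝ) + C) ≤ 1 := by
  have h1 : Tendsto (fun x : ℝ => (8 * x + C) * Real.exp (-(c * ((x - 1) / 2)))) atTop (𝓝 0) := by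
    have e1 : Tendsto (fun x : ℝ => x ^ 1 / Real.exp (c / 2 * x)) atTop (𝓝 0) :=
      (isLittleO_pow_exp_pos_mul_atTop 1 (by positivity : 0 < c / 2)).tendsto_div_nhds_zero
    have e2 : Tendsto (fun x : ℝ => x ^ 0 / Real.exp (c / 2 * x)) atTop (𝓝 0) :=
      (isLittleO_pow_exp_pos_mul_atTop 0 (by positivity : 0 < c / 2)).tendsto_div_nhds_zero
    have e3 := ((e1.const_mul (8 * Real.exp (c / 2))).add (e2.const_mul (C * Real.exp (c / 2))))
    simp only [mul_zero, add_zero] at e3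
    refine e3.congr fun x => ?_
    have : Real.exp (-(c * ((x - 1) / 2))) = Real.exp (c / 2) / Real.exp (c / 2 * x) := by
      rw [← Real.exp_sub]; congr 1; ring
    rw [this]
    ring
  have h2 : Tendsto (fun N : ℕ => Real.log ((N : ℝ) + 2)) atTop atTop :=
    Real.tendsto_log_atTop.comp (tendsto_atTop_add_const_right _ _ tendsto_natCast_atTop_atTop)
  have h3 := (h1.comp h2).eventually_le_const (show (0 : ℝ) < 1 / 4 by norm_num)
  have h4 : Tendsto (fun x : ℝ => (8 * x + |C|) / Real.exp (c * x)) atTop (𝓝 0) := by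
    have e1 : Tendsto (fun x : ℝ => x ^ 1 / Real.exp (c * x)) atTop (𝓝 0) :=
      (isLittleO_pow_exp_pos_mul_atTop 1 hc).tendsto_div_nhds_zero
    have e2 : Tendsto (fun x : ℝ => x ^ 0 / Real.exp (c * x)) atTop (𝓝 0) :=
      (isLittleO_pow_exp_pos_mul_atTop 0 hc).tendsto_div_nhds_zero
    have e3 := (e1.const_mul 8).add (e2.const_mul |C|)
    simp only [mul_zero, add_zero] at e3
    refine e3.congr fun x => ?_
    ring
  have h5 := (h4.comp tendsto_natCast_atTop_atTop (α := ℕ)).eventually_le_const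
    (show (0 : ℝ) < 1 by norm_num)
  obtain ⟨N, hN1, hN2, hN3⟩ := (h3.and (h5.and (eventually_ge_atTop 1))).exists
  refine ⟨N, hN3, hN1, ?_⟩
  simp only [Function.comp_apply] at hN2
  have hN : (1 : ℝ) ≤ N := by exact_mod_cast hN3
  have h6 : Real.exp (-(c * (N : ℝ) ^ 2)) ≤ Real.exp (-(c * (N : ℝ))) := by
    apply Real.exp_le_exp.2
    nlinarith [mul_nonneg hc.le (mul_nonneg (by linarith : (0 : ℝ) ≤ N) (by linarith : (0 : ℝ) ≤ (N : ℝ) - 1))]
  have h7 : (8 * (N : ℝ) + C) ≤ 8 * (N : ℝ) + |C| := by linarith [le_abs_self C]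
  calc Real.exp (-(c * (N : ℝ) ^ 2)) * (8 * (N : ℝ) + C)
      ≤ Real.exp (-(c * (N : ℝ) ^ 2)) * (8 * (N : ℝ) + |C|) :=
        mul_le_mul_of_nonneg_left h7 (Real.exp_pos _).le
    _ ≤ Real.exp (-(c * (N : ℝ))) * (8 * (N : ℝ) + |C|) :=
        mul_le_mul_of_nonneg_right h6 (by positivity)
    _ = (8 * (N : ℝ) + |C|) / Real.exp (c * N) := by
        rw [Real.exp_neg]; ring
    _ ≤ 1 := hN2

theorem log_le_aux {x : ℝ} (hx : 0 < x) : Real.log x ≤ x / 512 + 8 := by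
  have h1 : Real.log x = Real.log (x / 512) + Real.log 512 := by
    rw [Real.log_div hx.ne' (by norm_num)]; ring
  have h2 := Real.log_le_sub_one_of_pos (show (0 : ℝ) < x / 512 by positivity)
  have h3 : Real.log 512 = 9 * Real.log 2 := by
    rw [show (512 : ℝ) = 2 ^ 9 by norm_num, Real.log_pow]; norm_num
  have h4 := Real.log_two_lt_d9
  linarith

theorem aux_log {i N : ℕ} (hN : 1 ≤ N) (hi : (i : ℝ) + 1 ≤ 2 ^ N) :
    Real.log ((i : ℝ) + 1) ≤ N ∧ Real.log (Real.log ((i : ℝ) + 3)) ≤ N := by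
  have hlog2 := Real.log_two_lt_d9
  have hNr : (1 : ℝ) ≤ N := by exact_mod_cast hN
  constructor
  · have h1 := Real.log_le_log (by positivity) hi
    rw [Real.log_pow] at h1
    have h2 : (N : ℝ) * Real.log 2 ≤ N * 1 := mul_le_mul_of_nonneg_left (by linarith) (by linarith)
    linarith
  · have h3 : Real.log ((i : ℝ) + 3) ≤ (N : ℝ) + 1 := by
      have h5 : (i : ℝ) + 3 ≤ 2 ^ (N + 1) := by
        have h6 : (2 : ℝ) ≤ 2 ^ N := by
          calc (2 : ℝ) = 2 ^ 1 := by norm_num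
            _ ≤ _ := pow_le_pow_right₀ (by norm_num) hN
        have h7 : (2 : ℝ) ^ (N + 1) = 2 * 2 ^ N := by ring
        linarith
      have h6 := Real.log_le_log (by positivity) h5
      rw [Real.log_pow] at h6
      push_cast at h6
      have h7 : ((N : ℝ) + 1) * Real.log 2 ≤ ((N : ℝ) + 1) * 1 :=
        mul_le_mul_of_nonneg_left (by linarith) (by linarith)
      linarith
    have h4 := Real.log_le_sub_one_of_pos (show 0 < Real.log ((i : ℝ) + 3) by linarith [one_le_log i])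
    linarith

theorem aux_q {q u v : ℝ} (hq : q ≤ 2) (hu : 0 ≤ u) (h : u ≤ v) : q * u ≤ 2 * v := by
  have h1 := mul_le_mul_of_nonneg_right hq hu
  linarith

theorem aux_R {N R A : ℝ} (hN : 0 ≤ N) (hA : 0 ≤ A) (hR : R ≤ 16 * (1 + 2 * (4 * N + A)) + 1) :
    R + 2 ≤ (N + 2) * (148 + 32 * A) := by
  have h1 := mul_nonneg hN hA
  linarith

theorem aux_F {J N R A : ℝ} (hJ : 1 ≤ J) (hN : 0 ≤ N) (hR : 0 ≤ R)
    (hR2 : R + 2 ≤ (N + 2) * (148 + 32 * A)) :
    1 + (J + J * N ^ 2) * (R + 1) + 1 ≤ J * (N + 2) ^ 3 * (148 + 32 * A) := by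
  have h3 : 1 + N ^ 2 ≤ (N + 2) ^ 2 := by linarith [show (N + 2) ^ 2 = N ^ 2 + 4 * N + 4 by ring]
  have h5 : J * (1 + N ^ 2) ≤ J * (N + 2) ^ 2 := mul_le_mul_of_nonneg_left h3 (by linarith)
  have h6 := mul_le_mul_of_nonneg_right h5 (show (0 : ℝ) ≤ R + 1 by linarith)
  have h8 : (4 : ℝ) ≤ (N + 2) ^ 2 := by linarith [show (N + 2) ^ 2 = N ^ 2 + 4 * N + 4 by ring, sq_nonneg N]
  have h7 : (2 : ℝ) ≤ J * (N + 2) ^ 2 := by
    have := mul_le_mul hJ h8 (by norm_num) (by linarith)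
    linarith
  have h9 : 1 + (J + J * N ^ 2) * (R + 1) + 1 ≤ J * (N + 2) ^ 2 * (R + 2) := by
    have e1 : J * (N + 2) ^ 2 * (R + 2) = J * (N + 2) ^ 2 * (R + 1) + J * (N + 2) ^ 2 := by ring
    have e2 : (J + J * N ^ 2) * (R + 1) = J * (1 + N ^ 2) * (R + 1) := by ring
    linarith
  have h10 := mul_le_mul_of_nonneg_left hR2 (show (0 : ℝ) ≤ J * (N + 2) ^ 2 by linarith)
  linarith [show J * (N + 2) ^ 3 * (148 + 32 * A) = J * (N + 2) ^ 2 * ((N + 2) * (148 + 32 * A)) by ring]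

theorem aux_logF {J N R A : ℝ} (hJ : 1 ≤ J) (hN : 0 ≤ N) (hR : 0 ≤ R) (hA : 0 ≤ A)
    (hR2 : R + 2 ≤ (N + 2) * (148 + 32 * A)) :
    Real.log (1 + (J + J * N ^ 2) * (R + 1) + 1)
      ≤ Real.log J + 3 * Real.log (N + 2) + Real.log (148 + 32 * A) ∧
    Real.log (R + 2) ≤ Real.log (N + 2) + Real.log (148 + 32 * A) := by
  constructor
  · refine (Real.log_le_log (by positivity) (aux_F hJ hN hR hR2)).trans (le_of_eq ?_)
    rw [Real.log_mul (by positivity) (by positivity), Real.log_mul (by positivity) (by positivity),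
      Real.log_pow]
    push_cast
    ring
  · refine (Real.log_le_log (by positivity) hR2).trans (le_of_eq ?_)
    rw [Real.log_mul (by positivity) (by positivity)]

theorem aux_sv {q A CW a κ : ℝ} {i F t r : ℕ} (hκ : κ = Real.exp 150)
    (hq0 : 0 < q) (hq2 : q ≤ 2) (hA : A = 1000 + 2 * |CW|)
    (ha : a = q * (Real.log ((i : ℝ) + 1) + Real.log (Real.log ((i : ℝ) + 3))) + A)
    (hr : (r : ℝ) ≤ 16 * (1 + 2 * a) + 1) (ht : t ≤ r) :
    2 - q / (κ * ((i : ℝ) + 1)) * ((F : ℝ) + 1) ≤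
      a - 8 - q * (Real.log ((F : ℝ) + 1) + Real.log ((t : ℝ) + 2)) - CW := by
  have hκ0 : 0 < κ := by rw [hκ]; exact Real.exp_pos _
  have hi0 : (0 : ℝ) ≤ i := Nat.cast_nonneg i
  have hCWn := abs_nonneg CW
  have hCWl := le_abs_self CW
  have hl0 : 0 ≤ Real.log ((i : ℝ) + 1) := Real.log_nonneg (by linarith)
  have hll0 : 0 ≤ Real.log (Real.log ((i : ℝ) + 3)) := Real.log_nonneg (one_le_log i)
  have h3 : Real.log ((F : ℝ) + 1) ≤ 150 + Real.log ((i : ℝ) + 1) + ((F : ℝ) + 1) / (κ * ((i : ℝ) + 1)) - 1 := by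
    have h4 : Real.log ((F : ℝ) + 1) = Real.log (((F : ℝ) + 1) / (κ * ((i : ℝ) + 1))) + (150 + Real.log ((i : ℝ) + 1)) := by
      rw [Real.log_div (by positivity) (by positivity), Real.log_mul (by positivity) (by positivity),
        hκ, Real.log_exp]
      ring
    have h5 := Real.log_le_sub_one_of_pos (show (0 : ℝ) < ((F : ℝ) + 1) / (κ * ((i : ℝ) + 1)) by positivity)
    linarith
  have h6 := one_le_log i
  have hA0 : 0 ≤ A := by linarith
  have h7 : Real.log ((t : ℝ) + 2) ≤ Real.log (148 + 32 * A) + Real.log (Real.log ((i : ℝ) + 3)) := by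
    rw [← Real.log_mul (by positivity) (by linarith)]
    apply Real.log_le_log (by positivity)
    have h8 : (t : ℝ) ≤ r := by exact_mod_cast ht
    have h11 : Real.log ((i : ℝ) + 1) ≤ Real.log ((i : ℝ) + 3) :=
      Real.log_le_log (by positivity) (by linarith)
    have h12 := Real.log_le_sub_one_of_pos (show 0 < Real.log ((i : ℝ) + 3) by linarith)
    have h14 := aux_q hq2 (add_nonneg hl0 hll0) (add_le_add h11 h12)
    have h15 : A * 1 ≤ A * Real.log ((i : ℝ) + 3) := mul_le_mul_of_nonneg_left h6 (by linarith)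
    linarith
  have h15 := mul_le_mul_of_nonneg_left h3 hq0.le
  have h16 := mul_le_mul_of_nonneg_left h7 hq0.le
  have hlogA : Real.log (148 + 32 * A) ≤ A / 16 + 9 := by
    have := log_le_aux (x := 148 + 32 * A) (by linarith)
    linarith
  have hlogA0 : 0 ≤ Real.log (148 + 32 * A) := Real.log_nonneg (by linarith)
  have h17 : q * Real.log (148 + 32 * A) ≤ 2 * Real.log (148 + 32 * A) :=
    mul_le_mul_of_nonneg_right hq2 hlogA0
  have h18 : q / (κ * ((i : ℝ) + 1)) * ((F : ℝ) + 1) = q * (((F : ℝ) + 1) / (κ * ((i : ℝ) + 1))) := by ring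
  rw [h18, ha]
  linarith

theorem aux_514 {θ0 A cm cp κ : ℝ} (hθ : θ0 ≤ 1) (hκ : κ = Real.exp 150)
    (hcm : cm = Real.exp (-131 - θ0 * A)) (hcp : cp = Real.exp (8 * θ0 - θ0 * A)) :
    1028 * (2 * cp / κ) ≤ cm := by
  have hcm0 : 0 < cm := by rw [hcm]; exact Real.exp_pos _
  have h1 : cp / κ = cm * Real.exp (8 * θ0 - 19) := by
    rw [hcp, hκ, hcm, ← Real.exp_sub, ← Real.exp_add]; congr 1; ring
  have h2 : Real.exp (8 * θ0 - 19) ≤ Real.exp (-11) := Real.exp_le_exp.2 (by linarith)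
  have h3 : Real.exp (-11) ≤ 1 / 7 ^ 5 := by
    rw [Real.exp_neg, ← one_div]
    apply one_div_le_one_div_of_le (by norm_num)
    calc (7 : ℝ) ^ 5 ≤ Real.exp 2 ^ 5 := pow_le_pow_left₀ (by norm_num) exp_two_bounds.1 5
      _ = Real.exp 10 := by rw [← Real.exp_nat_mul]; norm_num
      _ ≤ Real.exp 11 := Real.exp_le_exp.2 (by norm_num)
  have h4 : 1028 * (2 * cp / κ) = 2056 * (cp / κ) := by ring
  rw [h4, h1]
  have h5 := mul_le_mul_of_nonneg_left (h2.trans h3) hcm0.le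
  linarith

theorem aux_exp {θ0 q A l l' : ℝ} {i : ℕ} (hθq : θ0 * q = 1)
    (hl : l = Real.log ((i : ℝ) + 1)) (hl' : l' = Real.log (Real.log ((i : ℝ) + 3))) :
    Real.exp (-(θ0 * (q * (l + l') + A))) = Real.exp (-(θ0 * A)) * ff i := by
  have h1 : -(θ0 * (q * (l + l') + A)) = -(θ0 * A) + (-(l + l')) := by
    have : θ0 * (q * (l + l') + A) = (θ0 * q) * (l + l') + θ0 * A := by ring
    rw [this, hθq]; ring
  have h2 := one_le_log i
  rw [h1, Real.exp_add]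
  congr 1
  rw [hl, hl', Real.exp_neg, Real.exp_add, Real.exp_log (by positivity), Real.exp_log (by linarith)]
  unfold ff
  rw [one_div]

theorem aux_rho2 {θ0 θ q A as cm J : ℝ} (hθq : θ0 * q = 1) (hJ : 0 < J)
    (has : as = q * Real.log J + A) (hcm : cm = Real.exp (-131 - θ0 * A))
    (h1 : θ * as ≤ θ0 * as + 1) : cm / J ≤ Real.exp (-130) * Real.exp (-(θ * as)) := by
  have h2 : Real.exp (-(θ0 * as + 1)) ≤ Real.exp (-(θ * as)) := Real.exp_le_exp.2 (by linarith)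
  have h3 : Real.exp (-(θ0 * as + 1)) = Real.exp (-1 - θ0 * A) / J := by
    rw [has]
    have : -(θ0 * (q * Real.log J + A) + 1) = (-1 - θ0 * A) - Real.log J := by
      have : θ0 * (q * Real.log J + A) = (θ0 * q) * Real.log J + θ0 * A := by ring
      rw [this, hθq]; ring
    rw [this, Real.exp_sub, Real.exp_log hJ]
  have h4 : cm = Real.exp (-130) * Real.exp (-1 - θ0 * A) := by
    rw [hcm, ← Real.exp_add]; congr 1; ring
  rw [h4, mul_div_assoc, ← h3]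
  exact mul_le_mul_of_nonneg_left h2 (Real.exp_pos _).le

theorem aux_pow {cm J L3 C' : ℝ} {Jn N : ℕ} (hJn : (Jn : ℝ) = J) (hJ : 1 ≤ J) (hcm0 : 0 < cm)
    (hcm1 : cm ≤ 1) (hL3 : 0 ≤ L3) (hL3' : L3 ≤ C')
    (hN3 : Real.exp (-(cm * (N : ℝ) ^ 2)) * C' ≤ 1) :
    (1 - cm / J) ^ (Jn * N ^ 2) * L3 ≤ 1 := by
  have h1 : (1 - cm / J) ^ (Jn * N ^ 2) ≤ Real.exp (-(cm * (N : ℝ) ^ 2)) := by
    have h2 : 1 - cm / J ≤ Real.exp (-(cm / J)) := by
      have := Real.add_one_le_exp (-(cm / J))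
      linarith
    have h3 : 0 ≤ 1 - cm / J := by
      have : cm / J ≤ 1 := by rw [div_le_one (by linarith)]; linarith
      linarith
    refine (pow_le_pow_left₀ h3 h2 _).trans (le_of_eq ?_)
    rw [← Real.exp_nat_mul]
    congr 1
    push_cast
    rw [hJn]
    field_simp
  calc (1 - cm / J) ^ (Jn * N ^ 2) * L3 ≤ Real.exp (-(cm * (N : ℝ) ^ 2)) * L3 :=
        mul_le_mul_of_nonneg_right h1 hL3
    _ ≤ Real.exp (-(cm * (N : ℝ) ^ 2)) * C' :=
        mul_le_mul_of_nonneg_left hL3' (Real.exp_pos _).le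
    _ ≤ 1 := hN3

theorem aux_prod {cm x : ℝ} {J N : ℕ} (hJ : J = 2 ^ N) (hx : x = Real.log ((N : ℝ) + 2))
    (hcm0 : 0 < cm) (hcm1 : cm ≤ 1) :
    ∏ i ∈ Finset.Ico 0 J, (1 - cm * ff i) ≤ Real.exp (-(cm * ((x - 1) / 2))) := by
  have h1 : ∏ i ∈ Finset.Ico 0 J, (1 - cm * ff i) ≤ ∏ i ∈ Finset.Ico 0 J, Real.exp (-(cm * ff i)) := by
    apply Finset.prod_le_prod
    · intro i _
      have h3 := mul_le_mul hcm1 (ff_le_one i) (ff_pos i).le (by norm_num)
      linarith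
    · intro i _
      have := Real.add_one_le_exp (-(cm * ff i))
      linarith
  refine h1.trans ?_
  rw [← Real.exp_sum]
  apply Real.exp_le_exp.2
  rw [Finset.sum_neg_distrib, ← Finset.mul_sum]
  have h2 := ff_sum N
  rw [← hJ, ← hx] at h2
  have h3 := mul_le_mul_of_nonneg_left h2 hcm0.le
  rw [← Finset.range_eq_Ico]
  linarith

theorem aux_b1 {q cp κ : ℝ} {i : ℕ} (hq : 0 < q) (hcp : 0 < cp) (hκ : 0 < κ) :
    2 * q * cp / κ * ff (i + 1) + q / (κ * ((i : ℝ) + 1)) * (cp * ff i) ≤ 2 * q * cp / κ * ff i := by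
  have h1 := ff_step i
  have h2 : q / (κ * ((i : ℝ) + 1)) * (cp * ff i) = 2 * q * cp / κ * (ff i / (2 * ((i : ℝ) + 1))) := by
    field_simp
  rw [h2, ← mul_add]
  exact mul_le_mul_of_nonneg_left h1 (by positivity)

theorem aux_b2 {q cp κ cm : ℝ} {i : ℕ} (hq : 0 < q) (hq2 : q ≤ 2) (hcp : 0 < cp) (hκ : 0 < κ)
    (hcm : 0 < cm) (h514 : 1028 * (2 * cp / κ) ≤ cm) :
    257 * (2 * q * cp / κ * ff (i + 1)) ≤ cm * ff i ∧ 2 * q * cp / κ * ff 0 * ((1 : ℕ) + 1) ≤ cm / 8 := by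
  have h3 : 2 * q * cp / κ ≤ 2 * (2 * cp / κ) := by
    have : 2 * q * cp / κ = q * (2 * cp / κ) := by ring
    rw [this]
    exact mul_le_mul_of_nonneg_right hq2 (by positivity)
  have h0 : 0 ≤ 2 * q * cp / κ := by positivity
  constructor
  · have h1 := ff_step i
    have h2 := ff_pos i
    have h3' : 0 ≤ ff i / (2 * ((i : ℝ) + 1)) := by positivity
    have h4 : ff (i + 1) ≤ ff i := by linarith
    have h5 : 257 * (2 * q * cp / κ) ≤ cm := by linarith
    calc 257 * (2 * q * cp / κ * ff (i + 1)) = (257 * (2 * q * cp / κ)) * ff (i + 1) := by ring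
      _ ≤ cm * ff (i + 1) := mul_le_mul_of_nonneg_right h5 (ff_pos _).le
      _ ≤ cm * ff i := mul_le_mul_of_nonneg_left h4 hcm.le
  · have h1 := mul_le_mul_of_nonneg_left (ff_le_one 0) h0
    push_cast
    linarith

theorem vst_lower {α : ℝ} (h0 : 0 < α) (h1 : α < 1) (CW : ℝ) :
    ∃ ε : ℝ, 0 < ε ∧ ε ≤ 1 / 4 ∧ ∃ (a : ℕ → ℝ) (r : ℕ → ℕ) (R I : ℕ),
      (∀ i, 8 < a i) ∧ (∀ i, 1 ≤ r i ∧ r i ≤ R) ∧
      ∀ ν : Measure ℝ, Good ν (1 / (1 + α)) (1 / (1 + α) + 2 * ε) → ∀ (Q : ℝ) (y : ℕ → ℕ → ℝ),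
        (∀ F t : ℕ, y F t = Q - (1 + α) * (Real.log (F + 1) + Real.log (t + 2)) - CW) →
        Q + 1 / 2 ≤ vst ν a r 8 y (fun F => y F 1 + ∫ x, x ∂ν) I I 1 := by
  -- constants
  obtain ⟨q, hq⟩ : ∃ q : ℝ, q = 1 + α := ⟨_, rfl⟩
  rw [← hq]
  have hq1 : 1 < q := by linarith
  have hq2 : q < 2 := by linarith
  have hq0 : 0 < q := by linarith
  clear h0 h1 hq
  obtain ⟨A, hA⟩ : ∃ A : ℝ, A = 1000 + 2 * |CW| := ⟨_, rfl⟩
  have hCWn := abs_nonneg CW
  have hCWl := le_abs_self CW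
  have hA1 : 1000 ≤ A := by linarith
  obtain ⟨θ0, hθ0⟩ : ∃ θ0 : ℝ, θ0 = 1 / q := ⟨_, rfl⟩
  rw [← hθ0]
  have hθq : θ0 * q = 1 := by rw [hθ0]; field_simp
  have hθ0h : 1 / 2 ≤ θ0 := by
    rw [hθ0]
    exact one_div_le_one_div_of_le hq0 hq2.le
  have hθ01 : θ0 ≤ 1 := by
    rw [hθ0, div_le_one hq0]; exact hq1.le
  clear hθ0
  obtain ⟨cm, hcm⟩ : ∃ cm : ℝ, cm = Real.exp (-131 - θ0 * A) := ⟨_, rfl⟩
  have hcm0 : 0 < cm := by rw [hcm]; exact Real.exp_pos _
  have hcm1 : cm ≤ 1 := by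
    rw [hcm]
    apply Real.exp_le_one_iff.2
    have := mul_nonneg (show 0 ≤ θ0 by linarith) (show 0 ≤ A by linarith)
    linarith
  have hlogA0 : 0 ≤ Real.log (148 + 32 * A) := Real.log_nonneg (by linarith)
  obtain ⟨C1, hC1⟩ : ∃ C1 : ℝ, C1 = 4 * Real.log (148 + 32 * A) + |CW| + 10 := ⟨_, rfl⟩
  have hC10 : 0 ≤ C1 := by linarith
  obtain ⟨N, hN1, hN2, hN3⟩ := exists_N cm (C1 + 8) hcm0
  obtain ⟨x, hx⟩ : ∃ x : ℝ, x = Real.log ((N : ℝ) + 2) := ⟨_, rfl⟩
  rw [← hx] at hN2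
  have hNr : (1 : ℝ) ≤ N := by exact_mod_cast hN1
  have hx0 : 0 ≤ x := by rw [hx]; exact Real.log_nonneg (by linarith)
  have hxN : x ≤ (N : ℝ) + 1 := by
    have := Real.log_le_sub_one_of_pos (show (0 : ℝ) < (N : ℝ) + 2 by positivity)
    rw [hx]; linarith
  obtain ⟨J, hJ⟩ : ∃ J : ℕ, J = 2 ^ N := ⟨_, rfl⟩
  have hJr : (J : ℝ) = 2 ^ N := by rw [hJ]; push_cast; rfl
  have hJ1 : 1 ≤ J := by rw [hJ]; exact Nat.one_le_two_pow
  have hJ1r : (1 : ℝ) ≤ J := by exact_mod_cast hJ1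
  have hlogJN : Real.log J ≤ N := by
    rw [hJr, Real.log_pow]
    have hlog2 := Real.log_two_lt_d9
    have h2 : (N : ℝ) * Real.log 2 ≤ N * 1 := mul_le_mul_of_nonneg_left (by linarith) (by linarith)
    linarith
  have hlogJ0 : 0 ≤ Real.log J := Real.log_nonneg hJ1r
  obtain ⟨as, has⟩ : ∃ as : ℝ, as = q * Real.log J + A := ⟨_, rfl⟩
  obtain ⟨a, ha⟩ : ∃ a : ℕ → ℝ, a = fun i => if i < J then
    q * (Real.log ((i : ℝ) + 1) + Real.log (Real.log ((i : ℝ) + 3))) + A else as := ⟨_, rfl⟩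
  have haJ : ∀ i, J ≤ i → a i = as := fun i hi => by simp only [ha, if_neg (not_lt.2 hi)]
  have haI : ∀ i, i < J → a i = q * (Real.log ((i : ℝ) + 1) + Real.log (Real.log ((i : ℝ) + 3))) + A :=
    fun i hi => by simp only [ha, if_pos hi]
  clear ha
  have hll0 : ∀ i : ℕ, 0 ≤ Real.log (Real.log ((i : ℝ) + 3)) := fun i => Real.log_nonneg (one_le_log i)
  have hl0 : ∀ i : ℕ, 0 ≤ Real.log ((i : ℝ) + 1) := fun i => Real.log_nonneg (by
    have : (0 : ℝ) ≤ i := Nat.cast_nonneg i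
    linarith)
  have haA : ∀ i, A ≤ a i := by
    intro i
    rcases lt_or_ge i J with hi | hi
    · rw [haI i hi]
      have := mul_nonneg hq0.le (add_nonneg (hl0 i) (hll0 i))
      linarith
    · rw [haJ i hi, has]
      have := mul_nonneg hq0.le hlogJ0
      linarith
  have haN : ∀ i, a i ≤ 4 * N + A := by
    intro i
    rcases lt_or_ge i J with hi | hi
    · rw [haI i hi]
      have h8 : (i : ℝ) + 1 ≤ 2 ^ N := by
        rw [← hJr]
        have : i + 1 ≤ J := hi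
        exact_mod_cast this
      obtain ⟨h1, h2⟩ := aux_log hN1 h8
      have h3 := aux_q hq2.le (add_nonneg (hl0 i) (hll0 i)) (add_le_add h1 h2)
      linarith
    · rw [haJ i hi, has]
      have h3 := aux_q hq2.le hlogJ0 hlogJN
      linarith
  obtain ⟨r, hr⟩ : ∃ r : ℕ → ℕ, r = fun i => ⌈16 * (1 + 2 * a i)⌉₊ := ⟨_, rfl⟩
  have hr1 : ∀ i, 16 * (1 + 2 * a i) ≤ r i := fun i => by rw [hr]; exact Nat.le_ceil _
  have hr2 : ∀ i, (r i : ℝ) ≤ 16 * (1 + 2 * a i) + 1 := fun i => by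
    rw [hr]; exact (Nat.ceil_lt_add_one (by linarith [haA i])).le
  obtain ⟨R, hR⟩ : ∃ R : ℕ, R = ⌈16 * (1 + 2 * (4 * (N : ℝ) + A))⌉₊ := ⟨_, rfl⟩
  have hrR : ∀ i, r i ≤ R := fun i => by
    rw [hR, hr]
    apply Nat.ceil_le_ceil
    linarith [haN i]
  have hRr : (R : ℝ) ≤ 16 * (1 + 2 * (4 * (N : ℝ) + A)) + 1 := by
    rw [hR]
    exact (Nat.ceil_lt_add_one (by linarith)).le
  clear hr hR
  obtain ⟨ε, hε⟩ : ∃ ε : ℝ, ε = 1 / (8 * (N + A)) := ⟨_, rfl⟩
  have hNA : (0 : ℝ) < N + A := by linarith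
  have hε0 : 0 < ε := by rw [hε]; positivity
  have hεN : ε * (8 * (N + A)) = 1 := by rw [hε]; field_simp
  have hε1 : ε ≤ 1 / 4 := by
    have h5 : ε * 4 ≤ ε * (8 * (N + A)) := mul_le_mul_of_nonneg_left (by linarith) hε0.le
    linarith
  clear hε
  refine ⟨ε, hε0, hε1, a, r, R, J + J * N ^ 2, fun i => by linarith [haA i], fun i => ⟨?_, hrR i⟩, ?_⟩
  · have := hr1 i
    have h2 := haA i
    have h3 : (1 : ℝ) ≤ r i := by linarith
    exact_mod_cast h3
  intro ν hν Q y hy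
  obtain ⟨θ, hθ⟩ : ∃ θ : ℝ, θ = θ0 + 2 * ε := ⟨_, rfl⟩
  rw [← hθ] at hν
  have hθh : 1 / 2 ≤ θ := by linarith
  have hθ2 : θ ≤ 2 := by linarith
  have hθa : ∀ i, θ * a i ≤ θ0 * a i + 1 := by
    intro i
    have h1 := haN i
    have h2 : ε * a i ≤ ε * (4 * (N + A)) := mul_le_mul_of_nonneg_left (by linarith) hε0.le
    rw [hθ]; linarith
  have hrc : ∀ i, Real.log 2 + θ * a i ≤ (r i : ℝ) / 16 := by
    intro i
    have hlog2 := Real.log_two_lt_d9
    have h1 := hr1 i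
    have h2 := haA i
    have h3 : θ * a i ≤ 2 * a i := mul_le_mul_of_nonneg_right hθ2 (by linarith)
    linarith
  have hexpa : ∀ i < J, Real.exp (-(θ0 * a i)) = Real.exp (-(θ0 * A)) * ff i := by
    intro i hi
    rw [haI i hi]
    exact aux_exp hθq rfl rfl
  -- the second stage
  obtain ⟨L, hL⟩ : ∃ L : ℝ, L = 8 * x + C1 := ⟨_, rfl⟩
  obtain ⟨L3, hL3⟩ : ∃ L3 : ℝ, L3 = 2 * N + 6 * x + C1 := ⟨_, rfl⟩
  have hL0 : 0 ≤ L := by rw [hL]; positivity
  have hL30 : 0 ≤ L3 := by rw [hL3]; positivity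
  have hR2 := aux_R (by linarith) (by linarith) hRr
  obtain ⟨hlogF0, hlogR⟩ := aux_logF hJ1r (by linarith : (0 : ℝ) ≤ N) (Nat.cast_nonneg R)
    (by linarith : 0 ≤ A) hR2
  rw [← hx] at hlogF0 hlogR
  have hlogF : Real.log (((1 + (J + J * N ^ 2) * (R + 1) : ℕ) : ℝ) + 1)
      ≤ Real.log J + 3 * x + Real.log (148 + 32 * A) := by
    push_cast
    exact hlogF0
  clear hlogF0 hR2 hRr
  have hlog3 : Real.log 3 ≤ 2 := by
    have := Real.log_le_sub_one_of_pos (show (0 : ℝ) < 3 by norm_num)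
    linarith
  have hρ2 : cm / J ≤ Real.exp (-130) * Real.exp (-(θ * as)) := by
    have h1 := hθa J
    rw [haJ J le_rfl] at h1
    exact aux_rho2 hθq (by linarith) has hcm h1
  have hcmJ : cm / J ≤ 1 := by rw [div_le_one (by linarith)]; linarith
  have has8 : 8 < as := by rw [← haJ J le_rfl]; linarith [haA J]
  have hc1 : q * (Real.log (((1 + (J + J * N ^ 2) * (R + 1) : ℕ) : ℝ) + 1) + Real.log (R + 2))
      + CW + 8 - as ≤ L := by
    have h1 := mul_le_mul_of_nonneg_left (add_le_add hlogF hlogR) hq0.le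
    have h2 : q * (4 * x + 2 * Real.log (148 + 32 * A)) ≤ 2 * (4 * x + 2 * Real.log (148 + 32 * A)) :=
      mul_le_mul_of_nonneg_right hq2.le (by positivity)
    rw [has, hL, hC1]
    linarith
  have hc2 : q * (Real.log (((1 + (J + J * N ^ 2) * (R + 1) : ℕ) : ℝ) + 1) + Real.log 3)
      + CW + 5 ≤ L + L3 := by
    have h1 := mul_le_mul_of_nonneg_left (add_le_add hlogF hlog3) hq0.le
    have h2 := aux_q hq2.le (show 0 ≤ Real.log J + 3 * x + Real.log (148 + 32 * A) + 2 by positivity)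
      (show Real.log J + 3 * x + Real.log (148 + 32 * A) + 2 ≤ N + 3 * x + Real.log (148 + 32 * A) + 2 by
        linarith)
    rw [hL, hL3, hC1]
    linarith
  have hst2 := stage2 (ν := ν) (θ' := θ0) (θ := θ) hν (by linarith) hθh (q := q) (CW := CW) (Q := Q)
    (as := as) hq0.le (a := a) (r := r) (y := y) (R := R) (I := J + J * N ^ 2) (J := J) hy haJ has8
    (fun i hi => by have := hrc i; rwa [haJ i hi] at this) hrR (L := L) (L3 := L3) (ρ := cm / J)
    hL30 hρ2 hcmJ hc1 hc2 (J * N ^ 2) le_rfl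
  have hpow : (1 - cm / J) ^ (J * N ^ 2) * L3 ≤ 1 :=
    aux_pow rfl hJ1r hcm0 hcm1 hL30 (show L3 ≤ 8 * (N : ℝ) + (C1 + 8) by rw [hL3]; linarith) hN3
  clear hc1 hc2 hlogF hlogR hρ2 hN3 hlog3
  -- the first stage
  obtain ⟨κ, hκ⟩ : ∃ κ : ℝ, κ = Real.exp 150 := ⟨_, rfl⟩
  have hκ0 : 0 < κ := by rw [hκ]; exact Real.exp_pos _
  obtain ⟨cp, hcp⟩ : ∃ cp : ℝ, cp = Real.exp (8 * θ0 - θ0 * A) := ⟨_, rfl⟩
  have hcp0 : 0 < cp := by rw [hcp]; exact Real.exp_pos _
  have h514 : 1028 * (2 * cp / κ) ≤ cm := aux_514 hθ01 hκ hcm hcp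
  have d1 : ∀ i < J, cm * ff i ≤ 1 := fun i _ => by
    have h3 := mul_le_mul hcm1 (ff_le_one i) (ff_pos i).le (by norm_num)
    linarith
  have d2 : ∀ i < J, cm * ff i ≤ Real.exp (-130) * Real.exp (-(θ * a i)) := fun i hi => by
    have h1 := hexpa i hi
    have h2 : Real.exp (-(θ0 * a i + 1)) ≤ Real.exp (-(θ * a i)) :=
      Real.exp_le_exp.2 (by linarith [hθa i])
    have h3 : cm * ff i = Real.exp (-130) * Real.exp (-(θ0 * a i + 1)) := by
      have : Real.exp (-(θ0 * a i + 1)) = Real.exp (-1) * Real.exp (-(θ0 * a i)) := by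
        rw [← Real.exp_add]; congr 1; ring
      rw [this, h1, hcm]
      have : Real.exp (-131 - θ0 * A) = Real.exp (-130) * (Real.exp (-1) * Real.exp (-(θ0 * A))) := by
        rw [← Real.exp_add, ← Real.exp_add]; congr 1; ring
      rw [this]; ring
    rw [h3]
    exact mul_le_mul_of_nonneg_left h2 (Real.exp_pos _).le
  have d3 : ∀ i < J, Real.exp (θ0 * (8 - a i)) ≤ cp * ff i := fun i hi => by
    have h1 := hexpa i hi
    have h2 : Real.exp (θ0 * (8 - a i)) = Real.exp (8 * θ0) * Real.exp (-(θ0 * a i)) := by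
      rw [← Real.exp_add]; congr 1; ring
    have h3 : cp = Real.exp (8 * θ0) * Real.exp (-(θ0 * A)) := by
      rw [hcp, ← Real.exp_add]; congr 1
    rw [h2, h1, h3, mul_assoc]
  have d4 : ∀ i < J, (0 : ℝ) ≤ q / (κ * ((i : ℝ) + 1)) := fun i _ => by positivity
  have d5 : ∀ i < J, ∀ F t : ℕ, 1 ≤ F → 1 ≤ t → t ≤ r i →
      Q + 2 - q / (κ * ((i : ℝ) + 1)) * ((F : ℝ) + 1) ≤ a i - 8 + y F t := fun i hi F t _ _ ht2 => by
    have h1 := aux_sv (F := F) hκ hq0 hq2.le hA (haI i hi) (hr2 i) ht2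
    rw [hy]
    linarith
  have d6 : ∀ i : ℕ, (0 : ℝ) ≤ 2 * q * cp / κ * ff i := fun i => by
    have := ff_pos i
    positivity
  have d7 : ∀ i < J, 2 * q * cp / κ * ff (i + 1) + q / (κ * ((i : ℝ) + 1)) * (cp * ff i)
      ≤ 2 * q * cp / κ * ff i := fun i _ => aux_b1 hq0 hcp0 hκ0
  have d8 : ∀ i < J, 257 * (2 * q * cp / κ * ff (i + 1)) ≤ cm * ff i := fun i _ =>
    (aux_b2 hq0 hq2.le hcp0 hκ0 hcm0 h514).1
  have d9 : ∀ F : ℕ, 1 ≤ F → F ≤ 1 + J * (R + 1) →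
      Q + 1 - (L + 2) ≤ vst ν a r 8 y (fun F => y F 1 + ∫ x, x ∂ν) (J + J * N ^ 2)
        (J + J * N ^ 2 - J) F := fun F hF1 hF2 => by
    have h1 := hst2 F hF1 (by rw [Nat.add_sub_cancel]; exact hF2)
    rw [Nat.add_sub_cancel_left]
    linarith
  have hst1 := stage1 (ν := ν) (θ' := θ0) (θ := θ) hν (by linarith) hθh (Q := Q) (a := a) (r := r)
    (y := y) (fb := fun F => y F 1 + ∫ x, x ∂ν) (R := R) (I := J + J * N ^ 2) (J := J)
    (Nat.le_add_right _ _) (fun i _ => by linarith [haA i]) (fun i _ => hrc i) hrR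
    (ρ := fun i => cm * ff i) (ρp := fun i => cp * ff i) (σ := fun i => q / (κ * ((i : ℝ) + 1)))
    (b := fun i => 2 * q * cp / κ * ff i) (L := L) (by linarith)
    d1 d2 d3 d4 d5 d6 d7 d8 d9 J le_rfl 1 le_rfl (by omega)
  rw [Nat.sub_self, Nat.sub_zero] at hst1
  refine le_trans ?_ hst1
  have hprod := aux_prod hJ hx hcm0 hcm1
  have hfin : (L + 2) * ∏ i ∈ Finset.Ico 0 J, (1 - cm * ff i) ≤ 1 / 4 := by
    refine le_trans ?_ hN2
    refine (mul_le_mul_of_nonneg_left hprod (by linarith)).trans ?_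
    apply mul_le_mul_of_nonneg_right _ (Real.exp_pos _).le
    rw [hL]; linarith
  have hb := (aux_b2 (i := 0) hq0 hq2.le hcp0 hκ0 hcm0 h514).2
  linarith

end Pool.Agent.R239.Cop.Val
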