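import Mathlib

open MeasureTheory ProbabilityTheory Filter Topology

namespace Pool.Agent.R239.Cop

/-- `kst k j a b`: total weight of the chains `a = x₀ < x₁ < ⋯ < x_j = b` with `j` steps,
a step from `x` to `y` having weight `k x y`. -/
noncomputable def kst (k : ℕ → ℕ → ℝ) : ℕ → ℕ → ℕ → ℝ
  | 0, a, b => if a = b then 1 else 0
  | j + 1, a, b => ∑ c ∈ Finset.Ico a b, kst k j a c * k c b

/-- Total weight of all chains from `a` to `b`. -/
noncomputable def gk (k : ℕ → ℕ → ℝ) (a b : ℕ) : ℝ :=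
  ∑ j ∈ Finset.range (b - a + 1), kst k j a b

/-- Energy of an excursion `(a, b]` below the interface. -/
noncomputable def en (lam h : ℝ) (w : ℕ → ℝ) (a b : ℕ) : ℝ :=
  -2 * lam * ∑ i ∈ Finset.Ioc a b, (w i + h)

/-- Weight of an excursion `(a, c]` (average over the sign). -/
noncomputable def kk (K : ℕ → ℝ) (lam h : ℝ) (w : ℕ → ℝ) (a c : ℕ) : ℝ :=
  K (c - a) * ((1 + Real.exp (en lam h w a c)) / 2)

/-- Partition function from `a` to `b`, pinned at both ends. -/
noncomputable def Zc (K : ℕ → ℝ) (lam h : ℝ) (w : ℕ → ℝ) (a b : ℕ) : ℝ :=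
  gk (kk K lam h w) a b

/-- Renewal mass function. -/
noncomputable def uu (K : ℕ → ℝ) (m : ℕ) : ℝ := gk (fun a c => K (c - a)) 0 m

/-- `T i` is the length of the `(i+1)`-st excursion, `s i = true` means that this excursion is
below the interface. The pairs are independent, the lengths have law `K`, the signs are fair
and independent of the lengths. -/
structure RenewalSigns {Ω : Type*} [MeasurableSpace Ω] (P : Measure Ω) (T : ℕ → Ω → ℕ)
    (s : ℕ → Ω → Bool) (K : ℕ → ℝ) : Prop where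
  prob : IsProbabilityMeasure P
  measT : ∀ i, Measurable (T i)
  measS : ∀ i, Measurable (s i)
  indep : iIndepFun (fun i x => (T i x, s i x)) P
  law : ∀ i n e, P.real {x | T i x = n ∧ s i x = e} = K n / 2

/-- The renewal points. -/
def tau {Ω : Type*} (T : ℕ → Ω → ℕ) (i : ℕ) (x : Ω) : ℕ := ∑ j ∈ Finset.range i, T j x

open Classical in
/-- `Δ_n`: indicator that the site `n` lies in an excursion below the interface. -/
noncomputable def Del {Ω : Type*} (T : ℕ → Ω → ℕ) (s : ℕ → Ω → Bool) (x : Ω) (n : ℕ) : ℝ :=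
  if ∃ i, tau T i x < n ∧ n ≤ tau T (i + 1) x ∧ s i x = true then 1 else 0

/-- The partition function `Z_{N,ω}`; `w n` is the charge at the site `n`. -/
noncomputable def ZN {Ω : Type*} [MeasurableSpace Ω] (P : Measure Ω) (T : ℕ → Ω → ℕ)
    (s : ℕ → Ω → Bool) (lam h : ℝ) (w : ℕ → ℝ) (N : ℕ) : ℝ :=
  ∫ x, Real.exp (-2 * lam * ∑ n ∈ Finset.Icc 1 N, Del T s x n * (w n + h)) ∂P

/-- The charges: i.i.d., centred, variance one, all exponential moments finite. -/
structure Charges {Ω : Type*} [MeasurableSpace Ω] (Q : Measure Ω) (ω : ℕ → Ω → ℝ) : Prop where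
  prob : IsProbabilityMeasure Q
  meas : ∀ i, Measurable (ω i)
  indep : iIndepFun ω Q
  ident : ∀ i, IdentDistrib (ω i) (ω 0) Q Q
  mean : ∫ y, ω 0 y ∂Q = 0
  var : ∫ y, (ω 0 y) ^ 2 ∂Q = 1
  mgf : ∀ t : ℝ, Integrable (fun y => Real.exp (t * ω 0 y)) Q

/-- The quenched free energy. -/
noncomputable def freeE {Ω Ω' : Type*} [MeasurableSpace Ω] [MeasurableSpace Ω'] (P : Measure Ω)
    (T : ℕ → Ω → ℕ) (s : ℕ → Ω → Bool) (Q : Measure Ω') (ω : ℕ → Ω' → ℝ) (lam h : ℝ) : ℝ :=
  liminf (fun N : ℕ => (1 / (N : ℝ)) *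
    ∫ y, Real.log (ZN P T s lam h (fun n => ω n y) N) ∂Q) atTop

/-- The critical curve. -/
noncomputable def hc {Ω Ω' : Type*} [MeasurableSpace Ω] [MeasurableSpace Ω'] (P : Measure Ω)
    (T : ℕ → Ω → ℕ) (s : ℕ → Ω → Bool) (Q : Measure Ω') (ω : ℕ → Ω' → ℝ) (lam : ℝ) : ℝ :=
  sSup {h : ℝ | 0 ≤ h ∧ 0 < freeE P T s Q ω lam h}

/-- Value of one candidate run. `run ν a sv fv r u v`: `u` steps remain (so the time is `r - u`),
the current sum is `v`; the sum reaching `a` is a success with value `sv (time)`; the sum getting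
negative, or the end of the time, is a failure with value `fv (time)`. -/
noncomputable def run (ν : Measure ℝ) (a : ℝ) (sv fv : ℕ → ℝ) (r : ℕ) : ℕ → ℝ → ℝ
  | 0, _ => fv r
  | u + 1, v => ∫ x, (if a ≤ v + x then sv (r - u) else if v + x < 0 then fv (r - u)
      else run ν a sv fv r u (v + x)) ∂ν

/-- Value of the strategy with `k` candidates remaining (the next one is number `I - k`), whose
next free block is `F`. `y F t`: reward (besides the sum) for using the stretch of length `t`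
after the block `F`; `fb F`: reward for giving up at the block `F`. -/
noncomputable def vst (ν : Measure ℝ) (a : ℕ → ℝ) (r : ℕ → ℕ) (s₀ : ℝ) (y : ℕ → ℕ → ℝ)
    (fb : ℕ → ℝ) (I : ℕ) : ℕ → ℕ → ℝ
  | 0, F => fb F
  | k + 1, F => run ν (a (I - (k + 1))) (fun t => a (I - (k + 1)) - s₀ + y F t)
      (fun t => vst ν a r s₀ y fb I k (F + t + 1)) (r (I - (k + 1))) (r (I - (k + 1))) s₀

end Pool.Agent.R239.Cop
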