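import Pool.Agent.R239.Cop.Defs

open MeasureTheory ProbabilityTheory Filter Topology

namespace Pool.Agent.R239.Cop

variable {Ω Ω' : Type*} [MeasurableSpace Ω] [MeasurableSpace Ω'] {P : Measure Ω}
  {T : ℕ → Ω → ℕ} {s : ℕ → Ω → Bool} {K : ℕ → ℝ} {Q : Measure Ω'} {ω : ℕ → Ω' → ℝ}

namespace Proc

theorem measurable_tau (hR : RenewalSigns P T s K) (i : ℕ) : Measurable (tau T i) := by
  unfold tau
  exact Finset.measurable_fun_sum _ (fun j _ => hR.measT j)

theorem measurable_Del (hR : RenewalSigns P T s K) (n : ℕ) :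
    Measurable (fun x => Del T s x n) := by
  classical
  unfold Del
  refine Measurable.ite ?_ measurable_const measurable_const
  have h1 : {x | ∃ i, tau T i x < n ∧ n ≤ tau T (i+1) x ∧ s i x = true} =
      ⋃ i, ((tau T i ⁻¹' Set.Iio n) ∩ ((tau T (i+1) ⁻¹' Set.Ici n) ∩ (s i ⁻¹' {true}))) := by
    ext x; simp
  rw [h1]
  refine MeasurableSet.iUnion (fun i => ?_)
  exact ((measurable_tau hR i) measurableSet_Iio).inter
    (((measurable_tau hR (i+1)) measurableSet_Ici).inter ((hR.measS i) (measurableSet_singleton _)))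

omit [MeasurableSpace Ω] in
theorem Del_nonneg (x : Ω) (n : ℕ) : 0 ≤ Del T s x n := by
  classical
  unfold Del; split_ifs <;> norm_num

omit [MeasurableSpace Ω] in
theorem Del_le_one (x : Ω) (n : ℕ) : Del T s x n ≤ 1 := by
  classical
  unfold Del; split_ifs <;> norm_num

omit [MeasurableSpace Ω] in
theorem Del_zero_or_one (x : Ω) (n : ℕ) : Del T s x n = 0 ∨ Del T s x n = 1 := by
  classical
  unfold Del; split_ifs <;> simp

omit [MeasurableSpace Ω] in
/-- the exponent -/
theorem abs_expo_le (lam h : ℝ) (w : ℕ → ℝ) (N : ℕ) (x : Ω) :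
    |-2 * lam * ∑ n ∈ Finset.Icc 1 N, Del T s x n * (w n + h)| ≤
      2 * |lam| * ∑ n ∈ Finset.Icc 1 N, (|w n| + |h|) := by
  rw [abs_mul, abs_mul]
  have h1 : |(-2 : ℝ)| = 2 := by norm_num
  rw [h1]
  refine mul_le_mul_of_nonneg_left ?_ (by positivity)
  refine (Finset.abs_sum_le_sum_abs _ _).trans (Finset.sum_le_sum (fun n _ => ?_))
  rw [abs_mul]
  have h2 : |Del T s x n| ≤ 1 := by
    rw [abs_of_nonneg (Del_nonneg x n)]; exact Del_le_one x n
  calc |Del T s x n| * |w n + h| ≤ 1 * |w n + h| :=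
        mul_le_mul_of_nonneg_right h2 (abs_nonneg _)
    _ = |w n + h| := one_mul _
    _ ≤ |w n| + |h| := abs_add_le _ _

theorem measurable_joint (hR : RenewalSigns P T s K) (lam h : ℝ) (N : ℕ) :
    Measurable (fun p : (ℕ → ℝ) × Ω =>
      Real.exp (-2 * lam * ∑ n ∈ Finset.Icc 1 N, Del T s p.2 n * (p.1 n + h))) := by
  refine Real.measurable_exp.comp (Measurable.const_mul ?_ _)
  refine Finset.measurable_fun_sum _ (fun n _ => ?_)
  have h1 : Measurable (fun p : (ℕ → ℝ) × Ω => p.1 n) :=
    (measurable_pi_apply n).comp measurable_fst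
  have h2 : Measurable (fun p : (ℕ → ℝ) × Ω => Del T s p.2 n) :=
    (measurable_Del hR n).comp measurable_snd
  exact h2.mul (h1.add_const h)

theorem measurable_integrand (hR : RenewalSigns P T s K) (lam h : ℝ) (w : ℕ → ℝ) (N : ℕ) :
    Measurable (fun x : Ω =>
      Real.exp (-2 * lam * ∑ n ∈ Finset.Icc 1 N, Del T s x n * (w n + h))) := by
  refine Real.measurable_exp.comp (Measurable.const_mul ?_ _)
  refine Finset.measurable_fun_sum _ (fun n _ => ?_)
  exact (measurable_Del hR n).mul_const _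

theorem integrable_integrand (hR : RenewalSigns P T s K) (lam h : ℝ) (w : ℕ → ℝ) (N : ℕ) :
    Integrable (fun x : Ω =>
      Real.exp (-2 * lam * ∑ n ∈ Finset.Icc 1 N, Del T s x n * (w n + h))) P := by
  have := hR.prob
  refine Integrable.of_bound (measurable_integrand hR lam h w N).aestronglyMeasurable
    (Real.exp (2 * |lam| * ∑ n ∈ Finset.Icc 1 N, (|w n| + |h|))) (ae_of_all _ (fun x => ?_))
  rw [Real.norm_eq_abs, Real.abs_exp]
  exact Real.exp_le_exp.mpr ((le_abs_self _).trans (abs_expo_le lam h w N x))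

theorem ZN_lower (hR : RenewalSigns P T s K) (lam h : ℝ) (w : ℕ → ℝ) (N : ℕ) :
    Real.exp (-(2 * |lam| * ∑ n ∈ Finset.Icc 1 N, (|w n| + |h|))) ≤ ZN P T s lam h w N := by
  have := hR.prob
  have h1 : Real.exp (-(2 * |lam| * ∑ n ∈ Finset.Icc 1 N, (|w n| + |h|))) =
      ∫ _x : Ω, Real.exp (-(2 * |lam| * ∑ n ∈ Finset.Icc 1 N, (|w n| + |h|))) ∂P := by
    simp
  rw [h1]
  refine integral_mono (integrable_const _) (integrable_integrand hR lam h w N) (fun x => ?_)
  refine Real.exp_le_exp.mpr ?_
  have := abs_expo_le (T := T) (s := s) lam h w N x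
  have h2 := neg_abs_le (-2 * lam * ∑ n ∈ Finset.Icc 1 N, Del T s x n * (w n + h))
  linarith

theorem ZN_upper (hR : RenewalSigns P T s K) (lam h : ℝ) (w : ℕ → ℝ) (N : ℕ) :
    ZN P T s lam h w N ≤ Real.exp (2 * |lam| * ∑ n ∈ Finset.Icc 1 N, (|w n| + |h|)) := by
  have := hR.prob
  have h1 : Real.exp (2 * |lam| * ∑ n ∈ Finset.Icc 1 N, (|w n| + |h|)) =
      ∫ _x : Ω, Real.exp (2 * |lam| * ∑ n ∈ Finset.Icc 1 N, (|w n| + |h|)) ∂P := by
    simp
  rw [h1]
  refine integral_mono (integrable_integrand hR lam h w N) (integrable_const _) (fun x => ?_)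
  refine Real.exp_le_exp.mpr ?_
  exact (le_abs_self _).trans (abs_expo_le lam h w N x)

end Proc

open Proc

theorem ZN_pos (hR : RenewalSigns P T s K) (lam h : ℝ) (w : ℕ → ℝ) (N : ℕ) :
    0 < ZN P T s lam h w N :=
  lt_of_lt_of_le (Real.exp_pos _) (ZN_lower hR lam h w N)

theorem measurable_ZN (hR : RenewalSigns P T s K) (lam h : ℝ) (N : ℕ) :
    Measurable (fun w : ℕ → ℝ => ZN P T s lam h w N) := by
  have := hR.prob
  unfold ZN
  exact ((measurable_joint hR lam h N).stronglyMeasurable.integral_prod_right).measurable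

theorem abs_log_ZN_le (hR : RenewalSigns P T s K) (lam h : ℝ) (w : ℕ → ℝ) (N : ℕ) :
    |Real.log (ZN P T s lam h w N)| ≤ 2 * |lam| * ∑ n ∈ Finset.Icc 1 N, (|w n| + |h|) := by
  rw [abs_le]
  constructor
  · rw [Real.le_log_iff_exp_le (ZN_pos hR lam h w N)]
    exact ZN_lower hR lam h w N
  · rw [Real.log_le_iff_le_exp (ZN_pos hR lam h w N)]
    exact ZN_upper hR lam h w N

namespace Proc

theorem memLp_omega (hQ : Charges Q ω) : MemLp (ω 0) 2 Q := by
  have := hQ.prob
  rw [memLp_two_iff_integrable_sq (hQ.meas 0).aestronglyMeasurable]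
  by_contra hcon
  have h1 := hQ.var
  rw [integral_undef hcon] at h1
  norm_num at h1

theorem integrable_omega (hQ : Charges Q ω) (n : ℕ) : Integrable (ω n) Q := by
  have := hQ.prob
  exact (hQ.ident n).integrable_iff.mpr ((memLp_omega hQ).integrable (by norm_num))

theorem integral_abs_omega_le (hQ : Charges Q ω) (n : ℕ) : ∫ y, |ω n y| ∂Q ≤ 1 := by
  have := hQ.prob
  have h0 : ∫ y, |ω n y| ∂Q = ∫ y, |ω 0 y| ∂Q :=
    ((hQ.ident n).comp (u := fun r : ℝ => |r|) measurable_norm).integral_eq
  rw [h0]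
  have hsq : Integrable (fun y => (ω 0 y) ^ 2) Q := (memLp_omega hQ).integrable_sq
  have h2 : ∫ y, |ω 0 y| ∂Q ≤ ∫ y, (1 + (ω 0 y) ^ 2) / 2 ∂Q := by
    refine integral_mono (integrable_omega hQ 0).abs
      (((integrable_const 1).add hsq).div_const 2) (fun y => ?_)
    have := sq_nonneg (|ω 0 y| - 1)
    have h3 : |ω 0 y| ^ 2 = (ω 0 y) ^ 2 := sq_abs _
    simp only
    nlinarith
  refine h2.trans ?_
  rw [integral_div, integral_add (integrable_const 1) hsq, hQ.var]
  simp

theorem integrable_bound (hQ : Charges Q ω) (lam h : ℝ) (N : ℕ) :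
    Integrable (fun y => 2 * |lam| * ∑ n ∈ Finset.Icc 1 N, (|ω n y| + |h|)) Q := by
  have := hQ.prob
  refine Integrable.const_mul ?_ _
  exact integrable_finsetSum _ (fun n _ => (integrable_omega hQ n).abs.add (integrable_const _))

theorem measurable_log_ZN (hR : RenewalSigns P T s K) (hQ : Charges Q ω) (lam h : ℝ) (N : ℕ) :
    Measurable (fun y => Real.log (ZN P T s lam h (fun n => ω n y) N)) :=
  Real.measurable_log.comp ((measurable_ZN hR lam h N).comp (measurable_pi_lambda _ hQ.meas))

end Proc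

theorem integrable_log_ZN (hR : RenewalSigns P T s K) (hQ : Charges Q ω) (lam h : ℝ) (N : ℕ) :
    Integrable (fun y => Real.log (ZN P T s lam h (fun n => ω n y) N)) Q := by
  refine (integrable_bound hQ lam h N).mono (measurable_log_ZN hR hQ lam h N).aestronglyMeasurable
    (ae_of_all _ (fun y => ?_))
  rw [Real.norm_eq_abs]
  refine (abs_log_ZN_le hR lam h _ N).trans ?_
  exact le_abs_self _

theorem abs_integral_log_ZN_le (hR : RenewalSigns P T s K) (hQ : Charges Q ω) (lam h : ℝ) (N : ℕ) :
    |∫ y, Real.log (ZN P T s lam h (fun n => ω n y) N) ∂Q| ≤ 2 * |lam| * (1 + |h|) * N := by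
  have := hQ.prob
  have h1 : |∫ y, Real.log (ZN P T s lam h (fun n => ω n y) N) ∂Q| ≤
      ∫ y, 2 * |lam| * ∑ n ∈ Finset.Icc 1 N, (|ω n y| + |h|) ∂Q := by
    rw [← Real.norm_eq_abs]
    refine norm_integral_le_of_norm_le (integrable_bound hQ lam h N) (ae_of_all _ (fun y => ?_))
    rw [Real.norm_eq_abs]
    exact abs_log_ZN_le hR lam h _ N
  refine h1.trans ?_
  have hi : ∀ n ∈ Finset.Icc 1 N, Integrable (fun y => |ω n y| + |h|) Q :=
    fun n _ => (integrable_omega hQ n).abs.add (integrable_const _)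
  rw [integral_const_mul, integral_finsetSum _ hi]
  have h2 : ∑ n ∈ Finset.Icc 1 N, ∫ y, (|ω n y| + |h|) ∂Q ≤ ∑ n ∈ Finset.Icc 1 N, (1 + |h|) := by
    refine Finset.sum_le_sum (fun n _ => ?_)
    rw [integral_add (integrable_omega hQ n).abs (integrable_const _)]
    have := integral_abs_omega_le hQ n
    simp only [integral_const, probReal_univ, smul_eq_mul, one_mul]
    linarith
  have h3 : ∑ n ∈ Finset.Icc 1 N, (1 + |h|) = (1 + |h|) * N := by
    simp; ring
  rw [h3] at h2
  calc _ ≤ 2 * |lam| * ((1 + |h|) * N) := mul_le_mul_of_nonneg_left h2 (by positivity)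
    _ = _ := by ring

namespace Proc

theorem integrable_exp_omega (hQ : Charges Q ω) (t : ℝ) (n : ℕ) :
    Integrable (fun y => Real.exp (t * ω n y)) Q := by
  have := hQ.prob
  have h1 : IdentDistrib (fun y => Real.exp (t * ω n y)) (fun y => Real.exp (t * ω 0 y)) Q Q :=
    (hQ.ident n).comp (u := fun r : ℝ => Real.exp (t * r)) (by fun_prop)
  exact h1.integrable_iff.mpr (hQ.mgf t)

theorem lintegral_inner_le (hQ : Charges Q ω) {lam h : ℝ}
    (hh : mgf (ω 0) Q (-2 * lam) ≤ Real.exp (2 * lam * h)) (N : ℕ) (d : ℕ → ℝ)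
    (hd : ∀ n, d n = 0 ∨ d n = 1) :
    ∫⁻ y, ENNReal.ofReal
      (Real.exp (-2 * lam * ∑ n ∈ Finset.Icc 1 N, d n * (ω n y + h))) ∂Q ≤ 1 := by
  classical
  have hprob := hQ.prob
  set S : Finset ℕ := (Finset.Icc 1 N).filter (fun n => d n = 1) with hS
  have h1 : ∀ y, Real.exp (-2 * lam * ∑ n ∈ Finset.Icc 1 N, d n * (ω n y + h)) =
      Real.exp ((-2 * lam) * (∑ n ∈ S, ω n) y) * Real.exp (-2 * lam * h * S.card) := by
    intro y
    rw [← Real.exp_add]
    congr 1
    have h2 : ∑ n ∈ Finset.Icc 1 N, d n * (ω n y + h) = ∑ n ∈ S, (ω n y + h) := by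
      rw [hS, Finset.sum_filter]
      refine Finset.sum_congr rfl (fun n _ => ?_)
      rcases hd n with h3 | h3
      · simp [h3]
      · simp [h3]
    rw [h2, Finset.sum_add_distrib, Finset.sum_const, Finset.sum_apply, nsmul_eq_mul]
    ring
  have hint : Integrable (fun y => Real.exp ((-2 * lam) * (∑ n ∈ S, ω n) y)) Q :=
    hQ.indep.integrable_exp_mul_sum hQ.meas (fun i _ => integrable_exp_omega hQ _ i)
  simp_rw [h1]
  rw [← ofReal_integral_eq_lintegral_ofReal (hint.mul_const _)
    (ae_of_all _ (fun y => by positivity))]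
  rw [integral_mul_const]
  have h3 : ∫ y, Real.exp ((-2 * lam) * (∑ n ∈ S, ω n) y) ∂Q =
      (mgf (ω 0) Q (-2 * lam)) ^ S.card := by
    have h4 := hQ.indep.mgf_sum (t := -2 * lam) hQ.meas S
    unfold mgf at h4
    rw [h4]
    have h5 : ∀ n ∈ S, ∫ y, Real.exp (-2 * lam * ω n y) ∂Q = mgf (ω 0) Q (-2 * lam) := by
      intro n _
      exact congrFun (mgf_congr_identDistrib (hQ.ident n)) (-2 * lam)
    rw [Finset.prod_congr rfl h5, Finset.prod_const]
  rw [h3]
  refine ENNReal.ofReal_le_one.mpr ?_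
  have h6 : Real.exp (-2 * lam * h * S.card) = (Real.exp (2 * lam * h))⁻¹ ^ S.card := by
    rw [← Real.exp_neg, ← Real.exp_nat_mul]
    congr 1; ring
  rw [h6, ← mul_pow]
  refine pow_le_one₀ ?_ ?_
  · exact mul_nonneg mgf_nonneg (by positivity)
  · rw [← div_eq_mul_inv, div_le_one (Real.exp_pos _)]
    exact hh

theorem lintegral_ZN_le (hR : RenewalSigns P T s K) (hQ : Charges Q ω) {lam h : ℝ}
    (hh : mgf (ω 0) Q (-2 * lam) ≤ Real.exp (2 * lam * h)) (N : ℕ) :
    ∫⁻ y, ENNReal.ofReal (ZN P T s lam h (fun n => ω n y) N) ∂Q ≤ 1 := by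
  have hP := hR.prob
  have hQ' := hQ.prob
  have h1 : ∀ y, ENNReal.ofReal (ZN P T s lam h (fun n => ω n y) N) =
      ∫⁻ x, ENNReal.ofReal (Real.exp (-2 * lam * ∑ n ∈ Finset.Icc 1 N,
        Del T s x n * (ω n y + h))) ∂P := by
    intro y
    unfold ZN
    exact ofReal_integral_eq_lintegral_ofReal (integrable_integrand hR lam h (fun n => ω n y) N)
      (ae_of_all _ (fun x => (Real.exp_pos _).le))
  rw [lintegral_congr h1]
  have hmeas : Measurable (fun p : Ω' × Ω => ENNReal.ofReal (Real.exp (-2 * lam *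
      ∑ n ∈ Finset.Icc 1 N, Del T s p.2 n * (ω n p.1 + h)))) := by
    refine ENNReal.measurable_ofReal.comp
      (Real.measurable_exp.comp (Measurable.const_mul ?_ _))
    refine Finset.measurable_fun_sum _ (fun n _ => ?_)
    have h2 : Measurable (fun p : Ω' × Ω => Del T s p.2 n) :=
      (measurable_Del hR n).comp measurable_snd
    have h3 : Measurable (fun p : Ω' × Ω => ω n p.1) := (hQ.meas n).comp measurable_fst
    exact h2.mul (h3.add_const h)
  rw [lintegral_lintegral_swap hmeas.aemeasurable]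
  calc ∫⁻ x, ∫⁻ y, ENNReal.ofReal (Real.exp (-2 * lam * ∑ n ∈ Finset.Icc 1 N,
        Del T s x n * (ω n y + h))) ∂Q ∂P
      ≤ ∫⁻ _x : Ω, 1 ∂P :=
        lintegral_mono (fun x => lintegral_inner_le hQ hh N (Del T s x) (Del_zero_or_one x))
    _ = 1 := by simp

end Proc

/-- annealed bound -/
theorem integral_log_ZN_nonpos (hR : RenewalSigns P T s K) (hQ : Charges Q ω) {lam h : ℝ}
    (hh : mgf (ω 0) Q (-2 * lam) ≤ Real.exp (2 * lam * h)) (N : ℕ) :
    ∫ y, Real.log (ZN P T s lam h (fun n => ω n y) N) ∂Q ≤ 0 := by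
  have hP := hR.prob
  have hQ' := hQ.prob
  have hmeas : Measurable (fun y => ZN P T s lam h (fun n => ω n y) N) :=
    (measurable_ZN hR lam h N).comp (measurable_pi_lambda _ hQ.meas)
  have hle := lintegral_ZN_le hR hQ hh N
  have hpos : ∀ y, 0 ≤ ZN P T s lam h (fun n => ω n y) N := fun y => (ZN_pos hR lam h _ N).le
  have hint : Integrable (fun y => ZN P T s lam h (fun n => ω n y) N) Q := by
    refine ⟨hmeas.aestronglyMeasurable, ?_⟩
    rw [hasFiniteIntegral_iff_ofReal (ae_of_all _ hpos)]
    exact lt_of_le_of_lt hle ENNReal.one_lt_top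
  have h1 : ∫ y, ZN P T s lam h (fun n => ω n y) N ∂Q ≤ 1 := by
    rw [integral_eq_lintegral_of_nonneg_ae (ae_of_all _ hpos) hmeas.aestronglyMeasurable]
    exact ENNReal.toReal_le_of_le_ofReal (by norm_num) (by simpa using hle)
  calc ∫ y, Real.log (ZN P T s lam h (fun n => ω n y) N) ∂Q
      ≤ ∫ y, (ZN P T s lam h (fun n => ω n y) N - 1) ∂Q :=
        integral_mono (integrable_log_ZN hR hQ lam h N) (hint.sub (integrable_const _))
          (fun y => Real.log_le_sub_one_of_pos (ZN_pos hR lam h _ N))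
    _ = ∫ y, ZN P T s lam h (fun n => ω n y) N ∂Q - 1 := by
        rw [integral_sub hint (integrable_const _)]; simp
    _ ≤ 0 := by linarith

/-- the set in the definition of `hc` is bounded above -/
theorem bddAbove_hc (hR : RenewalSigns P T s K) (hQ : Charges Q ω) {lam : ℝ} (hl : 0 < lam) :
    BddAbove {h : ℝ | 0 ≤ h ∧ 0 < freeE P T s Q ω lam h} := by
  have hQ' := hQ.prob
  refine ⟨Real.log (mgf (ω 0) Q (-2 * lam)) / (2 * lam), ?_⟩
  rintro h ⟨_, hpos⟩
  by_contra hcon
  rw [not_le, div_lt_iff₀ (by positivity)] at hcon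
  have hm : 0 < mgf (ω 0) Q (-2 * lam) := mgf_pos (hQ.mgf _)
  have hh : mgf (ω 0) Q (-2 * lam) ≤ Real.exp (2 * lam * h) := by
    rw [← Real.log_le_iff_le_exp hm]
    linarith
  have h1 : freeE P T s Q ω lam h ≤ 0 := by
    unfold freeE
    rw [Filter.liminf_eq]
    refine Real.sSup_le ?_ le_rfl
    intro a ha
    obtain ⟨N, hN⟩ := (ha : ∀ᶠ n : ℕ in atTop, _).exists
    refine hN.trans ?_
    exact mul_nonpos_of_nonneg_of_nonpos (by positivity) (integral_log_ZN_nonpos hR hQ hh N)
  linarith

namespace Proc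

/-- weight of one excursion; `0` when its length is `0` -/
noncomputable def gw (lam h : ℝ) (w : ℕ → ℝ) (a t : ℕ) (e : Bool) : ℝ :=
  if t = 0 then 0 else if e then Real.exp (en lam h w a (a + t)) else 1

/-- the renewal points of a sequence -/
def tp (i : ℕ) (p : ℕ → ℕ × Bool) : ℕ := ∑ l ∈ Finset.range i, (p l).1

/-- product of the weights of the first `j` excursions -/
noncomputable def Wp (lam h : ℝ) (w : ℕ → ℝ) (j : ℕ) (p : ℕ → ℕ × Bool) : ℝ :=
  ∏ i ∈ Finset.range j, gw lam h w (tp i p) (p i).1 (p i).2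

/-- the same, on the event that the `j`-th renewal point is `b` -/
noncomputable def Fp (lam h : ℝ) (w : ℕ → ℝ) (j b : ℕ) (p : ℕ → ℕ × Bool) : ℝ :=
  if tp j p = b then Wp lam h w j p else 0

theorem tp_congr {i : ℕ} {p q : ℕ → ℕ × Bool} (hpq : ∀ l < i, p l = q l) : tp i p = tp i q := by
  unfold tp
  exact Finset.sum_congr rfl (fun l hl => by rw [hpq l (Finset.mem_range.mp hl)])

theorem Fp_congr (lam h : ℝ) (w : ℕ → ℝ) (j b : ℕ) {p q : ℕ → ℕ × Bool}
    (hpq : ∀ l < j, p l = q l) : Fp lam h w j b p = Fp lam h w j b q := by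
  unfold Fp
  have h1 : tp j p = tp j q := tp_congr hpq
  have h2 : Wp lam h w j p = Wp lam h w j q := by
    unfold Wp
    refine Finset.prod_congr rfl (fun i hi => ?_)
    have hi' := Finset.mem_range.mp hi
    rw [hpq i hi', tp_congr (fun l hl => hpq l (hl.trans hi'))]
  rw [h1, h2]

theorem tp_succ (i : ℕ) (p : ℕ → ℕ × Bool) : tp (i + 1) p = tp i p + (p i).1 := by
  unfold tp; rw [Finset.sum_range_succ]

theorem Fp_succ (lam h : ℝ) (w : ℕ → ℝ) (j b : ℕ) (p : ℕ → ℕ × Bool) :
    Fp lam h w (j + 1) b p = ∑ a ∈ Finset.Ico 0 b, Fp lam h w j a p *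
      (if (p j).1 = b - a then gw lam h w a (b - a) (p j).2 else 0) := by
  have hW : Wp lam h w (j + 1) p = Wp lam h w j p * gw lam h w (tp j p) (p j).1 (p j).2 := by
    unfold Wp; rw [Finset.prod_range_succ]
  by_cases hlt : tp j p < b
  · rw [Finset.sum_eq_single_of_mem (tp j p) (Finset.mem_Ico.mpr ⟨Nat.zero_le _, hlt⟩)]
    · unfold Fp
      rw [tp_succ, hW, if_pos (rfl : tp j p = tp j p)]
      by_cases h1 : (p j).1 = b - tp j p
      · rw [if_pos (by omega), if_pos h1, h1]
      · rw [if_neg (by omega), if_neg h1, mul_zero]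
    · intro a _ hne
      unfold Fp
      rw [if_neg (fun hh => hne hh.symm), zero_mul]
  · rw [Finset.sum_eq_zero]
    · unfold Fp
      rw [tp_succ]
      split_ifs with h1
      · have h2 : (p j).1 = 0 := by omega
        rw [hW, h2]
        unfold gw
        simp
      · rfl
    · intro a ha
      have := (Finset.mem_Ico.mp ha).2
      unfold Fp
      rw [if_neg (by omega), zero_mul]

theorem Fp_bounded (lam h : ℝ) (w : ℕ → ℝ) (j : ℕ) :
    ∀ b, ∃ C : ℝ, ∀ p, |Fp lam h w j b p| ≤ C := by
  induction j with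
  | zero =>
    intro b
    refine ⟨1, fun p => ?_⟩
    unfold Fp Wp
    split_ifs <;> simp
  | succ j ih =>
    intro b
    choose C hC using ih
    refine ⟨∑ a ∈ Finset.Ico 0 b, C a * (|gw lam h w a (b - a) true| +
      |gw lam h w a (b - a) false|), fun p => ?_⟩
    rw [Fp_succ]
    refine (Finset.abs_sum_le_sum_abs _ _).trans (Finset.sum_le_sum (fun a _ => ?_))
    rw [abs_mul]
    refine mul_le_mul (hC a p) ?_ (abs_nonneg _) ((abs_nonneg _).trans (hC a p))
    have h1 := abs_nonneg (gw lam h w a (b - a) true)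
    have h2 := abs_nonneg (gw lam h w a (b - a) false)
    split_ifs with h3
    · cases (p j).2
      · linarith
      · linarith
    · rw [abs_zero]; linarith

/-- the sequence of pairs -/
def pr (T : ℕ → Ω → ℕ) (s : ℕ → Ω → Bool) (x : Ω) : ℕ → ℕ × Bool := fun i => (T i x, s i x)

/-- extension of a finite sequence -/
def ext (j : ℕ) (q : (i : Finset.range j) → ℕ × Bool) : ℕ → ℕ × Bool :=
  fun i => if h : i ∈ Finset.range j then q ⟨i, h⟩ else (0, false)

omit [MeasurableSpace Ω] in
theorem Fp_ext (lam h : ℝ) (w : ℕ → ℝ) (j b : ℕ) (x : Ω) :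
    Fp lam h w j b (pr T s x) =
      Fp lam h w j b (ext j (fun i : Finset.range j => (T i x, s i x))) := by
  refine Fp_congr lam h w j b (fun l hl => ?_)
  unfold ext pr
  rw [dif_pos (Finset.mem_range.mpr hl)]

theorem measurable_Fp (hR : RenewalSigns P T s K) (lam h : ℝ) (w : ℕ → ℝ) (j b : ℕ) :
    Measurable (fun x => Fp lam h w j b (pr T s x)) := by
  have h1 : (fun x => Fp lam h w j b (pr T s x)) =
      (fun q : (i : Finset.range j) → ℕ × Bool => Fp lam h w j b (ext j q)) ∘
        (fun x (i : Finset.range j) => (T i x, s i x)) := by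
    funext x; exact Fp_ext lam h w j b x
  rw [h1]
  exact (measurable_of_countable _).comp
    (measurable_pi_lambda _ (fun i => (hR.measT i).prodMk (hR.measS i)))

theorem integrable_Fp (hR : RenewalSigns P T s K) (lam h : ℝ) (w : ℕ → ℝ) (j b : ℕ) :
    Integrable (fun x => Fp lam h w j b (pr T s x)) P := by
  have := hR.prob
  obtain ⟨C, hC⟩ := Fp_bounded lam h w j b
  exact Integrable.of_bound (measurable_Fp hR lam h w j b).aestronglyMeasurable C
    (ae_of_all _ (fun x => by rw [Real.norm_eq_abs]; exact hC _))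

/-- integral of one step -/
theorem integral_step (hR : RenewalSigns P T s K) (lam h : ℝ) (w : ℕ → ℝ) (j a b : ℕ)
    (hab : a < b) :
    ∫ x, (if T j x = b - a then gw lam h w a (b - a) (s j x) else 0) ∂P = kk K lam h w a b := by
  classical
  have hP := hR.prob
  have h1 : ∀ x, (if T j x = b - a then gw lam h w a (b - a) (s j x) else 0) =
      ({x | T j x = b - a ∧ s j x = true} : Set Ω).indicator
        (fun _ => Real.exp (en lam h w a b)) x +
      ({x | T j x = b - a ∧ s j x = false} : Set Ω).indicator (fun _ => (1 : ℝ)) x := by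
    intro x
    have hba : b - a ≠ 0 := by omega
    have hba' : a + (b - a) = b := by omega
    by_cases h2 : T j x = b - a
    · rw [if_pos h2]
      cases h3 : s j x
      · simp [Set.indicator, h2, h3, gw, hba]
      · simp [Set.indicator, h2, h3, gw, hba, hba']
    · simp [Set.indicator, h2]
  simp_rw [h1]
  have hms : ∀ e, MeasurableSet {x | T j x = b - a ∧ s j x = e} := by
    intro e
    exact ((hR.measT j) (measurableSet_singleton (b - a))).inter
      ((hR.measS j) (measurableSet_singleton e))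
  rw [integral_add ((integrable_const _).indicator (hms true))
    ((integrable_const _).indicator (hms false)),
    integral_indicator_const _ (hms true), integral_indicator_const _ (hms false),
    hR.law, hR.law]
  unfold kk
  simp only [smul_eq_mul]
  ring

theorem integral_Fp (hR : RenewalSigns P T s K) (lam h : ℝ) (w : ℕ → ℝ) (j : ℕ) :
    ∀ b, ∫ x, Fp lam h w j b (pr T s x) ∂P = kst (kk K lam h w) j 0 b := by
  have hP := hR.prob
  induction j with
  | zero =>
    intro b
    unfold kst
    have h1 : ∀ x, Fp lam h w 0 b (pr T s x) = if 0 = b then 1 else 0 := by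
      intro x
      unfold Fp Wp tp
      rcases eq_or_ne b 0 with h0 | h0
      · subst h0; simp
      · simp [h0.symm]
    rw [integral_congr_ae (ae_of_all _ h1)]
    simp
  | succ j ih =>
    intro b
    have h1 : ∀ x, Fp lam h w (j + 1) b (pr T s x) =
        ∑ a ∈ Finset.Ico 0 b, Fp lam h w j a (pr T s x) *
          (if T j x = b - a then gw lam h w a (b - a) (s j x) else 0) := by
      intro x
      exact Fp_succ lam h w j b _
    rw [integral_congr_ae (ae_of_all _ h1)]
    have hmG : ∀ a, Measurable (fun x =>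
        (if T j x = b - a then gw lam h w a (b - a) (s j x) else 0)) := by
      intro a
      have : (fun x => (if T j x = b - a then gw lam h w a (b - a) (s j x) else 0)) =
          (fun q : ℕ × Bool => if q.1 = b - a then gw lam h w a (b - a) q.2 else 0) ∘
            (fun x => (T j x, s j x)) := rfl
      rw [this]
      exact (measurable_of_countable _).comp ((hR.measT j).prodMk (hR.measS j))
    have hind : ∀ a, IndepFun (fun x => Fp lam h w j a (pr T s x))
        (fun x => (if T j x = b - a then gw lam h w a (b - a) (s j x) else 0)) P := by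
      intro a
      have h2 := hR.indep.indepFun_finset (Finset.range j) {j}
        (by simp) (fun i => (hR.measT i).prodMk (hR.measS i))
      have h3 := h2.comp
        (φ := fun q : (i : Finset.range j) → ℕ × Bool => Fp lam h w j a (ext j q))
        (ψ := fun q : (i : ({j} : Finset ℕ)) → ℕ × Bool =>
          if (q ⟨j, Finset.mem_singleton_self j⟩).1 = b - a then
            gw lam h w a (b - a) (q ⟨j, Finset.mem_singleton_self j⟩).2 else 0)
        (measurable_of_countable _) (measurable_of_countable _)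
      have h4 : (fun x => Fp lam h w j a (pr T s x)) =
          (fun q : (i : Finset.range j) → ℕ × Bool => Fp lam h w j a (ext j q)) ∘
            (fun x (i : Finset.range j) => (T i x, s i x)) := by
        funext x; exact Fp_ext lam h w j a x
      rw [h4]
      exact h3
    have hiG : ∀ a, Integrable (fun x =>
        (if T j x = b - a then gw lam h w a (b - a) (s j x) else 0)) P := by
      intro a
      refine Integrable.of_bound (hmG a).aestronglyMeasurable
        (|gw lam h w a (b - a) true| + |gw lam h w a (b - a) false|) (ae_of_all _ (fun x => ?_))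
      have h1 := abs_nonneg (gw lam h w a (b - a) true)
      have h2 := abs_nonneg (gw lam h w a (b - a) false)
      rw [Real.norm_eq_abs]
      split_ifs with h3
      · cases s j x
        · linarith
        · linarith
      · rw [abs_zero]; linarith
    rw [integral_finsetSum]
    · rw [kst]
      refine Finset.sum_congr rfl (fun a ha => ?_)
      rw [(hind a).integral_fun_mul_eq_mul_integral
        (measurable_Fp hR lam h w j a).aestronglyMeasurable (hmG a).aestronglyMeasurable,
        ih a, integral_step hR lam h w j a b (Finset.mem_Ico.mp ha).2]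
    · intro a _
      exact (hind a).integrable_mul (integrable_Fp hR lam h w j a) (hiG a)

omit [MeasurableSpace Ω] in
theorem tau_succ (j : ℕ) (x : Ω) : tau T (j + 1) x = tau T j x + T j x := by
  unfold tau; rw [Finset.sum_range_succ]

omit [MeasurableSpace Ω] in
theorem tau_mono (x : Ω) : Monotone (fun i => tau T i x) :=
  monotone_nat_of_le_succ (fun i => by simp only [tau_succ]; omega)

omit [MeasurableSpace Ω] in
theorem Del_eq {x : Ω} {j n : ℕ} (h1 : tau T j x < n) (h2 : n ≤ tau T (j + 1) x) :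
    Del T s x n = if s j x = true then 1 else 0 := by
  classical
  unfold Del
  by_cases h3 : s j x = true
  · rw [if_pos h3, if_pos ⟨j, h1, h2, h3⟩]
  · rw [if_neg h3, if_neg]
    rintro ⟨i, h4, h5, h6⟩
    rcases lt_trichotomy i j with h7 | h7 | h7
    · have : tau T (i + 1) x ≤ tau T j x := tau_mono x (by omega : i + 1 ≤ j)
      omega
    · subst h7; exact h3 h6
    · have : tau T (j + 1) x ≤ tau T i x := tau_mono x (by omega : j + 1 ≤ i)
      omega

omit [MeasurableSpace Ω] in
theorem exp_eq_prod (lam h : ℝ) (w : ℕ → ℝ) (j : ℕ) (x : Ω) :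
    Real.exp (-2 * lam * ∑ n ∈ Finset.Ioc 0 (tau T j x), Del T s x n * (w n + h)) =
      ∏ i ∈ Finset.range j, (if s i x = true then
        Real.exp (en lam h w (tau T i x) (tau T i x + T i x)) else 1) := by
  induction j with
  | zero => simp [tau]
  | succ j ih =>
    rw [Finset.prod_range_succ, ← ih]
    have h1 := Finset.sum_Ioc_consecutive (fun n => Del T s x n * (w n + h))
      (Nat.zero_le (tau T j x)) (tau_mono x (Nat.le_succ j) : tau T j x ≤ tau T (j + 1) x)
    rw [← h1, mul_add, Real.exp_add]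
    congr 1
    have h2 : ∑ n ∈ Finset.Ioc (tau T j x) (tau T (j + 1) x), Del T s x n * (w n + h) =
        ∑ n ∈ Finset.Ioc (tau T j x) (tau T (j + 1) x),
          (if s j x = true then 1 else 0) * (w n + h) := by
      refine Finset.sum_congr rfl (fun n hn => ?_)
      rw [Finset.mem_Ioc] at hn
      rw [Del_eq hn.1 hn.2]
    rw [h2, ← tau_succ]
    unfold en
    split_ifs with h3
    · simp
    · simp

omit [MeasurableSpace Ω] in
theorem sum_Fp_le (lam h : ℝ) (w : ℕ → ℝ) (N : ℕ) (x : Ω) :
    ∑ j ∈ Finset.range (N + 1), Fp lam h w j N (pr T s x) ≤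
      Real.exp (-2 * lam * ∑ n ∈ Finset.Icc 1 N, Del T s x n * (w n + h)) := by
  have hkey : ∀ j, Fp lam h w j N (pr T s x) ≠ 0 → tau T j x = N ∧ ∀ i < j, T i x ≠ 0 := by
    intro j hj
    unfold Fp at hj
    split_ifs at hj with h1
    · refine ⟨h1, fun i hi h2 => hj ?_⟩
      unfold Wp
      refine Finset.prod_eq_zero (Finset.mem_range.mpr hi) ?_
      unfold gw pr
      simp [h2]
    · exact absurd rfl hj
  by_cases hex : ∃ j ∈ Finset.range (N + 1), Fp lam h w j N (pr T s x) ≠ 0
  · obtain ⟨j, hjm, hj⟩ := hex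
    obtain ⟨h1, h2⟩ := hkey j hj
    rw [Finset.sum_eq_single_of_mem j hjm]
    · have h3 : Finset.Icc 1 N = Finset.Ioc 0 (tau T j x) := by
        rw [h1]; rfl
      rw [h3, exp_eq_prod]
      unfold Fp
      rw [if_pos (show tp j (pr T s x) = N from h1)]
      unfold Wp
      refine le_of_eq (Finset.prod_congr rfl (fun i hi => ?_))
      have h4 := h2 i (Finset.mem_range.mp hi)
      show gw lam h w (tau T i x) (T i x) (s i x) = _
      unfold gw
      rw [if_neg h4]
    · intro i _ hij
      by_contra hne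
      obtain ⟨h5, h6⟩ := hkey i hne
      rcases lt_or_gt_of_ne hij with h7 | h7
      · have h8 : tau T (i + 1) x ≤ tau T j x := tau_mono x (by omega : i + 1 ≤ j)
        rw [tau_succ] at h8
        have := h2 i h7
        omega
      · have h8 : tau T (j + 1) x ≤ tau T i x := tau_mono x (by omega : j + 1 ≤ i)
        rw [tau_succ] at h8
        have := h6 j h7
        omega
  · push Not at hex
    rw [Finset.sum_eq_zero hex]
    exact (Real.exp_pos _).le

end Proc

theorem Zc_le_ZN (hR : RenewalSigns P T s K) (hK0 : K 0 = 0) (lam h : ℝ) (w : ℕ → ℝ) (N : ℕ) :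
    Zc K lam h w 0 N ≤ ZN P T s lam h w N := by
  have hP := hR.prob
  unfold Zc gk ZN
  rw [Nat.sub_zero]
  have h1 : ∑ j ∈ Finset.range (N + 1), kst (kk K lam h w) j 0 N =
      ∫ x, ∑ j ∈ Finset.range (N + 1), Fp lam h w j N (pr T s x) ∂P := by
    rw [integral_finsetSum _ (fun j _ => integrable_Fp hR lam h w j N)]
    exact Finset.sum_congr rfl (fun j _ => (integral_Fp hR lam h w j N).symm)
  rw [h1]
  exact integral_mono (integrable_finsetSum _ (fun j _ => integrable_Fp hR lam h w j N))
    (integrable_integrand hR lam h w N) (fun x => sum_Fp_le lam h w N x)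

end Pool.Agent.R239.Cop
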