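import Pool.Agent.R239.Cop.Step
import Pool.Agent.R239.Cop.Proc

open MeasureTheory ProbabilityTheory Filter Topology

namespace Pool.Agent.R239.Cop.Final

open Pool.Agent.R239.Cop

theorem growth {φ : ℕ → ℝ} {D' m0 : ℕ} (hD : 1 ≤ D')
    (hstep : ∀ b, D' + m0 ≤ b → ∀ Φ : ℝ, (∀ z, z ≤ D' → Φ ≤ φ (b - z)) → Φ + 1 / 2 ≤ φ b) :
    ∃ C : ℝ, ∀ b, m0 ≤ b → (b : ℝ) / (4 * D') - C ≤ φ b := by
  have hD0 : (0 : ℝ) < D' := by exact_mod_cast hD
  obtain ⟨C, hC⟩ : ∃ C : ℝ, C = ((D' : ℝ) + m0) / (4 * D') + ∑ b ∈ Finset.range (D' + m0), |φ b| :=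
    ⟨_, rfl⟩
  refine ⟨C, ?_⟩
  intro b
  induction b using Nat.strong_induction_on with
  | _ b ih =>
    intro hb
    rcases lt_or_ge b (D' + m0) with hlt | hge
    · have h1 : |φ b| ≤ ∑ b ∈ Finset.range (D' + m0), |φ b| :=
        Finset.single_le_sum (f := fun b => |φ b|) (fun i _ => abs_nonneg _) (Finset.mem_range.2 hlt)
      have h2 : (b : ℝ) / (4 * D') ≤ ((D' : ℝ) + m0) / (4 * D') := by
        apply div_le_div_of_nonneg_right _ (by positivity)
        have : b ≤ D' + m0 := hlt.le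
        exact_mod_cast this
      have h3 := neg_abs_le (φ b)
      linarith
    · by_contra hcon
      rw [not_le] at hcon
      have h1 := hstep b hge (min (φ b) ((b : ℝ) / (4 * D') - C - 1 / 4)) (fun z hz => by
        rcases Nat.eq_zero_or_pos z with h0 | h0
        · subst h0
          exact min_le_left _ _
        · refine (min_le_right _ _).trans ?_
          have h2 := ih (b - z) (by omega) (by omega)
          refine le_trans ?_ h2
          have h3 : ((b - z : ℕ) : ℝ) = (b : ℝ) - z := by rw [Nat.cast_sub (by omega)]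
          rw [h3]
          have h4 : (z : ℝ) ≤ D' := by exact_mod_cast hz
          have h5 : (z : ℝ) / (4 * D') ≤ 1 / 4 := by
            rw [div_le_iff₀ (by positivity)]
            linarith
          rw [sub_div]
          linarith)
      rcases min_choice (φ b) ((b : ℝ) / (4 * D') - C - 1 / 4) with h2 | h2
      · rw [h2] at h1
        linarith
      · rw [h2] at h1
        linarith

variable {Ω Ω' : Type*} [MeasurableSpace Ω] [MeasurableSpace Ω'] {P : Measure Ω}
  {T : ℕ → Ω → ℕ} {s : ℕ → Ω → Bool} {K : ℕ → ℝ} {Q : Measure Ω'} {ω : ℕ → Ω' → ℝ}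

theorem K_nonneg (hR : RenewalSigns P T s K) (n : ℕ) : 0 ≤ K n := by
  have h1 := hR.law 0 n true
  have h2 : 0 ≤ P.real {x | T 0 x = n ∧ s 0 x = true} := measureReal_nonneg
  rw [h1] at h2
  linarith

theorem main {α : ℝ} (h0 : 0 < α) (h1 : α < 1) (hR : RenewalSigns P T s K) (hK0 : K 0 = 0)
    (hKs : HasSum K 1) {cK : ℝ} (hcK : 0 < cK)
    (hKl : Tendsto (fun n : ℕ => K n * (n : ℝ) ^ (1 + α)) atTop (𝓝 cK)) (hQ : Charges Q ω) :
    ∃ ε : ℝ, 0 < ε ∧ ∀ᶠ lam : ℝ in 𝓝[>] 0,
      0 < freeE P T s Q ω lam ((1 / (1 + α) + ε) * lam) ∧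
      1 / (1 + α) + ε ≤ hc P T s Q ω lam / lam := by
  have hKn := K_nonneg hR
  obtain ⟨ε, hε, D, hD⟩ := Step.one_step h0 h1 hQ hK0 hKn hKs hcK hKl
  refine ⟨ε, hε, ?_⟩
  have hle1 : ∀ᶠ lam : ℝ in 𝓝[>] 0, lam ≤ 1 := by
    apply nhdsWithin_le_nhds
    exact Iic_mem_nhds (by norm_num)
  obtain ⟨m0, hm0⟩ : ∃ m0 : ℕ, ∀ m ≥ m0, 0 < K m := by
    have h2 := hKl.eventually_const_lt hcK
    obtain ⟨m0, hm0⟩ := eventually_atTop.1 h2
    refine ⟨m0, fun m hm => ?_⟩
    rcases (hKn m).eq_or_lt with h3 | h3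
    · have := hm0 m hm
      rw [← h3, zero_mul] at this
      exact absurd this (lt_irrefl _)
    · exact h3
  have hq : (0 : ℝ) < 1 / (1 + α) := by positivity
  filter_upwards [hD, hle1, self_mem_nhdsWithin] with lam hDl hl1 hl0
  have hl0' : 0 < lam := hl0
  set n := ⌈1 / lam ^ 2⌉₊ with hn
  have hn1 : 1 ≤ n := by
    rw [hn]
    exact Nat.one_le_ceil_iff.2 (by positivity)
  set h := (1 / (1 + α) + ε) * lam with hh
  have hh0 : 0 ≤ h := by positivity
  set φ : ℕ → ℝ := fun b => ∫ y, Real.log (Zc K lam h (fun i => ω i y) 0 b) ∂Q with hφ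
  obtain ⟨C, hC⟩ := growth (φ := φ) (D' := D * n + 1) (m0 := m0) (by omega) (by
    intro b hb Φ hΦ
    refine hDl b (by omega) Φ fun z hz => ⟨hm0 _ (by omega), ?_⟩
    rw [integral_log_Zc_shift hQ lam h (by omega)]
    exact hΦ z (by omega))
  set κ : ℝ := 1 / (4 * ((D * n + 1 : ℕ) : ℝ)) with hκ
  have hκ0 : 0 < κ := by positivity
  have hlow : ∀ N : ℕ, m0 + 1 ≤ N → κ * N - C ≤ ∫ y, Real.log (ZN P T s lam h (fun n => ω n y) N) ∂Q := by
    intro N hN
    have h2 := hC N (by omega)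
    have h3 : (N : ℝ) / (4 * ((D * n + 1 : ℕ) : ℝ)) = κ * N := by rw [hκ]; ring
    rw [h3] at h2
    refine h2.trans ?_
    refine integral_mono (integrable_log_Zc hQ hK0 hKn hKs lam h 0 N)
      (integrable_log_ZN hR hQ lam h N) fun y => ?_
    apply Real.log_le_log
    · have h4 := Zc_ge_single hKn lam h (fun i => ω i y) (show 0 < N by omega)
      have h5 := hm0 (N - 0) (by omega)
      linarith
    · exact Zc_le_ZN hR hK0 lam h (fun i => ω i y) N
  have hfree : κ / 2 ≤ freeE P T s Q ω lam h := by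
    unfold freeE
    apply le_liminf_of_le
    · refine IsBoundedUnder.isCoboundedUnder_ge ?_
      refine ⟨2 * |lam| * (1 + |h|), ?_⟩
      rw [eventually_map]
      filter_upwards [eventually_ge_atTop 1] with N hN
      have hN0 : (0 : ℝ) < N := by exact_mod_cast hN
      have h2 := abs_integral_log_ZN_le hR hQ lam h N
      have h3 := (le_abs_self _).trans h2
      rw [one_div, inv_mul_le_iff₀ hN0]
      linarith
    · have h2 : Tendsto (fun N : ℕ => (N : ℝ)) atTop atTop := tendsto_natCast_atTop_atTop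
      filter_upwards [eventually_ge_atTop (m0 + 1), h2.eventually_ge_atTop (2 * |C| / κ)] with N hN1 hN2
      have hN0 : (0 : ℝ) < N := by
        have : 1 ≤ N := by omega
        exact_mod_cast this
      have h3 := hlow N hN1
      rw [div_le_iff₀ hκ0] at hN2
      rw [one_div, le_inv_mul_iff₀ hN0]
      have := le_abs_self C
      linarith
  refine ⟨lt_of_lt_of_le (by positivity) hfree, ?_⟩
  rw [le_div_iff₀ hl0']
  exact le_csSup (bddAbove_hc hR hQ hl0') ⟨hh0, lt_of_lt_of_le (by positivity) hfree⟩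

end Pool.Agent.R239.Cop.Final
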