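import Pool.Agent.R239.Cop.Sel

open MeasureTheory ProbabilityTheory Filter Topology

namespace Pool.Agent.R239.Cop

/-- The sigma-algebra generated by the charges with index in `S`. -/
@[reducible] def sg {Ω : Type*} (ω : ℕ → Ω → ℝ) (S : Set ℕ) : MeasurableSpace Ω :=
  ⨆ i ∈ S, MeasurableSpace.comap (ω i) inferInstance

/-- The sites of the block `b`. -/
def blk (n b : ℕ) : Set ℕ := Set.Ioc (b * n) ((b + 1) * n)

end Pool.Agent.R239.Cop
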