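import Pool.Agent.R239.Cop.Ren
import Pool.Agent.R239.Cop.Sig

open MeasureTheory ProbabilityTheory Filter Topology

namespace Pool.Agent.R239.Cop.Glue

open Pool.Agent.R239.Cop

theorem jensen_log {ι : Type*} (T : Finset ι) (p h : ι → ℝ) (hp : ∀ i ∈ T, 0 ≤ p i)
    (hW : 0 < ∑ i ∈ T, p i) :
    Real.log (∑ i ∈ T, p i) + (∑ i ∈ T, p i * h i) / (∑ i ∈ T, p i)
      ≤ Real.log (∑ i ∈ T, p i * Real.exp (h i)) := by
  set W := ∑ i ∈ T, p i with hWdef
  set m := (∑ i ∈ T, p i * h i) / W with hm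
  have h1 : W * Real.exp m ≤ ∑ i ∈ T, p i * Real.exp (h i) := by
    have h2 : ∀ i ∈ T, p i * (Real.exp m * (1 + (h i - m))) ≤ p i * Real.exp (h i) := by
      intro i hi
      apply mul_le_mul_of_nonneg_left _ (hp i hi)
      have h3 := Real.add_one_le_exp (h i - m)
      have h4 : Real.exp (h i) = Real.exp m * Real.exp (h i - m) := by
        rw [← Real.exp_add]; congr 1; ring
      rw [h4]
      apply mul_le_mul_of_nonneg_left _ (Real.exp_pos m).le
      linarith
    refine le_trans (le_of_eq ?_) (Finset.sum_le_sum h2)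
    have h5 : ∀ i ∈ T, p i * (Real.exp m * (1 + (h i - m)))
        = Real.exp m * (1 - m) * p i + Real.exp m * (p i * h i) := by
      intro i _; ring
    rw [Finset.sum_congr rfl h5, Finset.sum_add_distrib, ← Finset.mul_sum, ← Finset.mul_sum]
    have h6 : ∑ i ∈ T, p i * h i = m * W := by
      rw [hm]; field_simp
    rw [h6, ← hWdef]
    ring
  calc Real.log W + m = Real.log (W * Real.exp m) := by
        rw [Real.log_mul hW.ne' (Real.exp_pos _).ne', Real.log_exp]
    _ ≤ _ := Real.log_le_log (by positivity) h1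

theorem en_add (lam h : ℝ) (w : ℕ → ℝ) {a b c : ℕ} (hab : a ≤ b) (hbc : b ≤ c) :
    en lam h w a c = en lam h w a b + en lam h w b c := by
  unfold en
  rw [← mul_add]
  congr 1
  rw [← Finset.sum_union]
  · congr 1
    ext i
    simp only [Finset.mem_union, Finset.mem_Ioc]
    omega
  · rw [Finset.disjoint_left]
    intro i hi hj
    rw [Finset.mem_Ioc] at hi hj
    omega

theorem en_blocks (lam h : ℝ) (w : ℕ → ℝ) (n F l : ℕ) :
    en lam h w ((F + 1) * n) ((F + l + 1) * n)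
      = ∑ b ∈ Finset.Ioc F (F + l), en lam h w (b * n) ((b + 1) * n) := by
  induction l with
  | zero => simp [en]
  | succ l ih =>
    rw [show F + (l + 1) = F + l + 1 from rfl, Finset.sum_Ioc_succ_top (by omega), ← ih]
    exact en_add lam h w (Nat.mul_le_mul_right _ (by omega)) (Nat.mul_le_mul_right _ (by omega))

theorem kk_nonneg {K : ℕ → ℝ} (hK : ∀ n, 0 ≤ K n) (lam h : ℝ) (w : ℕ → ℝ) (a c : ℕ) :
    0 ≤ kk K lam h w a c := by
  unfold kk
  have := hK (c - a)
  positivity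

theorem kk_ge {K : ℕ → ℝ} (hK : ∀ n, 0 ≤ K n) (lam h : ℝ) (w : ℕ → ℝ) (a c : ℕ) :
    K (c - a) / 2 ≤ kk K lam h w a c := by
  unfold kk
  have h1 := hK (c - a)
  have h2 := Real.exp_pos (en lam h w a c)
  have h3 := mul_nonneg h1 h2.le
  nlinarith

theorem kk_ge' {K : ℕ → ℝ} (hK : ∀ n, 0 ≤ K n) (lam h : ℝ) (w : ℕ → ℝ) (a c : ℕ) :
    K (c - a) / 2 * Real.exp (en lam h w a c) ≤ kk K lam h w a c := by
  unfold kk
  have h1 := hK (c - a)
  nlinarith

theorem Zc_nonneg {K : ℕ → ℝ} (hK : ∀ n, 0 ≤ K n) (lam h : ℝ) (w : ℕ → ℝ) (a c : ℕ) :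
    0 ≤ Zc K lam h w a c := gk_nonneg (kk_nonneg hK lam h w) a c

/-- the routes -/
def idx (n F l : ℕ) : Finset (Σ _ : ℕ, Σ _ : ℕ, Σ _ : ℕ, ℕ) :=
  (Finset.range (n / 2 + 1)).sigma fun _ => (Finset.Ioc (F * n) (F * n + n / 2)).sigma fun y₀ =>
    (Finset.Icc y₀ ((F + 1) * n)).sigma fun _ => Finset.Ioc ((F + l + 1) * n) ((F + l + 2) * n)

theorem sum_idx (n F l : ℕ) (f : ℕ → ℕ → ℕ → ℕ → ℝ) :
    ∑ s ∈ idx n F l, f s.1 s.2.1 s.2.2.1 s.2.2.2 =
      ∑ x ∈ Finset.range (n / 2 + 1), ∑ y₀ ∈ Finset.Ioc (F * n) (F * n + n / 2),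
        ∑ y ∈ Finset.Icc y₀ ((F + 1) * n), ∑ z ∈ Finset.Ioc ((F + l + 1) * n) ((F + l + 2) * n),
          f x y₀ y z := by
  unfold idx
  rw [Finset.sum_sigma]
  refine Finset.sum_congr rfl fun x _ => ?_
  rw [Finset.sum_sigma]
  refine Finset.sum_congr rfl fun y₀ _ => ?_
  rw [Finset.sum_sigma]

theorem mem_idx {n F l : ℕ} {s : Σ _ : ℕ, Σ _ : ℕ, Σ _ : ℕ, ℕ} :
    s ∈ idx n F l ↔ s.1 < n / 2 + 1 ∧ (F * n < s.2.1 ∧ s.2.1 ≤ F * n + n / 2) ∧
      (s.2.1 ≤ s.2.2.1 ∧ s.2.2.1 ≤ (F + 1) * n) ∧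
      ((F + l + 1) * n < s.2.2.2 ∧ s.2.2.2 ≤ (F + l + 2) * n) := by
  unfold idx
  simp only [Finset.mem_sigma, Finset.mem_range, Finset.mem_Ioc, Finset.mem_Icc]

/-- the gluing inequality, before taking logarithms -/
theorem Zc_ge_routes {K : ℕ → ℝ} (hK : ∀ n, 0 ≤ K n) (lam h : ℝ) (w : ℕ → ℝ) {n F l b : ℕ}
    (hn : 1 ≤ n) (hF : 1 ≤ F) (hb : (F + l + 2) * n ≤ b) :
    ∑ s ∈ idx n F l, Zc K lam h w 0 s.1 * (K (s.2.1 - s.1) / 2) * Zc K lam h w s.2.1 s.2.2.1 *
      (K (s.2.2.2 - s.2.2.1) / 2 * Real.exp (en lam h w s.2.2.1 s.2.2.2)) * Zc K lam h w s.2.2.2 b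
      ≤ Zc K lam h w 0 b := by
  have hZ := Zc_nonneg hK lam h w
  have hk := kk_nonneg hK lam h w
  have hFn : n ≤ F * n := Nat.le_mul_of_pos_left _ (by omega)
  have hF1n : (F + 1) * n = F * n + n := by ring
  have hle1 : (F + 1) * n ≤ (F + l + 1) * n := Nat.mul_le_mul_right _ (by omega)
  have hle2 : (F + l + 1) * n ≤ (F + l + 2) * n := Nat.mul_le_mul_right _ (by omega)
  have hlt : (F + l + 1) * n < (F + l + 2) * n := Nat.mul_lt_mul_of_pos_right (by omega) (by omega)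
  have hn2 : n / 2 ≤ n := Nat.div_le_self _ _
  rw [sum_idx n F l (fun x y₀ y z => Zc K lam h w 0 x * (K (y₀ - x) / 2) * Zc K lam h w y₀ y *
      (K (z - y) / 2 * Real.exp (en lam h w y z)) * Zc K lam h w z b)]
  have e1 : Zc K lam h w 0 b = _ := gk_straddle (kk K lam h w) (q := n) (Nat.zero_le n)
    (by omega : n < b)
  rw [e1]
  calc _ ≤ ∑ x ∈ Finset.range (n / 2 + 1), ∑ y₀ ∈ Finset.Ioc (F * n) (F * n + n / 2),
        Zc K lam h w 0 x * kk K lam h w x y₀ * Zc K lam h w y₀ b := by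
        refine Finset.sum_le_sum fun x hx => Finset.sum_le_sum fun y₀ hy₀ => ?_
        rw [Finset.mem_Ioc] at hy₀
        have e2 : Zc K lam h w y₀ b = _ := gk_straddle (kk K lam h w) (a := y₀) (q := (F + 1) * n)
          (b := b) (by omega) (by omega)
        rw [e2, Finset.mul_sum]
        refine Finset.sum_le_sum fun y hy => ?_
        rw [Finset.mem_Icc] at hy
        rw [Finset.mul_sum]
        calc _ ≤ ∑ z ∈ Finset.Ioc ((F + l + 1) * n) ((F + l + 2) * n),
              Zc K lam h w 0 x * kk K lam h w x y₀ * (Zc K lam h w y₀ y * kk K lam h w y z * Zc K lam h w z b) := by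
              refine Finset.sum_le_sum fun z _ => ?_
              have g1 := kk_ge hK lam h w x y₀
              have g2 := kk_ge' hK lam h w y z
              have a1 : Zc K lam h w 0 x * (K (y₀ - x) / 2) ≤ Zc K lam h w 0 x * kk K lam h w x y₀ :=
                mul_le_mul_of_nonneg_left g1 (hZ _ _)
              have a2 : Zc K lam h w y₀ y * (K (z - y) / 2 * Real.exp (en lam h w y z)) * Zc K lam h w z b
                  ≤ Zc K lam h w y₀ y * kk K lam h w y z * Zc K lam h w z b :=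
                mul_le_mul_of_nonneg_right (mul_le_mul_of_nonneg_left g2 (hZ _ _)) (hZ _ _)
              have a3 : 0 ≤ Zc K lam h w y₀ y * (K (z - y) / 2 * Real.exp (en lam h w y z)) * Zc K lam h w z b :=
                mul_nonneg (mul_nonneg (hZ _ _) (mul_nonneg (by have := hK (z - y); positivity)
                  (Real.exp_pos _).le)) (hZ _ _)
              calc _ = (Zc K lam h w 0 x * (K (y₀ - x) / 2)) *
                    (Zc K lam h w y₀ y * (K (z - y) / 2 * Real.exp (en lam h w y z)) * Zc K lam h w z b) := by ring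
                _ ≤ _ := mul_le_mul a1 a2 a3 (mul_nonneg (hZ _ _) (hk _ _))
          _ ≤ _ := by
              refine Finset.sum_le_sum_of_subset_of_nonneg ?_ fun z _ _ => ?_
              · intro z hz
                rw [Finset.mem_Ioc] at hz ⊢
                omega
              · exact mul_nonneg (mul_nonneg (hZ _ _) (hk _ _))
                  (mul_nonneg (mul_nonneg (hZ _ _) (hk _ _)) (hZ _ _))
    _ ≤ ∑ x ∈ Finset.range (n / 2 + 1), ∑ y₀ ∈ Finset.Ioc n b,
        Zc K lam h w 0 x * kk K lam h w x y₀ * Zc K lam h w y₀ b := by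
        refine Finset.sum_le_sum fun x hx => ?_
        refine Finset.sum_le_sum_of_subset_of_nonneg ?_ fun z _ _ => ?_
        · intro z hz
          rw [Finset.mem_Ioc] at hz ⊢
          omega
        · exact mul_nonneg (mul_nonneg (hZ _ _) (hk _ _)) (hZ _ _)
    _ ≤ _ := by
        refine Finset.sum_le_sum_of_subset_of_nonneg ?_ fun z _ _ => ?_
        · intro z hz
          rw [Finset.mem_range] at hz
          rw [Finset.mem_Icc]
          omega
        · exact Finset.sum_nonneg fun y _ => mul_nonneg (mul_nonneg (hZ _ _) (hk _ _)) (hZ _ _)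

/-- weight of a route -/
noncomputable def pw (K : ℕ → ℝ) (s : Σ _ : ℕ, Σ _ : ℕ, Σ _ : ℕ, ℕ) : ℝ :=
  uu K s.1 * (K (s.2.1 - s.1) / 2) * uu K (s.2.2.1 - s.2.1) * (K (s.2.2.2 - s.2.2.1) / 2)

/-- logarithmic reward of a route, without the blocks of the stretch -/
noncomputable def hw (K : ℕ → ℝ) (lam h : ℝ) (w : ℕ → ℝ) (n F l b : ℕ)
    (s : Σ _ : ℕ, Σ _ : ℕ, Σ _ : ℕ, ℕ) : ℝ :=
  Real.log (Zc K lam h w 0 s.1 / uu K s.1)
    + Real.log (Zc K lam h w s.2.1 s.2.2.1 / uu K (s.2.2.1 - s.2.1))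
    + en lam h w s.2.2.1 ((F + 1) * n) + en lam h w ((F + l + 1) * n) s.2.2.2
    + Real.log (Zc K lam h w s.2.2.2 b)

theorem sum_pw (K : ℕ → ℝ) (n F l : ℕ) : ∑ s ∈ idx n F l, pw K s = Wt K n F l := by
  unfold pw
  rw [sum_idx n F l (fun x y₀ y z => uu K x * (K (y₀ - x) / 2) * uu K (y - y₀) * (K (z - y) / 2))]
  rfl

/-- the part of the lower bound depending on the unexplored blocks -/
noncomputable def YY (K : ℕ → ℝ) (lam h : ℝ) (w : ℕ → ℝ) (n F l b : ℕ) : ℝ :=
  Real.log (Wt K n F l) + (∑ s ∈ idx n F l, pw K s * hw K lam h w n F l b s) / Wt K n F l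

theorem pw_nonneg {K : ℕ → ℝ} (hK : ∀ n, 0 ≤ K n) (s : Σ _ : ℕ, Σ _ : ℕ, Σ _ : ℕ, ℕ) :
    0 ≤ pw K s := by
  unfold pw
  have := Ren.uu_nonneg hK
  have h1 := this s.1
  have h2 := this (s.2.2.1 - s.2.1)
  have h3 := hK (s.2.1 - s.1)
  have h4 := hK (s.2.2.2 - s.2.2.1)
  positivity

/-- the gluing inequality -/
theorem glue {K : ℕ → ℝ} (hK : ∀ n, 0 ≤ K n) (lam h : ℝ) (w : ℕ → ℝ) {n F l b : ℕ}
    (hn : 1 ≤ n) (hF : 1 ≤ F) (hb : (F + l + 2) * n ≤ b) (hW : 0 < Wt K n F l)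
    (hpos : ∀ a c : ℕ, a ≤ c → 0 < uu K (c - a) → 0 < Zc K lam h w a c)
    (hpos' : ∀ z, z ≤ (F + l + 2) * n → 0 < Zc K lam h w z b) :
    ∑ j ∈ Finset.Ioc F (F + l), en lam h w (j * n) ((j + 1) * n) + YY K lam h w n F l b
      ≤ Real.log (Zc K lam h w 0 b) := by
  have hle1 : (F + 1) * n ≤ (F + l + 1) * n := Nat.mul_le_mul_right _ (by omega)
  set X := ∑ j ∈ Finset.Ioc F (F + l), en lam h w (j * n) ((j + 1) * n) with hX
  have h1 := jensen_log (idx n F l) (pw K) (fun s => hw K lam h w n F l b s + X)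
    (fun s _ => pw_nonneg hK s) (by rw [sum_pw]; exact hW)
  rw [sum_pw] at h1
  have h2 : (∑ s ∈ idx n F l, pw K s * (hw K lam h w n F l b s + X)) / Wt K n F l
      = (∑ s ∈ idx n F l, pw K s * hw K lam h w n F l b s) / Wt K n F l + X := by
    simp only [mul_add]
    rw [Finset.sum_add_distrib, ← Finset.sum_mul, sum_pw]
    field_simp
  rw [h2] at h1
  have h3 : ∑ s ∈ idx n F l, pw K s * Real.exp (hw K lam h w n F l b s + X) ≤ Zc K lam h w 0 b := by
    refine le_trans (Finset.sum_le_sum fun s hs => ?_) (Zc_ge_routes hK lam h w hn hF hb (l := l))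
    rw [mem_idx] at hs
    obtain ⟨hs1, ⟨hs2, hs3⟩, ⟨hs4, hs5⟩, hs6, hs7⟩ := hs
    rcases (pw_nonneg hK s).eq_or_lt with h0 | h0
    · rw [← h0, zero_mul]
      have hZ := Zc_nonneg hK lam h w
      have k1 := hK (s.2.1 - s.1)
      have k2 := hK (s.2.2.2 - s.2.2.1)
      have z1 := hZ 0 s.1
      have z2 := hZ s.2.1 s.2.2.1
      have z3 := hZ s.2.2.2 b
      positivity
    · have u1 : 0 < uu K s.1 := by
        rcases (Ren.uu_nonneg hK s.1).eq_or_lt with h5 | h5
        · unfold pw at h0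
          rw [← h5] at h0
          simp at h0
        · exact h5
      have u2 : 0 < uu K (s.2.2.1 - s.2.1) := by
        rcases (Ren.uu_nonneg hK (s.2.2.1 - s.2.1)).eq_or_lt with h5 | h5
        · unfold pw at h0
          rw [← h5] at h0
          simp at h0
        · exact h5
      have z1 := hpos 0 s.1 (Nat.zero_le _) (by simpa using u1)
      have z2 := hpos s.2.1 s.2.2.1 hs4 u2
      have z3 := hpos' s.2.2.2 hs7
      apply le_of_eq
      have e1 : hw K lam h w n F l b s + X = Real.log (Zc K lam h w 0 s.1 / uu K s.1)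
          + Real.log (Zc K lam h w s.2.1 s.2.2.1 / uu K (s.2.2.1 - s.2.1))
          + en lam h w s.2.2.1 s.2.2.2 + Real.log (Zc K lam h w s.2.2.2 b) := by
        unfold hw
        rw [hX, ← en_blocks, en_add lam h w (hs5.trans hle1) hs6.le, en_add lam h w hs5 hle1]
        ring
      rw [e1, Real.exp_add, Real.exp_add, Real.exp_add, Real.exp_log z3,
        Real.exp_log (div_pos z1 u1), Real.exp_log (div_pos z2 u2)]
      unfold pw
      field_simp
  have h4 : 0 < ∑ s ∈ idx n F l, pw K s * Real.exp (hw K lam h w n F l b s + X) := by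
    have h5 : 0 < ∑ s ∈ idx n F l, pw K s := by rw [sum_pw]; exact hW
    by_contra hcon
    have h6 : ∑ s ∈ idx n F l, pw K s * Real.exp (hw K lam h w n F l b s + X) = 0 :=
      le_antisymm (not_lt.1 hcon) (Finset.sum_nonneg fun s _ =>
        mul_nonneg (pw_nonneg hK s) (Real.exp_pos _).le)
    rw [Finset.sum_eq_zero_iff_of_nonneg (fun s _ =>
        mul_nonneg (pw_nonneg hK s) (Real.exp_pos _).le)] at h6
    have h7 : ∑ s ∈ idx n F l, pw K s = 0 := Finset.sum_eq_zero fun s hs => by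
      rcases mul_eq_zero.1 (h6 s hs) with h | h
      · exact h
      · exact absurd h (Real.exp_pos _).ne'
    linarith
  have h5 := Real.log_le_log h4 h3
  unfold YY
  linarith

end Pool.Agent.R239.Cop.Glue
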