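import Pool.Agent.R239.Cop.Sig

open MeasureTheory ProbabilityTheory Filter Topology

namespace Pool.Agent.R239.Cop

variable {Ω : Type*} [MeasurableSpace Ω] {Q : Measure Ω} {ω : ℕ → Ω → ℝ}

theorem indep_sg (hQ : Charges Q ω) {S T : Set ℕ} (hST : Disjoint S T) :
    Indep (sg ω S) (sg ω T) Q :=
  indep_iSup_of_disjoint (fun i => (hQ.meas i).comap_le) hQ.indep hST

namespace Ind

theorem sg_mono {S T : Set ℕ} (h : S ⊆ T) : sg ω S ≤ sg ω T :=
  biSup_mono h

theorem blk_disjoint {n b c : ℕ} (hbc : b ≠ c) : Disjoint (blk n b) (blk n c) := by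
  rw [Set.disjoint_left]
  rintro i ⟨h1, h2⟩ ⟨h3, h4⟩
  rcases lt_or_gt_of_ne hbc with h | h
  · have : (b + 1) * n ≤ c * n := Nat.mul_le_mul_right _ h
    omega
  · have : (c + 1) * n ≤ b * n := Nat.mul_le_mul_right _ h
    omega

end Ind

open Ind

theorem iIndep_blk (hQ : Charges Q ω) (n : ℕ) : iIndep (fun b => sg ω (blk n b)) Q := by
  have hprob := hQ.prob
  rw [iIndep_iff]
  intro s
  induction s using Finset.induction_on with
  | empty => intro f _; simp
  | insert b s hb ih =>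
    intro f hf
    rw [Finset.prod_insert hb, Finset.set_biInter_insert]
    have h1 : MeasurableSet[sg ω (blk n b)] (f b) := hf b (Finset.mem_insert_self _ _)
    have h2 : ∀ i ∈ s, MeasurableSet[sg ω (blk n i)] (f i) :=
      fun i hi => hf i (Finset.mem_insert_of_mem hi)
    have h3 : MeasurableSet[sg ω (⋃ i ∈ s, blk n i)] (⋂ i ∈ s, f i) := by
      refine Finset.measurableSet_biInter s (fun i hi => ?_)
      have h4 : sg ω (blk n i) ≤ sg ω (⋃ i ∈ s, blk n i) :=
        sg_mono (Set.subset_biUnion_of_mem (u := fun i => blk n i) hi)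
      exact h4 _ (h2 i hi)
    have h5 : Disjoint (blk n b) (⋃ i ∈ s, blk n i) := by
      rw [Set.disjoint_iUnion₂_right]
      intro i hi
      exact blk_disjoint (fun h => hb (h ▸ hi))
    have h6 := (Indep_iff _ _ _).mp (indep_sg hQ h5) (f b) (⋂ i ∈ s, f i) h1 h3
    rw [h6, ih h2]

theorem iSup_sg {ι : Type*} (E : Set ι) (B : ι → Set ℕ) :
    (⨆ b ∈ E, sg ω (B b)) = sg ω (⋃ b ∈ E, B b) := by
  unfold sg
  apply le_antisymm
  · refine iSup₂_le (fun b hb => iSup₂_le (fun i hi => ?_))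
    exact le_iSup₂_of_le i (Set.mem_biUnion hb hi) le_rfl
  · refine iSup₂_le (fun i hi => ?_)
    rw [Set.mem_iUnion₂] at hi
    obtain ⟨b, hb, hi⟩ := hi
    exact le_iSup₂_of_le b hb (le_iSup₂_of_le i hi le_rfl)

/-- anything measurable with respect to the charges outside the explored blocks is independent of them -/
theorem indep_comap_expl (hQ : Charges Q ω) (n F t : ℕ) {f : Ω → ℝ} {S : Set ℕ}
    (hS : ∀ i ∈ S, ∀ b ∈ expl F t, i ∉ blk n b) (hf : Measurable[sg ω S] f) :
    Indep (MeasurableSpace.comap f inferInstance) (⨆ b ∈ expl F t, sg ω (blk n b)) Q := by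
  rw [iSup_sg]
  have h1 : Disjoint S (⋃ b ∈ expl F t, blk n b) := by
    rw [Set.disjoint_iUnion₂_right]
    intro b hb
    rw [Set.disjoint_left]
    intro i hi
    exact hS i hi b hb
  exact indep_of_indep_of_le_left (indep_sg hQ h1) hf.comap_le

end Pool.Agent.R239.Cop
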