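import Pool.Agent.R239.Cop.Defs

/-!
# Moment generating functions and laws of block energies
-/

open MeasureTheory ProbabilityTheory Filter Topology

namespace Pool.Agent.R239.Cop

variable {Ω' : Type*} [MeasurableSpace Ω'] {Q : Measure Ω'} {ω : ℕ → Ω' → ℝ}

namespace Mgf

theorem exp_set (hQ : Charges Q ω) : integrableExpSet (ω 0) Q = Set.univ := by
  ext t
  simp only [integrableExpSet, Set.mem_ofPred_eq, Set.mem_univ, iff_true]
  exact hQ.mgf t

theorem mem_int (hQ : Charges Q ω) (t : ℝ) : t ∈ interior (integrableExpSet (ω 0) Q) := by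
  rw [exp_set hQ, interior_univ]
  trivial

theorem sq_integrable (hQ : Charges Q ω) : Integrable (fun y => (ω 0 y) ^ 2) Q := by
  by_contra h
  have := integral_undef h
  rw [hQ.var] at this
  exact one_ne_zero this

theorem integrable_zero (hQ : Charges Q ω) : Integrable (ω 0) Q := by
  have := hQ.prob
  have h : MemLp (ω 0) 2 Q :=
    (memLp_two_iff_integrable_sq (hQ.meas 0).aestronglyMeasurable).2 (sq_integrable hQ)
  exact h.integrable (by norm_num)

theorem integrable_all (hQ : Charges Q ω) (i : ℕ) : Integrable (ω i) Q :=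
  ((hQ.ident i).integrable_iff).2 (integrable_zero hQ)

theorem integral_all (hQ : Charges Q ω) (i : ℕ) : ∫ y, ω i y ∂Q = 0 := by
  rw [(hQ.ident i).integral_eq, hQ.mean]

theorem cgf_lim (hQ : Charges Q ω) :
    Tendsto (fun s : ℝ => cgf (ω 0) Q s / s ^ 2) (𝓝[≠] 0) (𝓝 (1 / 2)) := by
  have := hQ.prob
  have hd0 : deriv (cgf (ω 0) Q) 0 = 0 := by
    rw [deriv_cgf_zero (mem_int hQ 0), hQ.mean, zero_div]
  have hdd : iteratedDeriv 2 (cgf (ω 0) Q) 0 = 1 := by
    rw [iteratedDeriv_two_cgf (mem_int hQ 0), hd0]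
    simp [hQ.var]
  have hda : HasDerivAt (deriv (cgf (ω 0) Q)) 1 0 := by
    have h1 : DifferentiableAt ℝ (deriv (cgf (ω 0) Q)) 0 :=
      (analyticAt_cgf (mem_int hQ 0)).deriv.differentiableAt
    have h2 := h1.hasDerivAt
    rw [iteratedDeriv_succ, iteratedDeriv_one] at hdd
    rwa [hdd] at h2
  refine HasDerivAt.lhopital_zero_nhdsNE (f' := deriv (cgf (ω 0) Q)) (g' := fun s => 2 * s)
    ?_ ?_ ?_ ?_ ?_ ?_
  · exact Eventually.of_forall fun s =>
      (analyticAt_cgf (mem_int hQ s)).differentiableAt.hasDerivAt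
  · refine Eventually.of_forall fun s => ?_
    have := hasDerivAt_pow 2 s
    simpa using this
  · filter_upwards [self_mem_nhdsWithin] with s hs
    exact mul_ne_zero two_ne_zero hs
  · have h1 : ContinuousAt (cgf (ω 0) Q) 0 :=
      (analyticAt_cgf (mem_int hQ 0)).continuousAt
    have h2 := h1.tendsto
    rw [cgf_zero] at h2
    exact h2.mono_left nhdsWithin_le_nhds
  · have h1 : Tendsto (fun s : ℝ => s ^ 2) (𝓝 0) (𝓝 (0 ^ 2)) := (continuous_pow 2).tendsto 0
    rw [zero_pow two_ne_zero] at h1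
    exact h1.mono_left nhdsWithin_le_nhds
  · have h1 := hda.tendsto_slope
    have h2 := h1.const_mul (1 / 2 : ℝ)
    rw [mul_one] at h2
    refine h2.congr fun s => ?_
    rw [slope_def_field, hd0]
    by_cases hs : s = 0
    · subst hs; simp
    · field_simp
      ring

theorem ceil_lim : Tendsto (fun lam : ℝ => (⌈1 / lam ^ 2⌉₊ : ℝ) * lam ^ 2) (𝓝[>] 0) (𝓝 1) := by
  have h1 : Tendsto (fun lam : ℝ => 1 + lam ^ 2) (𝓝[>] 0) (𝓝 1) := by
    have h : Tendsto (fun lam : ℝ => 1 + lam ^ 2) (𝓝 0) (𝓝 (1 + 0 ^ 2)) :=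
      (continuous_const.add (continuous_pow 2)).tendsto 0
    rw [zero_pow two_ne_zero, add_zero] at h
    exact h.mono_left nhdsWithin_le_nhds
  refine tendsto_of_tendsto_of_tendsto_of_le_of_le' tendsto_const_nhds h1 ?_ ?_
  · filter_upwards [self_mem_nhdsWithin] with lam hlam
    have hl : 0 < lam ^ 2 := pow_pos hlam 2
    have := Nat.le_ceil (1 / lam ^ 2)
    calc (1 : ℝ) = 1 / lam ^ 2 * lam ^ 2 := (one_div_mul_cancel hl.ne').symm
      _ ≤ _ := mul_le_mul_of_nonneg_right this hl.le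
  · filter_upwards [self_mem_nhdsWithin] with lam hlam
    have hl : 0 < lam ^ 2 := pow_pos hlam 2
    have := (Nat.ceil_lt_add_one (show 0 ≤ 1 / lam ^ 2 by positivity)).le
    calc (⌈1 / lam ^ 2⌉₊ : ℝ) * lam ^ 2 ≤ (1 / lam ^ 2 + 1) * lam ^ 2 :=
          mul_le_mul_of_nonneg_right this hl.le
      _ = 1 + lam ^ 2 := by rw [add_mul, one_div_mul_cancel hl.ne', one_mul]

end Mgf

open Mgf

/-- moment generating function of the energy of a block of length `n` -/
theorem integral_exp_en (hQ : Charges Q ω) (lam h t : ℝ) (a b : ℕ) :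
    ∫ y, Real.exp (t * en lam h (fun n => ω n y) a b) ∂Q
      = (mgf (ω 0) Q (-2 * lam * t)) ^ (b - a) * Real.exp (-2 * lam * h * t * (b - a : ℕ)) := by
  have := hQ.prob
  have h1 : ∀ y, Real.exp (t * en lam h (fun n => ω n y) a b) =
      Real.exp ((-2 * lam * t) * (∑ i ∈ Finset.Ioc a b, ω i) y) *
        Real.exp (-2 * lam * h * t * (b - a : ℕ)) := by
    intro y
    rw [← Real.exp_add]
    congr 1
    unfold en
    rw [Finset.sum_add_distrib, Finset.sum_const, Nat.card_Ioc, nsmul_eq_mul, Finset.sum_apply]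
    ring
  simp only [h1]
  rw [integral_mul_const]
  congr 1
  change mgf (∑ i ∈ Finset.Ioc a b, ω i) Q (-2 * lam * t) = _
  rw [hQ.indep.mgf_sum hQ.meas]
  have h2 : ∀ i ∈ Finset.Ioc a b, mgf (ω i) Q (-2 * lam * t) = mgf (ω 0) Q (-2 * lam * t) := by
    intro i _
    exact ((hQ.ident i).comp (u := fun x => Real.exp ((-2 * lam * t) * x))
      (by fun_prop)).integral_eq
  rw [Finset.prod_congr rfl h2, Finset.prod_const, Nat.card_Ioc]

theorem tendsto_mgf (hQ : Charges Q ω) (m t : ℝ) :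
    Tendsto (fun lam : ℝ => (mgf (ω 0) Q (-2 * lam * t)) ^ (⌈1 / lam ^ 2⌉₊) *
        Real.exp (-2 * lam * (m * lam) * t * (⌈1 / lam ^ 2⌉₊ : ℝ)))
      (𝓝[>] 0) (𝓝 (Real.exp (2 * t ^ 2 - 2 * m * t))) := by
  have := hQ.prob
  have hpos : ∀ s, 0 < mgf (ω 0) Q s := fun s => mgf_pos (hQ.mgf s)
  have h1 : ∀ lam : ℝ, (mgf (ω 0) Q (-2 * lam * t)) ^ (⌈1 / lam ^ 2⌉₊) *
        Real.exp (-2 * lam * (m * lam) * t * (⌈1 / lam ^ 2⌉₊ : ℝ)) =
      Real.exp ((⌈1 / lam ^ 2⌉₊ : ℝ) * cgf (ω 0) Q (-2 * lam * t) -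
        2 * m * t * ((⌈1 / lam ^ 2⌉₊ : ℝ) * lam ^ 2)) := by
    intro lam
    rw [sub_eq_add_neg, Real.exp_add, Real.exp_nat_mul, cgf, Real.exp_log (hpos _)]
    congr 2
    ring
  simp only [h1]
  refine (Real.continuous_exp.tendsto _).comp ?_
  have h2 := (ceil_lim).const_mul (2 * m * t)
  rw [mul_one] at h2
  refine Tendsto.sub ?_ h2
  by_cases ht : t = 0
  · subst ht
    simp [cgf_zero]
  have h3 : Tendsto (fun lam : ℝ => -2 * lam * t) (𝓝[>] 0) (𝓝[≠] 0) := by
    refine tendsto_nhdsWithin_of_tendsto_nhds_of_eventually_within _ ?_ ?_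
    · have h : Tendsto (fun lam : ℝ => -2 * lam * t) (𝓝 0) (𝓝 (-2 * 0 * t)) :=
        (Continuous.tendsto (by fun_prop) 0)
      rw [mul_zero, zero_mul] at h
      exact h.mono_left nhdsWithin_le_nhds
    · filter_upwards [self_mem_nhdsWithin] with lam hlam
      have hl : lam ≠ 0 := ne_of_gt hlam
      exact mul_ne_zero (mul_ne_zero (by norm_num) hl) ht
  have h4 := (cgf_lim hQ).comp h3
  have h5 := (ceil_lim.mul h4).const_mul (4 * t ^ 2)
  have h6 : 4 * t ^ 2 * (1 * (1 / 2)) = 2 * t ^ 2 := by ring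
  rw [h6] at h5
  refine h5.congr' ?_
  filter_upwards [self_mem_nhdsWithin] with lam hlam
  have hl : lam ≠ 0 := ne_of_gt hlam
  simp only [Function.comp]
  field_simp
  ring

/-- stationarity of the charges: the shifted sequence has the same law -/
theorem map_shift (hQ : Charges Q ω) (z : ℕ) :
    Q.map (fun y => fun i => ω (i + z) y) = Q.map (fun y => fun i => ω i y) := by
  have := hQ.prob
  rw [(hQ.indep.precomp (g := fun i => i + z) (add_left_injective z)).map_fun_eq_infinitePi_map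
    (fun i => hQ.meas (i + z)), hQ.indep.map_fun_eq_infinitePi_map hQ.meas]
  congr 1
  funext i
  exact ((hQ.ident (i + z)).trans (hQ.ident i).symm).map_eq

/-- law of the block energies -/
theorem map_en (hQ : Charges Q ω) (lam h : ℝ) (n b : ℕ) :
    Q.map (fun y => en lam h (fun i => ω i y) (b * n) ((b + 1) * n))
      = Q.map (fun y => en lam h (fun i => ω i y) 0 n) := by
  have hm : Measurable (fun w : ℕ → ℝ => en lam h w 0 n) := by
    unfold en
    fun_prop
  have h1 : ∀ y, en lam h (fun i => ω i y) (b * n) ((b + 1) * n) =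
      en lam h (fun i => ω (i + b * n) y) 0 n := by
    intro y
    unfold en
    congr 1
    have h2 : Finset.Ioc (b * n) ((b + 1) * n) =
        (Finset.Ioc 0 n).map (addRightEmbedding (b * n)) := by
      rw [Finset.map_add_right_Ioc]
      congr 1 <;> ring
    rw [h2, Finset.sum_map]
    rfl
  simp only [h1]
  have e1 := Measure.map_map (μ := Q) hm (measurable_pi_iff.2 fun i => hQ.meas (i + b * n))
  have e2 := Measure.map_map (μ := Q) hm (measurable_pi_iff.2 fun i => hQ.meas i)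
  change _ = Q.map (fun y => en lam h (fun i => ω (i + b * n) y) 0 n) at e1
  change _ = Q.map (fun y => en lam h (fun i => ω i y) 0 n) at e2
  rw [← e1, ← e2, map_shift hQ]

theorem integrable_en (hQ : Charges Q ω) (lam h : ℝ) (a b : ℕ) :
    Integrable (fun y => en lam h (fun i => ω i y) a b) Q := by
  have := hQ.prob
  unfold en
  refine Integrable.const_mul ?_ _
  exact integrable_finsetSum _ fun i _ => (integrable_all hQ i).add (integrable_const h)

theorem integral_en (hQ : Charges Q ω) (lam h : ℝ) {a b : ℕ} (hab : a ≤ b) :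
    ∫ y, en lam h (fun i => ω i y) a b ∂Q = -2 * lam * h * ((b : ℝ) - a) := by
  have := hQ.prob
  unfold en
  change ∫ y, -2 * lam * ∑ i ∈ Finset.Ioc a b, (ω i y + h) ∂Q = _
  rw [integral_const_mul, integral_finsetSum (f := fun i y => ω i y + h) _
    fun i _ => (integrable_all hQ i).add (integrable_const h)]
  have h1 : ∀ i ∈ Finset.Ioc a b, ∫ y, (ω i y + h) ∂Q = h := by
    intro i _
    rw [integral_add (integrable_all hQ i) (integrable_const h), integral_all hQ i]
    simp
  rw [Finset.sum_congr rfl h1, Finset.sum_const, Nat.card_Ioc, nsmul_eq_mul, Nat.cast_sub hab]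
  ring

end Pool.Agent.R239.Cop
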