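import Pool.Agent.R239.Cop.Ren
import Pool.Agent.R239.Cop.Mgf
import Pool.Agent.R239.Cop.Sig

open MeasureTheory ProbabilityTheory Filter Topology

namespace Pool.Agent.R239.Cop

open Ren Mgf

variable {Ω : Type*} [MeasurableSpace Ω] {K : ℕ → ℝ} {Q : Measure Ω} {ω : ℕ → Ω → ℝ}

theorem sg_le (hQ : Charges Q ω) (S : Set ℕ) : sg ω S ≤ (inferInstance : MeasurableSpace Ω) :=
  iSup₂_le fun i _ => (hQ.meas i).comap_le

theorem LogZ.measurable_charge {S : Set ℕ} {i : ℕ} (hi : i ∈ S) : Measurable[sg ω S] (ω i) :=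
  (comap_measurable (ω i)).mono (le_iSup₂ (f := fun (i : ℕ) (_ : i ∈ S) =>
    MeasurableSpace.comap (ω i) inferInstance) i hi) le_rfl

theorem measurable_en_sg (hQ : Charges Q ω) (lam h : ℝ) {a b : ℕ} {S : Set ℕ}
    (hS : Set.Ioc a b ⊆ S) :
    Measurable[sg ω S] (fun y => en lam h (fun i => ω i y) a b) := by
  unfold en
  have h1 : Measurable[sg ω S] (fun y => ∑ i ∈ Finset.Ioc a b, (ω i y + h)) :=
    Finset.measurable_fun_sum _ fun i hi =>
      (LogZ.measurable_charge (hS (Finset.mem_Ioc.1 hi))).add_const h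
  exact h1.const_mul _

theorem LogZ.measurable_kk (hQ : Charges Q ω) (lam h : ℝ) {a b : ℕ} {S : Set ℕ}
    (hS : Set.Ioc a b ⊆ S) :
    Measurable[sg ω S] (fun y => kk K lam h (fun i => ω i y) a b) := by
  unfold kk
  exact (((measurable_en_sg hQ lam h hS).exp.const_add 1).div_const 2).const_mul _

theorem LogZ.measurable_kst (hQ : Charges Q ω) (lam h : ℝ) {a : ℕ} {S : Set ℕ} (j : ℕ) :
    ∀ {b : ℕ}, Set.Ioc a b ⊆ S →
    Measurable[sg ω S] (fun y => kst (kk K lam h (fun i => ω i y)) j a b) := by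
  induction j with
  | zero =>
    intro b _
    simp only [kst]
    exact measurable_const
  | succ j ih =>
    intro b hS
    simp only [kst]
    refine Finset.measurable_fun_sum _ fun c hc => ?_
    have hc' := Finset.mem_Ico.1 hc
    refine (ih fun x hx => hS ⟨hx.1, hx.2.trans hc'.2.le⟩).mul
      (LogZ.measurable_kk hQ lam h fun x hx => hS ⟨hc'.1.trans_lt hx.1, hx.2⟩)

theorem measurable_Zc_sg (hQ : Charges Q ω) (lam h : ℝ) {a b : ℕ} {S : Set ℕ}
    (hS : Set.Ioc a b ⊆ S) :
    Measurable[sg ω S] (fun y => Zc K lam h (fun i => ω i y) a b) := by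
  unfold Zc gk
  exact Finset.measurable_fun_sum _ fun j _ => LogZ.measurable_kst hQ lam h j hS

theorem LogZ.kst_nonneg {k : ℕ → ℕ → ℝ} (hk : ∀ a b, 0 ≤ k a b) (j : ℕ) :
    ∀ a b : ℕ, 0 ≤ kst k j a b := by
  induction j with
  | zero => intro a b; simp only [kst]; split_ifs <;> norm_num
  | succ j ih =>
    intro a b
    simp only [kst]
    exact Finset.sum_nonneg fun c _ => mul_nonneg (ih a c) (hk c b)

theorem LogZ.kst_mono {k k' : ℕ → ℕ → ℝ} {a b : ℕ} (hk : ∀ x y, 0 ≤ k x y)
    (h : ∀ x y, a ≤ x → x < y → y ≤ b → k x y ≤ k' x y) (j : ℕ) :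
    ∀ c : ℕ, c ≤ b → kst k j a c ≤ kst k' j a c := by
  induction j with
  | zero => intro c _; simp only [kst]; exact le_rfl
  | succ j ih =>
    intro c hc
    simp only [kst]
    refine Finset.sum_le_sum fun x hx => ?_
    have hx' := Finset.mem_Ico.1 hx
    exact mul_le_mul (ih x (hx'.2.le.trans hc)) (h x c hx'.1 hx'.2 hc) (hk _ _)
      ((LogZ.kst_nonneg hk j a x).trans (ih x (hx'.2.le.trans hc)))

theorem LogZ.kst_conj (k : ℕ → ℕ → ℝ) (φ : ℕ → ℝ) (j : ℕ) : ∀ a b : ℕ,
    kst (fun x y => k x y * Real.exp (φ y - φ x)) j a b = kst k j a b * Real.exp (φ b - φ a) := by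
  induction j with
  | zero =>
    intro a b
    simp only [kst]
    split_ifs with hab
    · rw [hab, sub_self, Real.exp_zero, mul_one]
    · rw [zero_mul]
  | succ j ih =>
    intro a b
    simp only [kst]
    rw [Finset.sum_mul]
    refine Finset.sum_congr rfl fun c _ => ?_
    rw [ih a c, show φ b - φ a = (φ c - φ a) + (φ b - φ c) by ring, Real.exp_add]
    ring

theorem LogZ.gk_mono {k k' : ℕ → ℕ → ℝ} {a b : ℕ} (hk : ∀ x y, 0 ≤ k x y)
    (h : ∀ x y, a ≤ x → x < y → y ≤ b → k x y ≤ k' x y) : gk k a b ≤ gk k' a b :=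
  Finset.sum_le_sum fun j _ => LogZ.kst_mono hk h j b le_rfl

theorem LogZ.gk_conj (k : ℕ → ℕ → ℝ) (φ : ℕ → ℝ) (a b : ℕ) :
    gk (fun x y => k x y * Real.exp (φ y - φ x)) a b = gk k a b * Real.exp (φ b - φ a) := by
  unfold gk
  rw [Finset.sum_mul]
  exact Finset.sum_congr rfl fun j _ => LogZ.kst_conj k φ j a b

/-- the potential controlling the energies -/
noncomputable def LogZ.pot (lam h : ℝ) (w : ℕ → ℝ) (x : ℕ) : ℝ :=
  2 * |lam| * ∑ i ∈ Finset.Ioc 0 x, (|w i| + |h|)

theorem LogZ.abs_en_le (lam h : ℝ) (w : ℕ → ℝ) {x y : ℕ} (hxy : x ≤ y) :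
    |en lam h w x y| ≤ LogZ.pot lam h w y - LogZ.pot lam h w x := by
  unfold en LogZ.pot
  have h1 : ∑ i ∈ Finset.Ioc 0 y, (|w i| + |h|) =
      ∑ i ∈ Finset.Ioc 0 x, (|w i| + |h|) + ∑ i ∈ Finset.Ioc x y, (|w i| + |h|) :=
    (Finset.sum_Ioc_consecutive _ (Nat.zero_le x) hxy).symm
  rw [h1, abs_mul, abs_mul]
  have h2 : |∑ i ∈ Finset.Ioc x y, (w i + h)| ≤ ∑ i ∈ Finset.Ioc x y, (|w i| + |h|) :=
    (Finset.abs_sum_le_sum_abs _ _).trans (Finset.sum_le_sum fun i _ => abs_add_le _ _)
  have h3 : |(-2 : ℝ)| = 2 := by norm_num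
  rw [h3]
  have h4 : 0 ≤ 2 * |lam| := by positivity
  nlinarith [mul_le_mul_of_nonneg_left h2 h4]

theorem LogZ.kk_ge (hKn : ∀ n, 0 ≤ K n) (lam h : ℝ) (w : ℕ → ℝ) {x y : ℕ} (hxy : x ≤ y) :
    K (y - x) * Real.exp (-(LogZ.pot lam h w y) - -(LogZ.pot lam h w x)) ≤ kk K lam h w x y := by
  unfold kk
  apply mul_le_mul_of_nonneg_left _ (hKn _)
  have h1 := LogZ.abs_en_le lam h w hxy
  have h2 : Real.exp (-|en lam h w x y|) ≤ (1 + Real.exp (en lam h w x y)) / 2 := by
    rcases le_total 0 (en lam h w x y) with h' | h'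
    · have e1 : Real.exp (-|en lam h w x y|) ≤ 1 := Real.exp_le_one_iff.2 (by
        have := abs_nonneg (en lam h w x y); linarith)
      have e2 := Real.one_le_exp h'
      linarith
    · rw [abs_of_nonpos h', neg_neg]
      have := Real.exp_le_one_iff.2 h'
      linarith
  refine le_trans (Real.exp_le_exp.2 ?_) h2
  linarith

theorem LogZ.kk_le (hKn : ∀ n, 0 ≤ K n) (lam h : ℝ) (w : ℕ → ℝ) {x y : ℕ} (hxy : x ≤ y) :
    kk K lam h w x y ≤ K (y - x) * Real.exp (LogZ.pot lam h w y - LogZ.pot lam h w x) := by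
  unfold kk
  apply mul_le_mul_of_nonneg_left _ (hKn _)
  have h1 := LogZ.abs_en_le lam h w hxy
  have h0 := abs_nonneg (en lam h w x y)
  have e1 : Real.exp (en lam h w x y) ≤ Real.exp (LogZ.pot lam h w y - LogZ.pot lam h w x) :=
    Real.exp_le_exp.2 ((le_abs_self _).trans h1)
  have e2 : (1 : ℝ) ≤ Real.exp (LogZ.pot lam h w y - LogZ.pot lam h w x) :=
    Real.one_le_exp (h0.trans h1)
  linarith

theorem LogZ.kk_nonneg (hKn : ∀ n, 0 ≤ K n) (lam h : ℝ) (w : ℕ → ℝ) (x y : ℕ) :
    0 ≤ kk K lam h w x y := by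
  unfold kk
  have := Real.exp_pos (en lam h w x y)
  exact mul_nonneg (hKn _) (by linarith)

theorem LogZ.Zc_lower (hKn : ∀ n, 0 ≤ K n) (lam h : ℝ) (w : ℕ → ℝ) {a b : ℕ} (hab : a ≤ b) :
    uu K (b - a) * Real.exp (-(LogZ.pot lam h w b - LogZ.pot lam h w a)) ≤ Zc K lam h w a b := by
  have h1 := LogZ.gk_conj (fun x y => K (y - x)) (fun x => -(LogZ.pot lam h w x)) a b
  rw [gk_un K hab] at h1
  rw [show -(LogZ.pot lam h w b - LogZ.pot lam h w a) =
    -(LogZ.pot lam h w b) - -(LogZ.pot lam h w a) by ring, ← h1]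
  exact LogZ.gk_mono (fun x y => mul_nonneg (hKn _) (Real.exp_pos _).le)
    fun x y _ hxy _ => LogZ.kk_ge hKn lam h w hxy.le

theorem LogZ.Zc_upper (hKn : ∀ n, 0 ≤ K n) (lam h : ℝ) (w : ℕ → ℝ) {a b : ℕ} (hab : a ≤ b) :
    Zc K lam h w a b ≤ uu K (b - a) * Real.exp (LogZ.pot lam h w b - LogZ.pot lam h w a) := by
  have h1 := LogZ.gk_conj (fun x y => K (y - x)) (fun x => LogZ.pot lam h w x) a b
  rw [gk_un K hab] at h1
  rw [← h1]
  exact LogZ.gk_mono (LogZ.kk_nonneg hKn lam h w)
    fun x y _ hxy _ => LogZ.kk_le hKn lam h w hxy.le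

theorem Zc_pos (hKn : ∀ n, 0 ≤ K n) (lam h : ℝ) (w : ℕ → ℝ) {a b : ℕ} (hab : a ≤ b)
    (hu : 0 < uu K (b - a)) : 0 < Zc K lam h w a b :=
  (mul_pos hu (Real.exp_pos _)).trans_le (LogZ.Zc_lower hKn lam h w hab)

theorem uu_pos (hKn : ∀ n, 0 ≤ K n) {m : ℕ} (hm : 1 ≤ m) (hK : 0 < K m) : 0 < uu K m := by
  unfold uu
  rw [gk_right _ (by omega : 0 < m)]
  refine lt_of_lt_of_le hK ?_
  have h1 := Finset.single_le_sum (f := fun c => gk (fun a c => K (c - a)) 0 c * K (m - c))
    (fun c _ => mul_nonneg (gk_nonneg (fun a b => hKn _) 0 c) (hKn _))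
    (Finset.mem_Ico.2 ⟨le_rfl, (by omega : 0 < m)⟩)
  simp only [gk_self, one_mul, Nat.sub_zero] at h1
  exact h1

theorem Zc_ge_single (hKn : ∀ n, 0 ≤ K n) (lam h : ℝ) (w : ℕ → ℝ) {a b : ℕ} (hab : a < b) :
    K (b - a) / 2 ≤ Zc K lam h w a b := by
  unfold Zc
  rw [gk_right _ hab]
  have h1 := Finset.single_le_sum (f := fun c => gk (kk K lam h w) a c * kk K lam h w c b)
    (fun c _ => mul_nonneg (gk_nonneg (LogZ.kk_nonneg hKn lam h w) a c)
      (LogZ.kk_nonneg hKn lam h w c b))
    (Finset.mem_Ico.2 ⟨le_rfl, hab⟩)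
  simp only [gk_self, one_mul] at h1
  refine le_trans ?_ h1
  unfold kk
  have := Real.exp_pos (en lam h w a b)
  have := hKn (b - a)
  nlinarith

theorem LogZ.integrable_pot (hQ : Charges Q ω) (lam h : ℝ) (x : ℕ) :
    Integrable (fun y => LogZ.pot lam h (fun i => ω i y) x) Q := by
  have := hQ.prob
  unfold LogZ.pot
  refine Integrable.const_mul ?_ _
  exact integrable_finsetSum _ fun i _ => (integrable_all hQ i).abs.add (integrable_const _)

theorem LogZ.log_eq_zero (hKn : ∀ n, 0 ≤ K n) (lam h : ℝ) (w : ℕ → ℝ) {a b : ℕ} (hab : a ≤ b)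
    (hu : uu K (b - a) = 0) : Zc K lam h w a b = 0 := by
  apply le_antisymm
  · have := LogZ.Zc_upper hKn lam h w hab
    rwa [hu, zero_mul] at this
  · exact gk_nonneg (LogZ.kk_nonneg hKn lam h w) a b

theorem integrable_log_Zc (hQ : Charges Q ω) (hK0 : K 0 = 0) (hKn : ∀ n, 0 ≤ K n) (hKs : HasSum K 1)
    (lam h : ℝ) (a b : ℕ) :
    Integrable (fun y => Real.log (Zc K lam h (fun i => ω i y) a b)) Q := by
  have hprob := hQ.prob
  rcases lt_or_ge b a with hba | hab
  · have : (fun y => Real.log (Zc K lam h (fun i => ω i y) a b)) = fun _ => 0 := by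
      funext y
      unfold Zc
      rw [gk_eq_zero _ hba, Real.log_zero]
    rw [this]
    exact integrable_zero _ _ _
  rcases (uu_nonneg hKn (b - a)).eq_or_lt with hu | hu
  · have : (fun y => Real.log (Zc K lam h (fun i => ω i y) a b)) = fun _ => 0 := by
      funext y
      rw [LogZ.log_eq_zero hKn lam h _ hab hu.symm, Real.log_zero]
    rw [this]
    exact integrable_zero _ _ _
  · have hmeas : Measurable (fun y => Zc K lam h (fun i => ω i y) a b) :=
      (measurable_Zc_sg hQ lam h (S := Set.univ) (Set.subset_univ _)).mono (sg_le hQ _) le_rfl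
    refine Integrable.mono' (g := fun y => |Real.log (uu K (b - a))| +
      (LogZ.pot lam h (fun i => ω i y) b - LogZ.pot lam h (fun i => ω i y) a))
      ((integrable_const _).add ((LogZ.integrable_pot hQ lam h b).sub
        (LogZ.integrable_pot hQ lam h a))) (Real.measurable_log.comp hmeas).aestronglyMeasurable
      (Eventually.of_forall fun y => ?_)
    have h1 := LogZ.Zc_lower hKn lam h (fun i => ω i y) hab
    have h2 := LogZ.Zc_upper hKn lam h (fun i => ω i y) hab
    have hp := Zc_pos hKn lam h (fun i => ω i y) hab hu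
    have l1 := Real.log_le_log (mul_pos hu (Real.exp_pos _)) h1
    have l2 := Real.log_le_log hp h2
    rw [Real.log_mul hu.ne' (Real.exp_pos _).ne', Real.log_exp] at l1 l2
    rw [Real.norm_eq_abs, abs_le]
    have := neg_abs_le (Real.log (uu K (b - a)))
    have := le_abs_self (Real.log (uu K (b - a)))
    constructor <;> linarith

theorem LogZ.Zc_shift (lam h : ℝ) (w : ℕ → ℝ) {a b : ℕ} (hab : a ≤ b) :
    Zc K lam h w a b = Zc K lam h (fun i => w (i + a)) 0 (b - a) := by
  unfold Zc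
  have h1 := gk_shift (kk K lam h w) a 0 (b - a)
  rw [zero_add, Nat.sub_add_cancel hab] at h1
  rw [← h1]
  congr 1
  funext x y
  unfold kk en
  have h2 : Finset.Ioc (x + a) (y + a) = (Finset.Ioc x y).map (addRightEmbedding a) := by
    rw [Finset.map_add_right_Ioc]
  rw [h2, Finset.sum_map, Nat.add_sub_add_right]
  rfl

theorem LogZ.measurable_Zc_fun (lam h : ℝ) (m : ℕ) :
    Measurable (fun w : ℕ → ℝ => Zc K lam h w 0 m) := by
  have hk : ∀ x y, Measurable (fun w : ℕ → ℝ => kk K lam h w x y) := by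
    intro x y
    unfold kk en
    fun_prop
  have hst : ∀ j a b, Measurable (fun w : ℕ → ℝ => kst (kk K lam h w) j a b) := by
    intro j
    induction j with
    | zero => intro a b; simp only [kst]; exact measurable_const
    | succ j ih =>
      intro a b
      simp only [kst]
      exact Finset.measurable_fun_sum _ fun c _ => (ih a c).mul (hk c b)
  unfold Zc gk
  exact Finset.measurable_fun_sum _ fun j _ => hst j 0 m

theorem integral_log_Zc_shift (hQ : Charges Q ω) (lam h : ℝ) {a b : ℕ} (hab : a ≤ b) :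
    ∫ y, Real.log (Zc K lam h (fun i => ω i y) a b) ∂Q
      = ∫ y, Real.log (Zc K lam h (fun i => ω i y) 0 (b - a)) ∂Q := by
  have hm : Measurable (fun w : ℕ → ℝ => Real.log (Zc K lam h w 0 (b - a))) :=
    Real.measurable_log.comp (LogZ.measurable_Zc_fun lam h (b - a))
  have e1 := integral_map (μ := Q) (φ := fun y => fun i => ω (i + a) y)
    (measurable_pi_iff.2 fun i => hQ.meas (i + a)).aemeasurable
    (f := fun w : ℕ → ℝ => Real.log (Zc K lam h w 0 (b - a))) hm.aestronglyMeasurable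
  have e2 := integral_map (μ := Q) (φ := fun y => fun i => ω i y)
    (measurable_pi_iff.2 fun i => hQ.meas i).aemeasurable
    (f := fun w : ℕ → ℝ => Real.log (Zc K lam h w 0 (b - a))) hm.aestronglyMeasurable
  rw [map_shift hQ, e2] at e1
  rw [e1]
  refine integral_congr_ae (Eventually.of_forall fun y => ?_)
  change Real.log (Zc K lam h (fun i => ω i y) a b) = _
  rw [LogZ.Zc_shift lam h (fun i => ω i y) hab]

theorem LogZ.integrable_log_ratio (hQ : Charges Q ω) (hK0 : K 0 = 0) (hKn : ∀ n, 0 ≤ K n)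
    (hKs : HasSum K 1) (lam h : ℝ) {a b : ℕ} (hab : a ≤ b) (hu : 0 < uu K (b - a)) :
    Integrable (fun y => Real.log (Zc K lam h (fun i => ω i y) a b / uu K (b - a))) Q := by
  have hprob := hQ.prob
  have : (fun y => Real.log (Zc K lam h (fun i => ω i y) a b / uu K (b - a))) =
      fun y => Real.log (Zc K lam h (fun i => ω i y) a b) - Real.log (uu K (b - a)) := by
    funext y
    rw [Real.log_div (Zc_pos hKn lam h _ hab hu).ne' hu.ne']
  rw [this]
  exact (integrable_log_Zc hQ hK0 hKn hKs lam h a b).sub (integrable_const _)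

/-- pointwise Jensen step -/
theorem LogZ.jensen_step (hKn : ∀ n, 0 ≤ K n) (lam h : ℝ) (w : ℕ → ℝ) {a b : ℕ} (hab : a < b)
    (hu : 0 < uu K (b - a)) :
    ∑ c ∈ (Finset.Ioc a b).filter (fun c => 0 < K (c - a) * uu K (b - c)),
      (K (c - a) * uu K (b - c) / uu K (b - a)) *
        (en lam h w a c / 2 + Real.log (Zc K lam h w c b / uu K (b - c))) ≤
      Real.log (Zc K lam h w a b / uu K (b - a)) := by
  classical
  set J := (Finset.Ioc a b).filter (fun c => 0 < K (c - a) * uu K (b - c)) with hJ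
  have hJmem : ∀ c ∈ J, a < c ∧ c ≤ b ∧ 0 < K (c - a) ∧ 0 < uu K (b - c) := by
    intro c hc
    rw [hJ, Finset.mem_filter, Finset.mem_Ioc] at hc
    have h1 := hKn (c - a)
    have h2 := uu_nonneg hKn (b - c)
    refine ⟨hc.1.1, hc.1.2, ?_, ?_⟩
    · rcases h1.eq_or_lt with h | h
      · rw [← h, zero_mul] at hc; exact absurd hc.2 (lt_irrefl _)
      · exact h
    · rcases h2.eq_or_lt with h | h
      · rw [← h, mul_zero] at hc; exact absurd hc.2 (lt_irrefl _)
      · exact h
  have hsum1 : ∑ c ∈ J, K (c - a) * uu K (b - c) / uu K (b - a) = 1 := by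
    rw [← Finset.sum_div]
    have h1 : uu K (b - a) = ∑ c ∈ Finset.Ioc a b, K (c - a) * uu K (b - c) := by
      rw [← gk_un K hab.le, gk_left _ hab]
      refine Finset.sum_congr rfl fun c hc => ?_
      rw [gk_un K (Finset.mem_Ioc.1 hc).2]
    have h2 : ∑ c ∈ J, K (c - a) * uu K (b - c) = ∑ c ∈ Finset.Ioc a b, K (c - a) * uu K (b - c) := by
      rw [hJ, Finset.sum_filter]
      refine Finset.sum_congr rfl fun c _ => ?_
      split_ifs with h
      · rfl
      · exact (le_antisymm (not_lt.1 h) (mul_nonneg (hKn _) (uu_nonneg hKn _))).symm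
    rw [h2, ← h1, div_self hu.ne']
  have hZ : Zc K lam h w a b / uu K (b - a) =
      ∑ c ∈ J, (K (c - a) * uu K (b - c) / uu K (b - a)) *
        ((1 + Real.exp (en lam h w a c)) / 2 * (Zc K lam h w c b / uu K (b - c))) := by
    unfold Zc
    rw [gk_left _ hab, Finset.sum_div, hJ, Finset.sum_filter]
    refine Finset.sum_congr rfl fun c hc => ?_
    have hc' := Finset.mem_Ioc.1 hc
    split_ifs with hh
    · have := (hJmem c (by rw [hJ, Finset.mem_filter]; exact ⟨hc, hh⟩)).2.2.2
      unfold kk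
      field_simp
    · have h0 : K (c - a) * uu K (b - c) = 0 :=
        le_antisymm (not_lt.1 hh) (mul_nonneg (hKn _) (uu_nonneg hKn _))
      rcases mul_eq_zero.1 h0 with h1 | h1
      · unfold kk
        rw [h1, zero_mul, zero_mul, zero_div]
      · have := LogZ.log_eq_zero hKn lam h w hc'.2 h1
        unfold Zc at this
        rw [this, mul_zero, zero_div]
  have hv : ∀ c ∈ J, 0 < (1 + Real.exp (en lam h w a c)) / 2 *
      (Zc K lam h w c b / uu K (b - c)) := by
    intro c hc
    obtain ⟨_, h2, _, h4⟩ := hJmem c hc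
    have := Real.exp_pos (en lam h w a c)
    exact mul_pos (by linarith) (div_pos (Zc_pos hKn lam h w h2 h4) h4)
  have hJens := strictConcaveOn_log_Ioi.concaveOn.le_map_sum (t := J)
    (w := fun c => K (c - a) * uu K (b - c) / uu K (b - a))
    (p := fun c => (1 + Real.exp (en lam h w a c)) / 2 * (Zc K lam h w c b / uu K (b - c)))
    (fun c hc => div_nonneg (mul_nonneg (hKn _) (uu_nonneg hKn _)) hu.le) hsum1
    (fun c hc => hv c hc)
  simp only [smul_eq_mul] at hJens
  rw [hZ]
  refine le_trans (Finset.sum_le_sum fun c hc => ?_) hJens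
  obtain ⟨_, h2, h3, h4⟩ := hJmem c hc
  apply mul_le_mul_of_nonneg_left _ (div_nonneg (mul_nonneg h3.le h4.le) hu.le)
  have hexp := Real.exp_pos (en lam h w a c)
  rw [Real.log_mul (by linarith : (0 : ℝ) < (1 + Real.exp (en lam h w a c)) / 2).ne'
    (div_pos (Zc_pos hKn lam h w h2 h4) h4).ne']
  have h5 : en lam h w a c / 2 ≤ Real.log ((1 + Real.exp (en lam h w a c)) / 2) := by
    rw [Real.le_log_iff_exp_le (by linarith)]
    have h6 : Real.exp (en lam h w a c) = Real.exp (en lam h w a c / 2) ^ 2 := by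
      rw [← Real.exp_nat_mul]; congr 1; push_cast; ring
    rw [h6]
    nlinarith [sq_nonneg (Real.exp (en lam h w a c / 2) - 1)]
  linarith

/-- Jensen over the chains -/
theorem integral_log_ratio (hQ : Charges Q ω) (hK0 : K 0 = 0) (hKn : ∀ n, 0 ≤ K n) (hKs : HasSum K 1)
    {lam h : ℝ} (hl : 0 ≤ lam) (hh : 0 ≤ h) {a b : ℕ} (hab : a ≤ b) (hu : 0 < uu K (b - a)) :
    -(lam * h * ((b : ℝ) - a)) ≤
      ∫ y, Real.log (Zc K lam h (fun i => ω i y) a b / uu K (b - a)) ∂Q := by
  classical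
  have hprob := hQ.prob
  obtain ⟨n, hn⟩ : ∃ n, n = b - a := ⟨_, rfl⟩
  induction n using Nat.strong_induction_on generalizing a with
  | _ n ih =>
    rcases hab.eq_or_lt with rfl | hlt
    · have : ∀ y, Real.log (Zc K lam h (fun i => ω i y) a a / uu K (a - a)) = 0 := by
        intro y
        unfold Zc
        rw [gk_self, Nat.sub_self, uu_zero, div_one, Real.log_one]
      simp only [this, sub_self, mul_zero, neg_zero, integral_zero, le_refl]
    · set J := (Finset.Ioc a b).filter (fun c => 0 < K (c - a) * uu K (b - c)) with hJ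
      have hJmem : ∀ c ∈ J, a < c ∧ c ≤ b ∧ 0 < K (c - a) ∧ 0 < uu K (b - c) := by
        intro c hc
        rw [hJ, Finset.mem_filter, Finset.mem_Ioc] at hc
        have h1 := hKn (c - a)
        have h2 := uu_nonneg hKn (b - c)
        refine ⟨hc.1.1, hc.1.2, ?_, ?_⟩
        · rcases h1.eq_or_lt with h | h
          · rw [← h, zero_mul] at hc; exact absurd hc.2 (lt_irrefl _)
          · exact h
        · rcases h2.eq_or_lt with h | h
          · rw [← h, mul_zero] at hc; exact absurd hc.2 (lt_irrefl _)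
          · exact h
      have hsum1 : ∑ c ∈ J, K (c - a) * uu K (b - c) / uu K (b - a) = 1 := by
        rw [← Finset.sum_div]
        have h1 : uu K (b - a) = ∑ c ∈ Finset.Ioc a b, K (c - a) * uu K (b - c) := by
          rw [← gk_un K hlt.le, gk_left _ hlt]
          refine Finset.sum_congr rfl fun c hc => ?_
          rw [gk_un K (Finset.mem_Ioc.1 hc).2]
        have h2 : ∑ c ∈ J, K (c - a) * uu K (b - c) =
            ∑ c ∈ Finset.Ioc a b, K (c - a) * uu K (b - c) := by
          rw [hJ, Finset.sum_filter]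
          refine Finset.sum_congr rfl fun c _ => ?_
          split_ifs with h
          · rfl
          · exact (le_antisymm (not_lt.1 h) (mul_nonneg (hKn _) (uu_nonneg hKn _))).symm
        rw [h2, ← h1, div_self hu.ne']
      have hint : ∀ c ∈ J, Integrable (fun y => (K (c - a) * uu K (b - c) / uu K (b - a)) *
          (en lam h (fun i => ω i y) a c / 2 +
            Real.log (Zc K lam h (fun i => ω i y) c b / uu K (b - c)))) Q := by
        intro c hc
        obtain ⟨_, h2, _, h4⟩ := hJmem c hc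
        exact (((integrable_en hQ lam h a c).div_const 2).add
          (LogZ.integrable_log_ratio hQ hK0 hKn hKs lam h h2 h4)).const_mul _
      have hmono : ∫ y, ∑ c ∈ J, (K (c - a) * uu K (b - c) / uu K (b - a)) *
          (en lam h (fun i => ω i y) a c / 2 +
            Real.log (Zc K lam h (fun i => ω i y) c b / uu K (b - c))) ∂Q ≤
          ∫ y, Real.log (Zc K lam h (fun i => ω i y) a b / uu K (b - a)) ∂Q :=
        integral_mono (integrable_finsetSum _ hint)
          (LogZ.integrable_log_ratio hQ hK0 hKn hKs lam h hab hu)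
          fun y => LogZ.jensen_step hKn lam h (fun i => ω i y) hlt hu
      refine le_trans ?_ hmono
      rw [integral_finsetSum _ hint]
      have hterm : ∀ c ∈ J, (K (c - a) * uu K (b - c) / uu K (b - a)) *
          (-(lam * h * ((b : ℝ) - a))) ≤ ∫ y, (K (c - a) * uu K (b - c) / uu K (b - a)) *
          (en lam h (fun i => ω i y) a c / 2 +
            Real.log (Zc K lam h (fun i => ω i y) c b / uu K (b - c))) ∂Q := by
        intro c hc
        obtain ⟨h1, h2, h3, h4⟩ := hJmem c hc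
        rw [integral_const_mul]
        apply mul_le_mul_of_nonneg_left _ (div_nonneg (mul_nonneg h3.le h4.le) hu.le)
        rw [integral_add ((integrable_en hQ lam h a c).div_const 2)
          (LogZ.integrable_log_ratio hQ hK0 hKn hKs lam h h2 h4), integral_div,
          integral_en hQ lam h h1.le]
        have := ih (b - c) (by omega) h2 h4 rfl
        linarith
      calc -(lam * h * ((b : ℝ) - a)) =
          ∑ c ∈ J, (K (c - a) * uu K (b - c) / uu K (b - a)) * (-(lam * h * ((b : ℝ) - a))) := by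
            rw [← Finset.sum_mul, hsum1, one_mul]
        _ ≤ _ := Finset.sum_le_sum hterm

end Pool.Agent.R239.Cop
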