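import Pool.Agent.R239.Cop.Defs

/-!
# Renewal chains
-/

open MeasureTheory ProbabilityTheory Filter Topology

namespace Pool.Agent.R239.Cop

namespace Ren

theorem kst_eq_zero (k : ℕ → ℕ → ℝ) (j : ℕ) : ∀ {a b : ℕ}, b < a + j → kst k j a b = 0 := by
  induction j with
  | zero =>
    intro a b h
    simp only [kst]
    rw [if_neg (by omega)]
  | succ j ih =>
    intro a b h
    simp only [kst]
    refine Finset.sum_eq_zero fun c hc => ?_
    rw [Finset.mem_Ico] at hc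
    rw [ih (by omega), zero_mul]

theorem gk_eq (k : ℕ → ℕ → ℝ) {a b J : ℕ} (hJ : b - a + 1 ≤ J) :
    gk k a b = ∑ j ∈ Finset.range J, kst k j a b := by
  unfold gk
  refine Finset.sum_subset (Finset.range_mono hJ) fun j _ hj => ?_
  rw [Finset.mem_range] at hj
  exact kst_eq_zero k j (by omega)

theorem kst_left (k : ℕ → ℕ → ℝ) (j : ℕ) : ∀ a b : ℕ,
    kst k (j + 1) a b = ∑ c ∈ Finset.Ioc a b, k a c * kst k j c b := by
  induction j with
  | zero =>
    intro a b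
    simp only [kst]
    by_cases hab : a < b
    · rw [Finset.sum_eq_single a, Finset.sum_eq_single b]
      · simp
      · intro c _ hc
        rw [if_neg hc, mul_zero]
      · intro h
        exact absurd (Finset.mem_Ioc.2 ⟨hab, le_rfl⟩) h
      · intro c _ hc
        rw [if_neg (Ne.symm hc), zero_mul]
      · intro h
        exact absurd (Finset.mem_Ico.2 ⟨le_rfl, hab⟩) h
    · rw [Finset.Ico_eq_empty (by omega), Finset.Ioc_eq_empty (by omega)]
      simp
  | succ j ih =>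
    intro a b
    have h1 : kst k (j + 1 + 1) a b = ∑ c ∈ Finset.Ico a b, kst k (j + 1) a c * k c b := rfl
    have h2 : ∀ d, kst k (j + 1) d b = ∑ c ∈ Finset.Ico d b, kst k j d c * k c b := fun _ => rfl
    have h3 : ∀ c, kst k (j + 1) a c * k c b =
        ∑ d ∈ Finset.Ioc a c, k a d * kst k j d c * k c b := fun c => by
      rw [ih, Finset.sum_mul]
    have h4 : ∀ d, k a d * kst k (j + 1) d b =
        ∑ c ∈ Finset.Ico d b, k a d * kst k j d c * k c b := fun d => by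
      rw [h2, Finset.mul_sum]
      exact Finset.sum_congr rfl fun c _ => by ring
    rw [h1, Finset.sum_congr rfl fun c _ => h3 c, Finset.sum_congr rfl fun d _ => h4 d]
    refine Finset.sum_comm' fun c d => ?_
    simp only [Finset.mem_Ico, Finset.mem_Ioc]
    omega

theorem kst_shift (k : ℕ → ℕ → ℝ) (n j : ℕ) : ∀ a b : ℕ,
    kst (fun x y => k (x + n) (y + n)) j a b = kst k j (a + n) (b + n) := by
  induction j with
  | zero =>
    intro a b
    simp only [kst, Nat.add_right_cancel_iff]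
  | succ j ih =>
    intro a b
    simp only [kst, ih]
    rw [← Finset.map_add_right_Ico a b n, Finset.sum_map]
    rfl

theorem kst_congr {k k' : ℕ → ℕ → ℝ} {a b : ℕ}
    (h : ∀ x y, a ≤ x → x < y → y ≤ b → k x y = k' x y) (j : ℕ) :
    ∀ b' ≤ b, kst k j a b' = kst k' j a b' := by
  induction j with
  | zero => intro b' _; rfl
  | succ j ih =>
    intro b' hb'
    simp only [kst]
    refine Finset.sum_congr rfl fun c hc => ?_
    rw [Finset.mem_Ico] at hc
    rw [ih c (by omega), h c b' hc.1 hc.2 hb']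

end Ren

open Ren

theorem gk_self (k : ℕ → ℕ → ℝ) (a : ℕ) : gk k a a = 1 := by
  simp [gk, kst]

theorem gk_eq_zero (k : ℕ → ℕ → ℝ) {a b : ℕ} (h : b < a) : gk k a b = 0 := by
  have h1 : b - a = 0 := by omega
  have h2 : a ≠ b := by omega
  simp [gk, kst, h1, h2]

theorem gk_nonneg {k : ℕ → ℕ → ℝ} (hk : ∀ a b, 0 ≤ k a b) (a b : ℕ) : 0 ≤ gk k a b := by
  have h : ∀ j a b, 0 ≤ kst k j a b := by
    intro j
    induction j with
    | zero =>
      intro a b
      simp only [kst]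
      split_ifs <;> norm_num
    | succ j ih =>
      intro a b
      exact Finset.sum_nonneg fun c _ => mul_nonneg (ih a c) (hk c b)
  exact Finset.sum_nonneg fun j _ => h j a b

theorem gk_right (k : ℕ → ℕ → ℝ) {a b : ℕ} (h : a < b) :
    gk k a b = ∑ c ∈ Finset.Ico a b, gk k a c * k c b := by
  rw [gk_eq k (J := b - a + 1) le_rfl, Finset.sum_range_succ']
  have h0 : kst k 0 a b = 0 := by
    simp only [kst]
    rw [if_neg (by omega)]
  rw [h0, add_zero]
  have h1 : ∀ j, kst k (j + 1) a b = ∑ c ∈ Finset.Ico a b, kst k j a c * k c b := fun _ => rfl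
  simp only [h1]
  rw [Finset.sum_comm]
  refine Finset.sum_congr rfl fun c hc => ?_
  rw [Finset.mem_Ico] at hc
  rw [gk_eq k (J := b - a) (by omega), Finset.sum_mul]

theorem gk_left (k : ℕ → ℕ → ℝ) {a b : ℕ} (h : a < b) :
    gk k a b = ∑ c ∈ Finset.Ioc a b, k a c * gk k c b := by
  rw [gk_eq k (J := b - a + 1) le_rfl, Finset.sum_range_succ']
  have h0 : kst k 0 a b = 0 := by
    simp only [kst]
    rw [if_neg (by omega)]
  rw [h0, add_zero]
  simp only [kst_left]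
  rw [Finset.sum_comm]
  refine Finset.sum_congr rfl fun c hc => ?_
  rw [Finset.mem_Ioc] at hc
  rw [gk_eq k (J := b - a) (by omega), Finset.mul_sum]

/-- decomposition at the step straddling the site `q` -/
theorem gk_straddle (k : ℕ → ℕ → ℝ) {a q b : ℕ} (h1 : a ≤ q) (h2 : q < b) :
    gk k a b = ∑ x ∈ Finset.Icc a q, ∑ y ∈ Finset.Ioc q b, gk k a x * k x y * gk k y b := by
  obtain ⟨d, hd⟩ : ∃ d, q - a = d := ⟨_, rfl⟩
  induction d using Nat.strong_induction_on generalizing a with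
  | _ d ih =>
    rw [gk_left k (show a < b by omega)]
    have hsplit : Finset.Ioc a b = Finset.Ioc a q ∪ Finset.Ioc q b := by
      rw [Finset.Ioc_union_Ioc_eq_Ioc h1 h2.le]
    have hdisj : Disjoint (Finset.Ioc a q) (Finset.Ioc q b) := by
      rw [Finset.disjoint_left]
      intro c hc hc'
      rw [Finset.mem_Ioc] at hc hc'
      omega
    rw [hsplit, Finset.sum_union hdisj]
    have hIcc : Finset.Icc a q = insert a (Finset.Ioc a q) := by
      rw [Finset.Ioc_insert_left h1]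
    rw [hIcc, Finset.sum_insert (by simp)]
    rw [gk_self]
    simp only [one_mul]
    rw [add_comm]
    congr 1
    have h3 : ∀ c ∈ Finset.Ioc a q, k a c * gk k c b =
        ∑ x ∈ Finset.Icc c q, k a c * gk k c x * ∑ y ∈ Finset.Ioc q b, k x y * gk k y b := by
      intro c hc
      rw [Finset.mem_Ioc] at hc
      rw [ih (q - c) (by omega) hc.2 rfl, Finset.mul_sum]
      refine Finset.sum_congr rfl fun x _ => ?_
      rw [Finset.mul_sum, Finset.mul_sum]
      exact Finset.sum_congr rfl fun y _ => by ring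
    rw [Finset.sum_congr rfl h3]
    rw [Finset.sum_comm' (t' := Finset.Ioc a q) (s' := fun x => Finset.Ioc a x)]
    · refine Finset.sum_congr rfl fun x hx => ?_
      rw [Finset.mem_Ioc] at hx
      rw [← Finset.sum_mul, ← gk_left k hx.1, Finset.mul_sum]
      exact Finset.sum_congr rfl fun y _ => by ring
    · intro c x
      simp only [Finset.mem_Icc, Finset.mem_Ioc]
      omega

theorem gk_shift (k : ℕ → ℕ → ℝ) (n a b : ℕ) :
    gk (fun x y => k (x + n) (y + n)) a b = gk k (a + n) (b + n) := by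
  unfold gk
  rw [Nat.add_sub_add_right]
  exact Finset.sum_congr rfl fun j _ => kst_shift k n j a b

theorem gk_un (K : ℕ → ℝ) {a b : ℕ} (h : a ≤ b) : gk (fun x y => K (y - x)) a b = uu K (b - a) := by
  have h1 := gk_shift (fun x y => K (y - x)) a 0 (b - a)
  rw [Nat.zero_add, Nat.sub_add_cancel h] at h1
  rw [← h1]
  unfold uu
  congr 1
  funext x y
  rw [Nat.add_sub_add_right]

/-- the kernel only matters between `a` and `b` -/
theorem gk_congr {k k' : ℕ → ℕ → ℝ} {a b : ℕ} (h : ∀ x y, a ≤ x → x < y → y ≤ b → k x y = k' x y) :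
    gk k a b = gk k' a b :=
  Finset.sum_congr rfl fun j _ => kst_congr h j b le_rfl

namespace Ren

theorem uu_zero (K : ℕ → ℝ) : uu K 0 = 1 := gk_self _ _

theorem uu_nonneg {K : ℕ → ℝ} (hK : ∀ n, 0 ≤ K n) (m : ℕ) : 0 ≤ uu K m :=
  gk_nonneg (fun _ _ => hK _) _ _

theorem uu_eq (K : ℕ → ℝ) {m : ℕ} (hm : 0 < m) :
    uu K m = ∑ c ∈ Finset.range m, uu K c * K (m - c) := by
  unfold uu
  rw [gk_right _ hm, Finset.range_eq_Ico]

/-- the tail -/
noncomputable def Kbar (K : ℕ → ℝ) (j : ℕ) : ℝ := 1 - ∑ i ∈ Finset.range (j + 1), K i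

theorem identity {K : ℕ → ℝ} (hK0 : K 0 = 0) (n : ℕ) :
    ∑ m ∈ Finset.range (n + 1), uu K m * Kbar K (n - m) = 1 := by
  have h1 : ∑ m ∈ Finset.range (n + 1), uu K m * ∑ i ∈ Finset.range (n - m + 1), K i =
      ∑ l ∈ Finset.range (n + 1), ∑ m ∈ Finset.range (l + 1), uu K m * K (l - m) := by
    have h2 : ∀ m ∈ Finset.range (n + 1), uu K m * ∑ i ∈ Finset.range (n - m + 1), K i =
        ∑ l ∈ Finset.Ico m (n + 1), uu K m * K (l - m) := by
      intro m hm
      rw [Finset.mem_range] at hm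
      rw [Finset.mul_sum, Finset.sum_Ico_eq_sum_range]
      have : n + 1 - m = n - m + 1 := by omega
      rw [this]
      refine Finset.sum_congr rfl fun i _ => ?_
      rw [Nat.add_sub_cancel_left]
    rw [Finset.sum_congr rfl h2]
    rw [Finset.sum_comm' (t' := Finset.range (n + 1)) (s' := fun l => Finset.range (l + 1))]
    intro m l
    simp only [Finset.mem_Ico, Finset.mem_range]
    omega
  have h3 : ∑ l ∈ Finset.range (n + 1), ∑ m ∈ Finset.range (l + 1), uu K m * K (l - m) =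
      ∑ l ∈ Finset.range (n + 1), uu K l - 1 := by
    rw [Finset.sum_range_succ' _ n, Finset.sum_range_succ' (fun l => uu K l) n, uu_zero]
    have h4 : ∑ m ∈ Finset.range (0 + 1), uu K m * K (0 - m) = 0 := by
      simp [hK0]
    rw [h4, add_zero, add_sub_cancel_right]
    refine Finset.sum_congr rfl fun l _ => ?_
    rw [Finset.sum_range_succ, Nat.sub_self, hK0, mul_zero, add_zero, ← uu_eq K (by omega)]
  unfold Kbar
  simp only [mul_sub, mul_one]
  rw [Finset.sum_sub_distrib, h1, h3]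
  ring

theorem bernoulli {p s : ℝ} (hp0 : 0 ≤ p) (hp1 : p ≤ 1) (hs : s ≤ 1) :
    (1 - s) ^ p ≤ 1 - p * s := by
  have := rpow_one_add_le_one_add_mul_self (s := -s) (by linarith) hp0 hp1
  calc (1 - s) ^ p = (1 + -s) ^ p := by ring_nf
    _ ≤ 1 + p * -s := this
    _ = 1 - p * s := by ring

/-- `(x+1)^(1-α) - x^(1-α) ≥ (1-α) (x+1)^(-α)` -/
theorem step_pos {α : ℝ} (h0 : 0 < α) (h1 : α < 1) (x : ℕ) :
    (1 - α) * ((x : ℝ) + 1) ^ (-α) ≤ ((x : ℝ) + 1) ^ (1 - α) - (x : ℝ) ^ (1 - α) := by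
  have hx : (0 : ℝ) < (x : ℝ) + 1 := by positivity
  have h2 : (x : ℝ) ^ (1 - α) = ((x : ℝ) + 1) ^ (1 - α) * (1 - 1 / ((x : ℝ) + 1)) ^ (1 - α) := by
    rw [← Real.mul_rpow hx.le]
    · congr 1
      field_simp
      ring
    · rw [sub_nonneg, div_le_one hx]
      have : (0 : ℝ) ≤ x := Nat.cast_nonneg x
      linarith
  have h3 := bernoulli (p := 1 - α) (s := 1 / ((x : ℝ) + 1)) (by linarith) (by linarith) (by
    rw [div_le_one hx]
    have : (0 : ℝ) ≤ x := Nat.cast_nonneg x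
    linarith)
  have h4 : ((x : ℝ) + 1) ^ (1 - α) = ((x : ℝ) + 1) * ((x : ℝ) + 1) ^ (-α) := by
    rw [show (1 : ℝ) - α = 1 + -α by ring, Real.rpow_add hx, Real.rpow_one]
  have h5 : 0 < ((x : ℝ) + 1) ^ (1 - α) := Real.rpow_pos_of_pos hx _
  have h6 := mul_le_mul_of_nonneg_left h3 h5.le
  rw [← h2] at h6
  have h7 : ((x : ℝ) + 1) ^ (1 - α) * (1 - (1 - α) * (1 / ((x : ℝ) + 1))) =
      ((x : ℝ) + 1) ^ (1 - α) - (1 - α) * ((x : ℝ) + 1) ^ (-α) := by
    rw [h4]
    field_simp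
  rw [h7] at h6
  linarith

/-- `x^(-α) - (x+1)^(-α) ≥ α (x+1)^(-(1+α))` -/
theorem step_neg {α : ℝ} (h0 : 0 < α) (h1 : α < 1) {x : ℕ} (hx1 : 1 ≤ x) :
    α * ((x : ℝ) + 1) ^ (-(1 + α)) ≤ (x : ℝ) ^ (-α) - ((x : ℝ) + 1) ^ (-α) := by
  have hx0 : (0 : ℝ) < (x : ℝ) := by exact_mod_cast hx1
  have hx : (0 : ℝ) < (x : ℝ) + 1 := by positivity
  have hq : 0 < 1 - 1 / ((x : ℝ) + 1) := by
    rw [sub_pos, div_lt_one hx]
    linarith
  have h2 : (x : ℝ) ^ (-α) = ((x : ℝ) + 1) ^ (-α) * (1 - 1 / ((x : ℝ) + 1)) ^ (-α) := by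
    rw [← Real.mul_rpow hx.le hq.le]
    congr 1
    field_simp
    ring
  have h3 := bernoulli (p := α) (s := 1 / ((x : ℝ) + 1)) h0.le h1.le (by
    rw [div_le_one hx]
    linarith)
  have h4 : 1 + α * (1 / ((x : ℝ) + 1)) ≤ (1 - 1 / ((x : ℝ) + 1)) ^ (-α) := by
    rw [Real.rpow_neg hq.le]
    have hp : 0 < (1 - 1 / ((x : ℝ) + 1)) ^ α := Real.rpow_pos_of_pos hq _
    rw [← one_div, le_div_iff₀ hp]
    have h5 : 0 ≤ α * (1 / ((x : ℝ) + 1)) := by positivity
    nlinarith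
  have h5 : 0 < ((x : ℝ) + 1) ^ (-α) := Real.rpow_pos_of_pos hx _
  have h6 := mul_le_mul_of_nonneg_left h4 h5.le
  rw [← h2] at h6
  have h7 : ((x : ℝ) + 1) ^ (-(1 + α)) = ((x : ℝ) + 1) ^ (-α) * (1 / ((x : ℝ) + 1)) := by
    rw [show -(1 + α) = -α + -1 by ring, Real.rpow_add hx, Real.rpow_neg_one, one_div]
  rw [h7]
  linarith

theorem K_upper {α : ℝ} {K : ℕ → ℝ} {cK : ℝ} 
    (hKl : Tendsto (fun n : ℕ => K n * (n : ℝ) ^ (1 + α)) atTop (𝓝 cK)) :
    ∃ C > 0, ∀ n : ℕ, 1 ≤ n → K n ≤ C * (n : ℝ) ^ (-(1 + α)) := by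
  obtain ⟨C, hC⟩ := hKl.bddAbove_range
  refine ⟨max C 1, by positivity, fun n hn => ?_⟩
  have h1 : K n * (n : ℝ) ^ (1 + α) ≤ C := hC ⟨n, rfl⟩
  have hn0 : (0 : ℝ) < n := by exact_mod_cast hn
  have h2 : 0 < (n : ℝ) ^ (1 + α) := Real.rpow_pos_of_pos hn0 _
  rw [Real.rpow_neg hn0.le, ← div_eq_mul_inv, le_div_iff₀ h2]
  exact h1.trans (le_max_left _ _)

theorem K_lower {α : ℝ} {K : ℕ → ℝ} {cK : ℝ} (hcK : 0 < cK)
    (hKl : Tendsto (fun n : ℕ => K n * (n : ℝ) ^ (1 + α)) atTop (𝓝 cK)) :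
    ∃ m₀ : ℕ, ∀ n : ℕ, m₀ ≤ n → cK / 2 * (n : ℝ) ^ (-(1 + α)) ≤ K n := by
  have h1 := hKl.eventually (lt_mem_nhds (show cK / 2 < cK by linarith))
  obtain ⟨m, hm⟩ := eventually_atTop.1 h1
  refine ⟨m + 1, fun n hn => ?_⟩
  have h2 := hm n (by omega)
  have hn0 : (0 : ℝ) < n := by exact_mod_cast (show 0 < n by omega)
  have h3 : 0 < (n : ℝ) ^ (1 + α) := Real.rpow_pos_of_pos hn0 _
  rw [Real.rpow_neg hn0.le, ← div_eq_mul_inv, div_le_iff₀ h3]
  exact h2.le

theorem Kbar_upper {α : ℝ} (h0 : 0 < α) (h1 : α < 1) {K : ℕ → ℝ}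
    (hKn : ∀ n, 0 ≤ K n) (hKs : HasSum K 1) {cK : ℝ}
    (hKl : Tendsto (fun n : ℕ => K n * (n : ℝ) ^ (1 + α)) atTop (𝓝 cK)) :
    ∃ C > 0, ∀ j : ℕ, Kbar K j ≤ C * ((j : ℝ) + 1) ^ (-α) := by
  obtain ⟨C, hC, hCK⟩ := K_upper hKl
  refine ⟨max 1 (C / α * 2 ^ α), by positivity, fun j => ?_⟩
  rcases Nat.eq_zero_or_pos j with rfl | hj
  · have h2 : Kbar K 0 ≤ 1 := by
      unfold Kbar
      have := Finset.sum_nonneg (s := Finset.range (0 + 1)) fun i _ => hKn i
      linarith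
    have h3 : ((0 : ℕ) : ℝ) + 1 = 1 := by simp
    rw [h3, Real.one_rpow, mul_one]
    exact h2.trans (le_max_left _ _)
  have hj0 : (0 : ℝ) < j := by exact_mod_cast hj
  -- partial sums
  have h2 : ∀ d : ℕ, ∑ i ∈ Finset.range (j + 1 + d), K i - ∑ i ∈ Finset.range (j + 1), K i ≤
      C / α * ((j : ℝ) ^ (-α) - ((j + d : ℕ) : ℝ) ^ (-α)) := by
    intro d
    induction d with
    | zero => simp
    | succ d ih =>
      rw [← add_assoc, Finset.sum_range_succ]
      have h3 := hCK (j + 1 + d) (by omega)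
      have h4 := step_neg h0 h1 (x := j + d) (by omega)
      have h5 : ((j + 1 + d : ℕ) : ℝ) = ((j + d : ℕ) : ℝ) + 1 := by push_cast; ring
      have h6 : ((j + (d + 1) : ℕ) : ℝ) = ((j + d : ℕ) : ℝ) + 1 := by push_cast; ring
      rw [h5] at h3
      rw [h6]
      have h7 : C * (((j + d : ℕ) : ℝ) + 1) ^ (-(1 + α)) ≤
          C / α * (((j + d : ℕ) : ℝ) ^ (-α) - (((j + d : ℕ) : ℝ) + 1) ^ (-α)) := by
        rw [div_mul_eq_mul_div, le_div_iff₀ h0]
        nlinarith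
      have h8 : C / α * ((j : ℝ) ^ (-α) - (((j + d : ℕ) : ℝ) + 1) ^ (-α)) =
          C / α * ((j : ℝ) ^ (-α) - ((j + d : ℕ) : ℝ) ^ (-α)) +
          C / α * (((j + d : ℕ) : ℝ) ^ (-α) - (((j + d : ℕ) : ℝ) + 1) ^ (-α)) := by ring
      rw [h8]
      linarith
  have h3 : Kbar K j ≤ C / α * (j : ℝ) ^ (-α) := by
    have h4 : Tendsto (fun d : ℕ => ∑ i ∈ Finset.range (j + 1 + d), K i -
        ∑ i ∈ Finset.range (j + 1), K i) atTop (𝓝 (Kbar K j)) := by
      unfold Kbar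
      refine Tendsto.sub ?_ tendsto_const_nhds
      have := hKs.tendsto_sum_nat.comp (tendsto_add_atTop_nat (j + 1))
      refine this.congr fun d => ?_
      simp only [Function.comp]
      rw [add_comm]
    refine le_of_tendsto' h4 fun d => (h2 d).trans ?_
    have h5 : 0 ≤ ((j + d : ℕ) : ℝ) ^ (-α) := Real.rpow_nonneg (Nat.cast_nonneg _) _
    have h6 : 0 < C / α := by positivity
    nlinarith
  refine h3.trans ?_
  have h4 : (j : ℝ) ^ (-α) ≤ 2 ^ α * ((j : ℝ) + 1) ^ (-α) := by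
    have h5 : ((j : ℝ) + 1) ^ α ≤ (2 * (j : ℝ)) ^ α := by
      apply Real.rpow_le_rpow (by positivity) _ h0.le
      have : (1 : ℝ) ≤ j := by exact_mod_cast hj
      linarith
    rw [Real.mul_rpow (by norm_num) hj0.le] at h5
    rw [Real.rpow_neg hj0.le, Real.rpow_neg (by positivity), ← div_eq_mul_inv,
      le_div_iff₀ (by positivity), ← div_eq_inv_mul, div_le_iff₀ (by positivity)]
    exact h5
  calc C / α * (j : ℝ) ^ (-α) ≤ C / α * (2 ^ α * ((j : ℝ) + 1) ^ (-α)) :=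
        mul_le_mul_of_nonneg_left h4 (by positivity)
    _ = (C / α * 2 ^ α) * ((j : ℝ) + 1) ^ (-α) := by ring
    _ ≤ _ := mul_le_mul_of_nonneg_right (le_max_right _ _) (by positivity)

theorem V_upper {α : ℝ} (h0 : 0 < α) (h1 : α < 1) {C : ℝ} (hC : 0 < C) {g : ℕ → ℝ}
    (hg : ∀ j : ℕ, g j ≤ C * ((j : ℝ) + 1) ^ (-α)) (N : ℕ) :
    ∑ j ∈ Finset.range N, g j ≤ C / (1 - α) * (N : ℝ) ^ (1 - α) := by
  induction N with
  | zero =>
    have : (0 : ℝ) ^ (1 - α) = 0 := Real.zero_rpow (by linarith)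
    simp [this]
  | succ N ih =>
    rw [Finset.sum_range_succ]
    have h2 := step_pos h0 h1 N
    have h3 := hg N
    have h4 : (0 : ℝ) < 1 - α := by linarith
    have h5 : C * ((N : ℝ) + 1) ^ (-α) ≤
        C / (1 - α) * (((N : ℝ) + 1) ^ (1 - α) - (N : ℝ) ^ (1 - α)) := by
      rw [div_mul_eq_mul_div, le_div_iff₀ h4]
      nlinarith
    push_cast
    have h6 : C / (1 - α) * ((N : ℝ) + 1) ^ (1 - α) = C / (1 - α) * (N : ℝ) ^ (1 - α) +
        C / (1 - α) * (((N : ℝ) + 1) ^ (1 - α) - (N : ℝ) ^ (1 - α)) := by ring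
    rw [h6]
    linarith

end Ren

open Ren in
/-- renewal function lower bound -/
theorem renewal_lower {α : ℝ} (h0 : 0 < α) (h1 : α < 1) {K : ℕ → ℝ} (hK0 : K 0 = 0)
    (hKn : ∀ n, 0 ≤ K n) (hKs : HasSum K 1) {cK : ℝ} (hcK : 0 < cK)
    (hKl : Tendsto (fun n : ℕ => K n * (n : ℝ) ^ (1 + α)) atTop (𝓝 cK)) :
    ∃ c > 0, ∀ n : ℕ, c * (n : ℝ) ^ α ≤ ∑ m ∈ Finset.range (n + 1), uu K m := by
  obtain ⟨C, hC, hCb⟩ := Kbar_upper h0 h1 hKn hKs hKl
  have h4 : (0 : ℝ) < 1 - α := by linarith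
  refine ⟨(1 - α) / C, by positivity, fun N => ?_⟩
  have hu := fun m => uu_nonneg hKn m
  have hKb : ∀ j, 0 ≤ Kbar K j := fun j => by
    unfold Kbar
    have := sum_le_hasSum (Finset.range (j + 1)) (fun i _ => hKn i) hKs
    linarith
  have hV := V_upper h0 h1 hC hCb (N + 1)
  have h2 : ((N + 1 : ℕ) : ℝ) ≤ (∑ m ∈ Finset.range (N + 1), uu K m) *
      ∑ j ∈ Finset.range (N + 1), Kbar K j := by
    calc ((N + 1 : ℕ) : ℝ) = ∑ n ∈ Finset.range (N + 1),
          ∑ m ∈ Finset.range (n + 1), uu K m * Kbar K (n - m) := by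
          rw [Finset.sum_congr rfl fun n _ => identity hK0 n]
          simp
      _ = ∑ m ∈ Finset.range (N + 1), ∑ n ∈ Finset.Ico m (N + 1), uu K m * Kbar K (n - m) := by
          refine Finset.sum_comm' fun n m => ?_
          simp only [Finset.mem_range, Finset.mem_Ico]
          omega
      _ ≤ ∑ m ∈ Finset.range (N + 1), uu K m * ∑ j ∈ Finset.range (N + 1), Kbar K j := by
          refine Finset.sum_le_sum fun m hm => ?_
          rw [← Finset.mul_sum]
          refine mul_le_mul_of_nonneg_left ?_ (hu m)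
          rw [Finset.sum_Ico_eq_sum_range]
          simp only [Nat.add_sub_cancel_left]
          exact Finset.sum_le_sum_of_subset_of_nonneg (Finset.range_mono (by omega))
            fun j _ _ => hKb j
      _ = _ := by rw [Finset.sum_mul]
  have hN : (0 : ℝ) < ((N + 1 : ℕ) : ℝ) := by positivity
  have h3 : ((N + 1 : ℕ) : ℝ) ≤ (∑ m ∈ Finset.range (N + 1), uu K m) *
      (C / (1 - α) * ((N + 1 : ℕ) : ℝ) ^ (1 - α)) :=
    h2.trans (mul_le_mul_of_nonneg_left hV (Finset.sum_nonneg fun m _ => hu m))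
  have h5 : ((N + 1 : ℕ) : ℝ) = ((N + 1 : ℕ) : ℝ) ^ α * ((N + 1 : ℕ) : ℝ) ^ (1 - α) := by
    rw [← Real.rpow_add hN]
    simp
  have h6 : 0 < ((N + 1 : ℕ) : ℝ) ^ (1 - α) := Real.rpow_pos_of_pos hN _
  have h7 : ((N + 1 : ℕ) : ℝ) ^ α ≤ (∑ m ∈ Finset.range (N + 1), uu K m) * (C / (1 - α)) := by
    rw [← mul_assoc] at h3
    exact le_of_mul_le_mul_right (h5.symm.le.trans h3) h6
  have h8 : (N : ℝ) ^ α ≤ ((N + 1 : ℕ) : ℝ) ^ α :=
    Real.rpow_le_rpow (Nat.cast_nonneg _) (by push_cast; linarith) h0.le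
  rw [div_mul_eq_mul_div, div_le_iff₀ hC]
  have h9 := mul_le_mul_of_nonneg_left (h8.trans h7) h4.le
  calc (1 - α) * (N : ℝ) ^ α ≤ (1 - α) * ((∑ m ∈ Finset.range (N + 1), uu K m) * (C / (1 - α))) := h9
    _ = (∑ m ∈ Finset.range (N + 1), uu K m) * C := by field_simp

/-- weight of a route: renewal points `x ≤ n/2`, then a jump to `y₀` in the first half of the
block `F`, then `y ≥ y₀` in the block `F`, then a jump to `z` in the block `F+l+1`. -/
noncomputable def Wt (K : ℕ → ℝ) (n F l : ℕ) : ℝ :=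
  ∑ x ∈ Finset.range (n / 2 + 1), ∑ y₀ ∈ Finset.Ioc (F * n) (F * n + n / 2),
    ∑ y ∈ Finset.Icc y₀ ((F + 1) * n), ∑ z ∈ Finset.Ioc ((F + l + 1) * n) ((F + l + 2) * n),
      uu K x * (K (y₀ - x) / 2) * uu K (y - y₀) * (K (z - y) / 2)

open Ren in
theorem Wt_lower {α : ℝ} (h0 : 0 < α) (h1 : α < 1) {K : ℕ → ℝ} (hK0 : K 0 = 0)
    (hKn : ∀ n, 0 ≤ K n) (hKs : HasSum K 1) {cK : ℝ} (hcK : 0 < cK)
    (hKl : Tendsto (fun n : ℕ => K n * (n : ℝ) ^ (1 + α)) atTop (𝓝 cK)) :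
    ∃ C : ℝ, ∃ n₁ : ℕ, ∀ n ≥ n₁, ∀ F ≥ 1, ∀ l ≥ 1,
      0 < Wt K n F l ∧
      -(1 + α) * (Real.log (F + 1) + Real.log (l + 2)) - C ≤ Real.log (Wt K n F l) := by
  obtain ⟨c, hc, hcu⟩ := renewal_lower h0 h1 hK0 hKn hKs hcK hKl
  obtain ⟨m₀, hm₀⟩ := K_lower hcK hKl
  have hu := fun m => uu_nonneg hKn m
  set D : ℝ := (c * (1 / 4 : ℝ) ^ α) ^ 2 * (1 / 4) * (cK / 4) ^ 2 with hD
  have hDpos : 0 < D := by positivity
  refine ⟨-Real.log D, 2 * m₀ + 2, fun n hn F hF l hl => ?_⟩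
  have hn0 : (0 : ℝ) < n := by exact_mod_cast (show 0 < n by omega)
  have hF0 : (0 : ℝ) < (F : ℝ) + 1 := by positivity
  have hl0 : (0 : ℝ) < (l : ℝ) + 2 := by positivity
  set A : ℝ := cK / 4 * (((F : ℝ) + 1) * n) ^ (-(1 + α)) with hA
  set B : ℝ := cK / 4 * (((l : ℝ) + 2) * n) ^ (-(1 + α)) with hB
  have hApos : 0 < A := by positivity
  have hBpos : 0 < B := by positivity
  have hFn : n ≤ F * n := Nat.le_mul_of_pos_left n hF
  have hln : n ≤ l * n := Nat.le_mul_of_pos_left n hl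
  -- the kernel
  have hKlow : ∀ (m : ℕ) (M : ℝ), m₀ ≤ m → 0 < m → (m : ℝ) ≤ M →
      cK / 4 * M ^ (-(1 + α)) ≤ K m / 2 := by
    intro m M h2 h3 h4
    have h5 := hm₀ m h2
    have hm0 : (0 : ℝ) < m := by exact_mod_cast h3
    have h6 : M ^ (-(1 + α)) ≤ (m : ℝ) ^ (-(1 + α)) :=
      Real.rpow_le_rpow_of_nonpos hm0 h4 (by linarith)
    have h7 := mul_le_mul_of_nonneg_left h6 (show 0 ≤ cK / 4 by positivity)
    linarith
  -- partial sums of the renewal function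
  set S : ℝ := ∑ m ∈ Finset.range (n / 2 + 1), uu K m with hS
  have hSlow : c * (1 / 4 : ℝ) ^ α * (n : ℝ) ^ α ≤ S := by
    refine le_trans ?_ (hcu (n / 2))
    rw [mul_assoc]
    refine mul_le_mul_of_nonneg_left ?_ hc.le
    rw [← Real.mul_rpow (by norm_num) hn0.le]
    apply Real.rpow_le_rpow (by positivity) _ h0.le
    have h2 : n ≤ 4 * (n / 2) := by omega
    have h3 : (n : ℝ) ≤ 4 * ((n / 2 : ℕ) : ℝ) := by exact_mod_cast h2
    linarith
  have hS0 : 0 ≤ S := Finset.sum_nonneg fun m _ => hu m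
  -- the sum over `z`
  have hmain : S * (((n / 2 : ℕ) : ℝ) * (A * (S * (n * B)))) ≤ Wt K n F l := by
    unfold Wt
    rw [hS, Finset.sum_mul]
    refine Finset.sum_le_sum fun x hx => ?_
    rw [Finset.mem_range] at hx
    have hcard : (((n / 2 : ℕ) : ℝ) * (A * (S * (n * B)))) =
        ∑ _y₀ ∈ Finset.Ioc (F * n) (F * n + n / 2), A * (S * (n * B)) := by
      rw [Finset.sum_const, Nat.card_Ioc, nsmul_eq_mul, Nat.add_sub_cancel_left]
    rw [← hS, hcard, Finset.mul_sum]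
    refine Finset.sum_le_sum fun y₀ hy₀ => ?_
    rw [Finset.mem_Ioc] at hy₀
    have hA' : A ≤ K (y₀ - x) / 2 := by
      refine hKlow (y₀ - x) _ (by omega) (by omega) ?_
      have h2 : y₀ - x ≤ (F + 1) * n := by
        have : (F + 1) * n = F * n + n := by ring
        omega
      exact_mod_cast h2
    have hsumy : S ≤ ∑ y ∈ Finset.Icc y₀ ((F + 1) * n), uu K (y - y₀) := by
      have h2 : Finset.Icc y₀ ((F + 1) * n) = Finset.Ico y₀ ((F + 1) * n + 1) := by
        ext y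
        simp only [Finset.mem_Icc, Finset.mem_Ico]
        omega
      rw [h2, Finset.sum_Ico_eq_sum_range]
      simp only [Nat.add_sub_cancel_left]
      refine Finset.sum_le_sum_of_subset_of_nonneg (Finset.range_mono ?_) fun j _ _ => hu j
      have : (F + 1) * n = F * n + n := by ring
      omega
    have hz : ∀ y ∈ Finset.Icc y₀ ((F + 1) * n),
        uu K x * (K (y₀ - x) / 2) * uu K (y - y₀) * (n * B) ≤
        ∑ z ∈ Finset.Ioc ((F + l + 1) * n) ((F + l + 2) * n),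
          uu K x * (K (y₀ - x) / 2) * uu K (y - y₀) * (K (z - y) / 2) := by
      intro y hy
      rw [Finset.mem_Icc] at hy
      rw [← Finset.mul_sum]
      refine mul_le_mul_of_nonneg_left ?_
        (mul_nonneg (mul_nonneg (hu _) (div_nonneg (hKn _) two_pos.le)) (hu _))
      have h2 : (n : ℝ) * B = ∑ _z ∈ Finset.Ioc ((F + l + 1) * n) ((F + l + 2) * n), B := by
        rw [Finset.sum_const, Nat.card_Ioc, nsmul_eq_mul]
        congr 2
        have : (F + l + 2) * n = (F + l + 1) * n + n := by ring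
        omega
      rw [h2]
      refine Finset.sum_le_sum fun z hz => ?_
      rw [Finset.mem_Ioc] at hz
      have e1 : (F + l + 1) * n = F * n + l * n + n := by ring
      have e2 : (F + l + 2) * n = F * n + l * n + 2 * n := by ring
      have e3 : (F + 1) * n = F * n + n := by ring
      refine hKlow (z - y) _ (by omega) (by omega) ?_
      have h3 : z - y ≤ (l + 2) * n := by
        have : (l + 2) * n = l * n + 2 * n := by ring
        omega
      exact_mod_cast h3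
    refine le_trans ?_ (Finset.sum_le_sum hz)
    rw [← Finset.sum_mul, ← Finset.mul_sum]
    have h3 : 0 ≤ (n : ℝ) * B := by positivity
    have h4 : uu K x * (A * (S * (n * B))) = uu K x * A * S * (n * B) := by ring
    rw [h4]
    refine mul_le_mul_of_nonneg_right ?_ h3
    refine mul_le_mul ?_ hsumy hS0 (mul_nonneg (hu _) (div_nonneg (hKn _) two_pos.le))
    exact mul_le_mul_of_nonneg_left hA' (hu x)
  have hE : D * (((F : ℝ) + 1) ^ (-(1 + α)) * ((l : ℝ) + 2) ^ (-(1 + α))) ≤ Wt K n F l := by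
    refine le_trans ?_ hmain
    have hn4 : (1 / 4 : ℝ) * n ≤ ((n / 2 : ℕ) : ℝ) := by
      have h2 : n ≤ 4 * (n / 2) := by omega
      have h3 : (n : ℝ) ≤ 4 * ((n / 2 : ℕ) : ℝ) := by exact_mod_cast h2
      linarith
    have h2 : (c * (1 / 4 : ℝ) ^ α * (n : ℝ) ^ α) * ((1 / 4 * n) *
        (A * ((c * (1 / 4 : ℝ) ^ α * (n : ℝ) ^ α) * (n * B)))) ≤
        S * (((n / 2 : ℕ) : ℝ) * (A * (S * (n * B)))) := by
      gcongr
    refine le_trans (le_of_eq ?_) h2
    rw [hA, hB, Real.mul_rpow hF0.le hn0.le, Real.mul_rpow hl0.le hn0.le]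
    have h3 : (n : ℝ) ^ (-(1 + α)) * ((n : ℝ) ^ α * n) = 1 := by
      have : (n : ℝ) ^ α * n = (n : ℝ) ^ (1 + α) := by
        rw [add_comm, Real.rpow_add hn0, Real.rpow_one]
      rw [this, ← Real.rpow_add hn0]
      simp
    calc D * (((F : ℝ) + 1) ^ (-(1 + α)) * ((l : ℝ) + 2) ^ (-(1 + α)))
        = D * (((F : ℝ) + 1) ^ (-(1 + α)) * ((l : ℝ) + 2) ^ (-(1 + α))) * (1 * 1) := by ring
      _ = D * (((F : ℝ) + 1) ^ (-(1 + α)) * ((l : ℝ) + 2) ^ (-(1 + α))) *
          (((n : ℝ) ^ (-(1 + α)) * ((n : ℝ) ^ α * n)) *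
            ((n : ℝ) ^ (-(1 + α)) * ((n : ℝ) ^ α * n))) := by rw [h3]
      _ = _ := by rw [hD]; ring
  have hFp : 0 < ((F : ℝ) + 1) ^ (-(1 + α)) := Real.rpow_pos_of_pos hF0 _
  have hlp : 0 < ((l : ℝ) + 2) ^ (-(1 + α)) := Real.rpow_pos_of_pos hl0 _
  have hEpos : 0 < D * (((F : ℝ) + 1) ^ (-(1 + α)) * ((l : ℝ) + 2) ^ (-(1 + α))) := by positivity
  refine ⟨hEpos.trans_le hE, ?_⟩
  have h5 := Real.log_le_log hEpos hE
  rw [Real.log_mul hDpos.ne' (mul_pos hFp hlp).ne', Real.log_mul hFp.ne' hlp.ne',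
    Real.log_rpow hF0, Real.log_rpow hl0] at h5
  linarith

end Pool.Agent.R239.Cop
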