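import Pool.Agent.R239.Cop.Defs

open MeasureTheory ProbabilityTheory Filter Topology

namespace Pool.Agent.R239.Cop

/-- blocks known after the stretch of length `t` behind the free block `F` -/
def expl (F t : ℕ) : Set ℕ := {b | 1 ≤ b ∧ b ≤ F + t ∧ b ≠ F}

namespace Sel

/-- the value after one more step -/
noncomputable def nxt (ν : Measure ℝ) (a : ℝ) (sv fv : ℕ → ℝ) (r u : ℕ) (v : ℝ) : ℝ :=
  if a ≤ v then sv (r - u) else if v < 0 then fv (r - u) else run ν a sv fv r u v

theorem nxt_props {ν : Measure ℝ} {a : ℝ} {sv fv : ℕ → ℝ} {r u : ℕ}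
    (h : Measurable (run ν a sv fv r u) ∧ ∃ C, ∀ v, |run ν a sv fv r u v| ≤ C) :
    Measurable (nxt ν a sv fv r u) ∧ ∃ C, ∀ v, |nxt ν a sv fv r u v| ≤ C := by
  obtain ⟨hm, C, hC⟩ := h
  refine ⟨?_, max (max |sv (r - u)| |fv (r - u)|) C, fun v => ?_⟩
  · exact Measurable.ite measurableSet_Ici measurable_const
      (Measurable.ite measurableSet_Iio measurable_const hm)
  · unfold nxt
    split_ifs
    · exact (le_max_left _ _).trans (le_max_left _ _)
    · exact (le_max_right _ _).trans (le_max_left _ _)
    · exact (hC v).trans (le_max_right _ _)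

theorem run_props (ν : Measure ℝ) [IsProbabilityMeasure ν] (a : ℝ) (sv fv : ℕ → ℝ) (r : ℕ) :
    ∀ u : ℕ, Measurable (run ν a sv fv r u) ∧ ∃ C, ∀ v, |run ν a sv fv r u v| ≤ C := by
  intro u
  induction u with
  | zero => exact ⟨measurable_const, |fv r|, fun v => le_rfl⟩
  | succ u ih =>
    obtain ⟨hm, C, hC⟩ := nxt_props ih
    have e : run ν a sv fv r (u + 1) = fun v => ∫ x, nxt ν a sv fv r u (v + x) ∂ν := rfl
    rw [e]
    constructor
    · have h1 : StronglyMeasurable (fun p : ℝ × ℝ => nxt ν a sv fv r u (p.1 + p.2)) :=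
        (hm.comp (measurable_fst.add measurable_snd)).stronglyMeasurable
      exact (MeasureTheory.StronglyMeasurable.integral_prod_right' (ν := ν) h1).measurable
    · refine ⟨C, fun v => ?_⟩
      have := norm_integral_le_of_norm_le_const (μ := ν) (f := fun x => nxt ν a sv fv r u (v + x))
        (C := C) (Eventually.of_forall fun x => by rw [Real.norm_eq_abs]; exact hC _)
      simpa using this

/-- Fubini for a variable independent of the past -/
theorem fub {Ω : Type*} {G mΩ : MeasurableSpace Ω} {Q : Measure Ω} [IsProbabilityMeasure Q]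
    (hG : G ≤ mΩ) {H S X : Ω → ℝ} (hH : Measurable[G] H)
    (hS : Measurable[G] S) (hX : Measurable X)
    (hind : Indep G (MeasurableSpace.comap X inferInstance) Q) {CH : ℝ} (hHb : ∀ x, |H x| ≤ CH)
    {g : ℝ → ℝ} (hg : Measurable g) {C : ℝ} (hC : ∀ v, |g v| ≤ C) :
    ∫ x, H x * g (S x + X x) ∂Q = ∫ x, H x * (∫ z, g (S x + z) ∂(Q.map X)) ∂Q := by
  have hHm : Measurable H := hH.mono hG le_rfl
  have hSm : Measurable S := hS.mono hG le_rfl
  have hW : Measurable[G] (fun x => (H x, S x)) := hH.prodMk hS
  have hWm : Measurable (fun x => (H x, S x)) := hHm.prodMk hSm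
  have hi : IndepFun (fun x => (H x, S x)) X Q := by
    rw [IndepFun_iff_Indep]
    exact indep_of_indep_of_le_left hind hW.comap_le
  have hmap := (indepFun_iff_map_prod_eq_prod_map_map hWm.aemeasurable hX.aemeasurable).1 hi
  have : IsProbabilityMeasure (Q.map X) := Measure.isProbabilityMeasure_map hX.aemeasurable
  have : IsProbabilityMeasure (Q.map (fun x => (H x, S x))) :=
    Measure.isProbabilityMeasure_map hWm.aemeasurable
  have hF : Measurable (fun p : (ℝ × ℝ) × ℝ => p.1.1 * g (p.1.2 + p.2)) :=
    (measurable_fst.comp measurable_fst).mul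
      (hg.comp ((measurable_snd.comp measurable_fst).add measurable_snd))
  have hint : Integrable (fun p : (ℝ × ℝ) × ℝ => p.1.1 * g (p.1.2 + p.2))
      ((Q.map (fun x => (H x, S x))).prod (Q.map X)) := by
    rw [← hmap]
    rw [integrable_map_measure hF.aestronglyMeasurable (hWm.prodMk hX).aemeasurable]
    refine Integrable.of_bound (C := CH * C)
      ((hHm.mul (hg.comp (hSm.add hX))).aestronglyMeasurable) (Eventually.of_forall fun x => ?_)
    simp only [Function.comp, Real.norm_eq_abs, abs_mul]
    exact mul_le_mul (hHb x) (hC _) (abs_nonneg _) ((abs_nonneg _).trans (hHb x))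
  calc ∫ x, H x * g (S x + X x) ∂Q
      = ∫ p, p.1.1 * g (p.1.2 + p.2) ∂(Q.map (fun x => ((H x, S x), X x))) := by
        rw [integral_map (hWm.prodMk hX).aemeasurable hF.aestronglyMeasurable]
    _ = ∫ w, ∫ z, w.1 * g (w.2 + z) ∂(Q.map X) ∂(Q.map (fun x => (H x, S x))) := by
        rw [hmap, integral_prod _ hint]
    _ = ∫ w, w.1 * ∫ z, g (w.2 + z) ∂(Q.map X) ∂(Q.map (fun x => (H x, S x))) := by
        simp_rw [integral_const_mul]
    _ = _ := by
        rw [integral_map hWm.aemeasurable]
        have h1 : StronglyMeasurable (fun p : ℝ × ℝ => g (p.1 + p.2)) :=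
          (hg.comp (measurable_fst.add measurable_snd)).stronglyMeasurable
        have h2 := (MeasureTheory.StronglyMeasurable.integral_prod_right'
          (ν := Q.map X) h1).measurable
        exact (measurable_fst.mul (h2.comp measurable_snd)).aestronglyMeasurable

section
set_option linter.unusedSectionVars false
variable {Ω : Type*} {mΩ : MeasurableSpace Ω} {Q : Measure Ω} [IsProbabilityMeasure Q]
  {m : ℕ → MeasurableSpace Ω}

theorem le_G (hm : ∀ b, m b ≤ mΩ) (S : Set ℕ) : (⨆ b ∈ S, m b) ≤ mΩ := iSup₂_le fun b _ => hm b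

theorem X_meas_G {X : ℕ → Ω → ℝ} (hX : ∀ b, Measurable[m b] (X b)) {S : Set ℕ} {b : ℕ}
    (hb : b ∈ S) : Measurable[⨆ b ∈ S, m b] (X b) :=
  (hX b).mono (le_iSup₂_of_le b hb le_rfl) le_rfl

theorem G_mono {S T : Set ℕ} (h : S ⊆ T) : (⨆ b ∈ S, m b) ≤ ⨆ b ∈ T, m b :=
  biSup_mono h

theorem indep_X (hm : ∀ b, m b ≤ mΩ) (hind : iIndep m Q) {X : ℕ → Ω → ℝ}
    (hX : ∀ b, Measurable[m b] (X b)) {S : Set ℕ} {b : ℕ} (hb : b ∉ S) :
    Indep (⨆ b ∈ S, m b) (MeasurableSpace.comap (X b) inferInstance) Q := by
  have h1 := indep_iSup_of_disjoint hm hind (S := S) (T := {b}) (by simpa using hb)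
  refine indep_of_indep_of_le_right h1 ?_
  refine (hX b).comap_le.trans ?_
  exact le_iSup₂_of_le b rfl le_rfl

/-- the expectation of a product with a variable independent of the past -/
theorem int_mul {G : MeasurableSpace Ω} (hG : G ≤ mΩ) {H Y : Ω → ℝ} (hH : Measurable[G] H)
    (hY : Integrable Y Q) (hind : Indep G (MeasurableSpace.comap Y inferInstance) Q) :
    ∫ x, H x * Y x ∂Q = (∫ x, H x ∂Q) * ∫ x, Y x ∂Q := by
  have hi : IndepFun H Y Q := by
    rw [IndepFun_iff_Indep]
    exact indep_of_indep_of_le_left hind hH.comap_le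
  exact hi.integral_fun_mul_eq_mul_integral (hH.mono hG le_rfl).aestronglyMeasurable
    hY.aestronglyMeasurable

theorem int_bdd {G : MeasurableSpace Ω} (hG : G ≤ mΩ) {H Y : Ω → ℝ} (hH : Measurable[G] H)
    {C : ℝ} (hHb : ∀ x, 0 ≤ H x ∧ H x ≤ C) (hY : Integrable Y Q) :
    Integrable (fun x => H x * Y x) Q := by
  refine hY.bdd_mul (c := C) (hH.mono hG le_rfl).aestronglyMeasurable
    (Eventually.of_forall fun x => ?_)
  rw [Real.norm_eq_abs, abs_of_nonneg (hHb x).1]
  exact (hHb x).2

end

end Sel

open Sel

theorem select {Ω : Type*} {mΩ : MeasurableSpace Ω} {Q : Measure Ω} [IsProbabilityMeasure Q]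
    (m : ℕ → MeasurableSpace Ω) (hm : ∀ b, m b ≤ mΩ) (hind : iIndep m Q)
    (X : ℕ → Ω → ℝ) (hX : ∀ b, Measurable[m b] (X b)) (hXi : ∀ b, Integrable (X b) Q)
    (ν : Measure ℝ) (hν : ∀ b ≥ 1, Q.map (X b) = ν)
    (a : ℕ → ℝ) (r : ℕ → ℕ) (s₀ : ℝ) (ha : ∀ i, s₀ < a i) (hs₀ : 0 ≤ s₀) {R I B : ℕ}
    (hr : ∀ i, 1 ≤ r i ∧ r i ≤ R) (hB : I * (R + 1) + 2 ≤ B)
    (Z : Ω → ℝ) (hZ : Integrable Z Q)
    (Y : ℕ → ℕ → Ω → ℝ) (y : ℕ → ℕ → ℝ)
    (hYi : ∀ F t, 1 ≤ F → 1 ≤ t → F + t ≤ B → Integrable (Y F t) Q)
    (hYm : ∀ F t, 1 ≤ F → 1 ≤ t → F + t ≤ B →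
      Indep (MeasurableSpace.comap (Y F t) inferInstance) (⨆ b ∈ expl F t, m b) Q)
    (hYE : ∀ F t, 1 ≤ F → 1 ≤ t → F + t ≤ B → y F t ≤ ∫ x, Y F t x ∂Q)
    (hYZ : ∀ F t, 1 ≤ F → 1 ≤ t → F + t ≤ B → ∀ x,
      ∑ b ∈ Finset.Ioc F (F + t), X b x + Y F t x ≤ Z x) :
    vst ν a r s₀ y (fun F => y F 1 + ∫ x, x ∂ν) I I 1 ≤ ∫ x, Z x ∂Q := by
  classical
  have hXm : ∀ b, Measurable (X b) := fun b => (hX b).mono (hm b) le_rfl
  have : IsProbabilityMeasure ν := by
    rw [← hν 1 le_rfl]
    exact Measure.isProbabilityMeasure_map (hXm 1).aemeasurable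
  have hXE : ∀ b ≥ 1, ∫ x, X b x ∂Q = ∫ x, x ∂ν := by
    intro b hb
    rw [← hν b hb]
    exact (integral_map (hXm b).aemeasurable aestronglyMeasurable_id).symm
  -- the main claim
  have claim : ∀ k, k ≤ I → ∀ F, 1 ≤ F → F ≤ 1 + (I - k) * (R + 1) → ∀ (H : Ω → ℝ) (C : ℝ),
      Measurable[⨆ b ∈ expl F 0, m b] H → (∀ x, 0 ≤ H x ∧ H x ≤ C) →
      (∫ x, H x ∂Q) * vst ν a r s₀ y (fun F => y F 1 + ∫ x, x ∂ν) I k F ≤ ∫ x, H x * Z x ∂Q := by
    intro k
    induction k with
    | zero =>
      intro _ F hF1 hF2 H C hH hHb
      have hFB : F + 1 ≤ B := by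
        simp only [Nat.sub_zero] at hF2
        omega
      have h1 : ∀ x, X (F + 1) x + Y F 1 x ≤ Z x := by
        intro x
        have := hYZ F 1 hF1 le_rfl hFB x
        simpa using this
      have hG := le_G hm (expl F 0)
      have hsub : expl F 0 ⊆ expl F 1 := fun b hb => ⟨hb.1, by have := hb.2.1; omega, hb.2.2⟩
      have e1 : ∫ x, H x * X (F + 1) x ∂Q = (∫ x, H x ∂Q) * ∫ x, x ∂ν := by
        rw [int_mul hG hH (hXi _) (indep_X hm hind hX (fun h => by have := h.2.1; omega)),
          hXE _ (by omega)]
      have e2 : ∫ x, H x * Y F 1 x ∂Q = (∫ x, H x ∂Q) * ∫ x, Y F 1 x ∂Q :=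
        int_mul hG hH (hYi F 1 hF1 le_rfl hFB)
          (indep_of_indep_of_le_left (hYm F 1 hF1 le_rfl hFB).symm (G_mono hsub))
      have hH0 : 0 ≤ ∫ x, H x ∂Q := integral_nonneg fun x => (hHb x).1
      have i1 := int_bdd hG hH hHb (hXi (F + 1))
      have i2 := int_bdd hG hH hHb (hYi F 1 hF1 le_rfl hFB)
      calc (∫ x, H x ∂Q) * (y F 1 + ∫ x, x ∂ν)
          ≤ (∫ x, H x ∂Q) * (∫ x, Y F 1 x ∂Q + ∫ x, x ∂ν) :=
            mul_le_mul_of_nonneg_left (by linarith [hYE F 1 hF1 le_rfl hFB]) hH0
        _ = ∫ x, (H x * X (F + 1) x + H x * Y F 1 x) ∂Q := by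
            rw [integral_add i1 i2, e1, e2]; ring
        _ ≤ ∫ x, H x * Z x ∂Q := by
            refine integral_mono (i1.add i2) (int_bdd hG hH hHb hZ) fun x => ?_
            have := mul_le_mul_of_nonneg_left (h1 x) (hHb x).1
            simp only [Pi.add_apply] at *
            linarith
    | succ k ih =>
      intro hk F hF1 hF2 H C hH hHb
      set i := I - (k + 1) with hi
      have hIk : I - k = i + 1 := by omega
      have hiI : (i + 1) * (R + 1) ≤ I * (R + 1) := Nat.mul_le_mul_right _ (by omega)
      have hexp : (i + 1) * (R + 1) = i * (R + 1) + R + 1 := by ring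
      obtain ⟨hr1, hr2⟩ := hr i
      set sv : ℕ → ℝ := fun t => a i - s₀ + y F t with hsv
      set fv : ℕ → ℝ := fun t => vst ν a r s₀ y (fun F => y F 1 + ∫ x, x ∂ν) I k (F + t + 1)
        with hfv
      -- claim for the run
      have runclaim : ∀ u, u ≤ r i → ∀ (H : Ω → ℝ) (C : ℝ),
          Measurable[⨆ b ∈ expl F (r i - u), m b] H → (∀ x, 0 ≤ H x ∧ H x ≤ C) →
          ∫ x, H x * run ν (a i) sv fv (r i) u
            (s₀ + ∑ b ∈ Finset.Ioc F (F + (r i - u)), X b x) ∂Q ≤ ∫ x, H x * Z x ∂Q := by
        intro u
        induction u with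
        | zero =>
          intro _ H C hH hHb
          have e : ∀ v, run ν (a i) sv fv (r i) 0 v = fv (r i) := fun v => rfl
          simp only [e]
          rw [integral_mul_const]
          refine ih (by omega) (F + r i + 1) (by omega) (by rw [hIk, hexp]; omega) H C ?_ hHb
          refine hH.mono (G_mono ?_) le_rfl
          intro b hb
          obtain ⟨h1, h2, h3⟩ := hb
          exact ⟨h1, by omega, by omega⟩
        | succ u ihu =>
          intro hu H C hH hHb
          set t := r i - (u + 1) with ht
          have ht1 : r i - u = t + 1 := by omega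
          have hFt : F + (t + 1) ≤ B := by
            have : t + 1 ≤ R := by omega
            omega
          set S : Ω → ℝ := fun x => s₀ + ∑ b ∈ Finset.Ioc F (F + t), X b x with hS
          set S' : Ω → ℝ := fun x => s₀ + ∑ b ∈ Finset.Ioc F (F + (t + 1)), X b x with hS'
          have hSS : ∀ x, S' x = S x + X (F + t + 1) x := by
            intro x
            simp only [hS, hS']
            rw [← add_assoc F t 1, Finset.sum_Ioc_succ_top (by omega)]
            ring
          have hG := le_G hm (expl F t)
          have hG' := le_G hm (expl F (t + 1))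
          have hsub : expl F t ⊆ expl F (t + 1) := fun b hb =>
            ⟨hb.1, by have := hb.2.1; omega, hb.2.2⟩
          have hSm : Measurable[⨆ b ∈ expl F t, m b] S := by
            refine Measurable.add (@measurable_const _ _ _ (_) _) ?_
            refine Finset.measurable_fun_sum _ fun b hb => ?_
            rw [Finset.mem_Ioc] at hb
            exact X_meas_G hX ⟨by omega, by omega, by omega⟩
          have hSm' : Measurable[⨆ b ∈ expl F (t + 1), m b] S' := by
            refine Measurable.add (@measurable_const _ _ _ (_) _) ?_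
            refine Finset.measurable_fun_sum _ fun b hb => ?_
            rw [Finset.mem_Ioc] at hb
            exact X_meas_G hX ⟨by omega, by omega, by omega⟩
          have hH' : Measurable[⨆ b ∈ expl F (t + 1), m b] H := hH.mono (G_mono hsub) le_rfl
          obtain ⟨gm, Cg, gC⟩ := nxt_props (run_props ν (a i) sv fv (r i) u)
          -- rewrite the left side
          have hL : ∫ x, H x * run ν (a i) sv fv (r i) (u + 1) (S x) ∂Q =
              ∫ x, H x * nxt ν (a i) sv fv (r i) u (S' x) ∂Q := by
            have := fub (Q := Q) hG hH hSm (hXm (F + t + 1))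
              (indep_X hm hind hX (fun h => by have := h.2.1; omega))
              (CH := C) (fun x => by rw [abs_of_nonneg (hHb x).1]; exact (hHb x).2) gm gC
            simp only [hSS]
            rw [this, hν (F + t + 1) (by omega)]
            rfl
          rw [hL]
          -- the three parts
          set A1 : Set Ω := {x | a i ≤ S' x} with hA1
          set A2 : Set Ω := {x | S' x < 0} \ A1 with hA2
          have mA1 : MeasurableSet[⨆ b ∈ expl F (t + 1), m b] A1 := hSm' measurableSet_Ici
          have mA2 : MeasurableSet[⨆ b ∈ expl F (t + 1), m b] A2 :=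
            MeasurableSet.diff (hSm' measurableSet_Iio) mA1
          set A3 : Set Ω := (A1 ∪ A2)ᶜ with hA3
          have mA3 : MeasurableSet[⨆ b ∈ expl F (t + 1), m b] A3 :=
            (MeasurableSet.union mA1 mA2).compl
          have hpart : ∀ (A : Set Ω), MeasurableSet[⨆ b ∈ expl F (t + 1), m b] A →
              Measurable[⨆ b ∈ expl F (t + 1), m b] (A.indicator H) ∧
              (∀ x, 0 ≤ A.indicator H x ∧ A.indicator H x ≤ C) := by
            intro A hA
            refine ⟨hH'.indicator hA, fun x => ?_⟩
            by_cases hx : x ∈ A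
            · rw [Set.indicator_of_mem hx]; exact hHb x
            · rw [Set.indicator_of_notMem hx]; exact ⟨le_rfl, (hHb x).1.trans (hHb x).2⟩
          obtain ⟨p1, q1⟩ := hpart A1 mA1
          obtain ⟨p2, q2⟩ := hpart A2 mA2
          obtain ⟨p3, q3⟩ := hpart A3 mA3
          have hdec : ∀ x, A1.indicator H x + A2.indicator H x + A3.indicator H x = H x := by
            intro x
            by_cases h1 : x ∈ A1
            · have h2 : x ∉ A2 := fun h => h.2 h1
              have h3 : x ∉ A3 := fun h => h (Or.inl h1)
              simp [h1, h2, h3]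
            · by_cases h2 : x ∈ A2
              · have h3 : x ∉ A3 := fun h => h (Or.inr h2)
                simp [h1, h2, h3]
              · have h3 : x ∈ A3 := fun h => h.elim h1 h2
                simp [h1, h2, h3]
          -- part 1
          have c1 : (∫ x, A1.indicator H x ∂Q) * sv (r i - u) ≤
              ∫ x, A1.indicator H x * Z x ∂Q := by
            have hH0 : 0 ≤ ∫ x, A1.indicator H x ∂Q := integral_nonneg fun x => (q1 x).1
            have hYii := hYi F (t + 1) hF1 (by omega) hFt
            have e2 : ∫ x, A1.indicator H x * Y F (t + 1) x ∂Q =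
                (∫ x, A1.indicator H x ∂Q) * ∫ x, Y F (t + 1) x ∂Q :=
              int_mul hG' p1 hYii (hYm F (t + 1) hF1 (by omega) hFt).symm
            have i2 := int_bdd hG' p1 q1 hYii
            have i1 : Integrable (fun x => A1.indicator H x * (a i - s₀)) Q :=
              int_bdd hG' p1 q1 (integrable_const _)
            have hyE := hYE F (t + 1) hF1 (by omega) hFt
            rw [ht1]
            calc (∫ x, A1.indicator H x ∂Q) * (a i - s₀ + y F (t + 1))
                ≤ (∫ x, A1.indicator H x ∂Q) * (a i - s₀ + ∫ x, Y F (t + 1) x ∂Q) :=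
                  mul_le_mul_of_nonneg_left (by linarith) hH0
              _ = ∫ x, (A1.indicator H x * (a i - s₀) + A1.indicator H x * Y F (t + 1) x) ∂Q := by
                  rw [integral_add i1 i2, e2, integral_mul_const]; ring
              _ ≤ ∫ x, A1.indicator H x * Z x ∂Q := by
                  refine integral_mono (i1.add i2) (int_bdd hG' p1 q1 hZ) fun x => ?_
                  simp only [Pi.add_apply]
                  by_cases hx : x ∈ A1
                  · have hx' : a i ≤ S' x := hx
                    have hz := hYZ F (t + 1) hF1 (by omega) hFt x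
                    have : a i - s₀ + Y F (t + 1) x ≤ Z x := by
                      simp only [hS'] at hx'
                      linarith
                    have := mul_le_mul_of_nonneg_left this (q1 x).1
                    linarith
                  · simp [Set.indicator_of_notMem hx]
          -- part 2
          have c2 : (∫ x, A2.indicator H x ∂Q) * fv (r i - u) ≤
              ∫ x, A2.indicator H x * Z x ∂Q := by
            refine ih (by omega) (F + (r i - u) + 1) (by omega) (by rw [hIk, hexp]; omega)
              (A2.indicator H) C ?_ q2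
            refine p2.mono (G_mono ?_) le_rfl
            intro b hb
            obtain ⟨h1, h2, h3⟩ := hb
            exact ⟨h1, by omega, by omega⟩
          -- part 3
          have c3 : ∫ x, A3.indicator H x * run ν (a i) sv fv (r i) u (S' x) ∂Q ≤
              ∫ x, A3.indicator H x * Z x ∂Q := by
            have := ihu (by omega) (A3.indicator H) C (by rw [ht1]; exact p3) q3
            rw [ht1] at this
            exact this
          -- sum up
          obtain ⟨rm, Cr, rC⟩ := run_props ν (a i) sv fv (r i) u
          have hSmm : Measurable S' := hSm'.mono hG' le_rfl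
          have j3 : Integrable (fun x => A3.indicator H x * run ν (a i) sv fv (r i) u (S' x)) Q :=
            int_bdd hG' p3 q3 (Integrable.of_bound (C := Cr)
              (rm.comp hSmm).aestronglyMeasurable
              (Eventually.of_forall fun x => by rw [Real.norm_eq_abs]; exact rC _))
          have j1 : Integrable (fun x => A1.indicator H x * sv (r i - u)) Q :=
            int_bdd hG' p1 q1 (integrable_const _)
          have j2 : Integrable (fun x => A2.indicator H x * fv (r i - u)) Q :=
            int_bdd hG' p2 q2 (integrable_const _)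
          calc ∫ x, H x * nxt ν (a i) sv fv (r i) u (S' x) ∂Q
              = ∫ x, ((A1.indicator H x * sv (r i - u) + A2.indicator H x * fv (r i - u)) +
                  A3.indicator H x * run ν (a i) sv fv (r i) u (S' x)) ∂Q := by
                refine integral_congr_ae (Eventually.of_forall fun x => ?_)
                simp only []
                unfold nxt
                by_cases h1 : x ∈ A1
                · have h2 : x ∉ A2 := fun h => h.2 h1
                  have h3 : x ∉ A3 := fun h => h (Or.inl h1)
                  have h1' : a i ≤ S' x := h1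
                  simp [h1, h2, h3, h1']
                · have h1' : ¬ a i ≤ S' x := h1
                  by_cases h2 : x ∈ A2
                  · have h3 : x ∉ A3 := fun h => h (Or.inr h2)
                    have h2' : S' x < 0 := h2.1
                    simp [h1, h2, h3, h1', h2']
                  · have h3 : x ∈ A3 := fun h => h.elim h1 h2
                    have h2' : ¬ S' x < 0 := fun h => h2 ⟨h, h1⟩
                    simp [h1, h2, h3, h1', h2']
            _ = (∫ x, A1.indicator H x ∂Q) * sv (r i - u) +
                (∫ x, A2.indicator H x ∂Q) * fv (r i - u) +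
                ∫ x, A3.indicator H x * run ν (a i) sv fv (r i) u (S' x) ∂Q := by
                have j12 : Integrable (fun x => A1.indicator H x * sv (r i - u) +
                    A2.indicator H x * fv (r i - u)) Q := j1.add j2
                rw [integral_add j12 j3, integral_add j1 j2, integral_mul_const,
                  integral_mul_const]
            _ ≤ ∫ x, A1.indicator H x * Z x ∂Q + ∫ x, A2.indicator H x * Z x ∂Q +
                ∫ x, A3.indicator H x * Z x ∂Q := add_le_add (add_le_add c1 c2) c3
            _ = ∫ x, H x * Z x ∂Q := by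
                have k1 := int_bdd hG' p1 q1 hZ
                have k2 := int_bdd hG' p2 q2 hZ
                have k3 := int_bdd hG' p3 q3 hZ
                have k12 : Integrable (fun x => A1.indicator H x * Z x +
                    A2.indicator H x * Z x) Q := k1.add k2
                rw [← integral_add k1 k2, ← integral_add k12 k3]
                refine integral_congr_ae (Eventually.of_forall fun x => ?_)
                simp only []
                rw [← hdec x]
                ring
      have h0 := runclaim (r i) le_rfl H C (by rw [Nat.sub_self]; exact hH) hHb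
      have e0 : ∀ x, s₀ + ∑ b ∈ Finset.Ioc F (F + (r i - r i)), X b x = s₀ := by
        intro x; simp
      simp only [e0] at h0
      rw [integral_mul_const] at h0
      exact h0
  have h1 := claim I le_rfl 1 le_rfl (by simp) (fun _ => 1) 1 measurable_const
    (fun _ => ⟨zero_le_one, le_rfl⟩)
  simpa using h1

end Pool.Agent.R239.Cop
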