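import Pool.Agent.R239.Cop.Defs

open MeasureTheory ProbabilityTheory Filter Topology

namespace Pool.Agent.R239.Cop.Val

open Pool.Agent.R239.Cop

theorem run_meas_bdd (ν : Measure ℝ) [IsProbabilityMeasure ν] (a : ℝ) (sv fv : ℕ → ℝ) (r : ℕ)
    {M : ℝ} (hs : ∀ t ≤ r, |sv t| ≤ M) (hf : ∀ t ≤ r, |fv t| ≤ M) (u : ℕ) (hu : u ≤ r) :
    Measurable (run ν a sv fv r u) ∧ ∀ v, |run ν a sv fv r u v| ≤ M := by
  induction u with
  | zero =>
    constructor
    · exact measurable_const
    · intro v; exact hf r le_rfl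
  | succ u ih =>
    obtain ⟨ih1, ih2⟩ := ih (by omega)
    have hG : Measurable (fun p : ℝ × ℝ => if a ≤ p.1 + p.2 then sv (r - u)
        else if p.1 + p.2 < 0 then fv (r - u) else run ν a sv fv r u (p.1 + p.2)) := by
      refine Measurable.ite ?_ measurable_const (Measurable.ite ?_ measurable_const ?_)
      · exact measurableSet_le measurable_const (measurable_fst.add measurable_snd)
      · exact measurableSet_lt (measurable_fst.add measurable_snd) measurable_const
      · exact ih1.comp (measurable_fst.add measurable_snd)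
    have hb : ∀ v x : ℝ, |(if a ≤ v + x then sv (r - u)
        else if v + x < 0 then fv (r - u) else run ν a sv fv r u (v + x))| ≤ M := by
      intro v x
      split_ifs
      · exact hs _ (by omega)
      · exact hf _ (by omega)
      · exact ih2 _
    constructor
    · exact (hG.stronglyMeasurable.integral_prod_right').measurable
    · intro v
      show |∫ x, (if a ≤ v + x then sv (r - u)
        else if v + x < 0 then fv (r - u) else run ν a sv fv r u (v + x)) ∂ν| ≤ M
      have := norm_integral_le_of_norm_le_const (μ := ν)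
        (f := fun x => (if a ≤ v + x then sv (r - u)
        else if v + x < 0 then fv (r - u) else run ν a sv fv r u (v + x))) (C := M)
        (Eventually.of_forall fun x => hb v x)
      simpa using this

theorem integrable_piece (ν : Measure ℝ) [IsProbabilityMeasure ν] (a : ℝ) (sv fv : ℕ → ℝ) (r u : ℕ)
    (hu : u < r) (v : ℝ) : Integrable (fun x => (if a ≤ v + x then sv (r - u)
        else if v + x < 0 then fv (r - u) else run ν a sv fv r u (v + x))) ν := by
  obtain ⟨M, hM⟩ : ∃ M : ℝ, ∀ t ≤ r, |sv t| ≤ M ∧ |fv t| ≤ M := by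
    refine ⟨∑ t ∈ Finset.range (r + 1), (|sv t| + |fv t|), fun t ht => ?_⟩
    have h1 : |sv t| + |fv t| ≤ ∑ t ∈ Finset.range (r + 1), (|sv t| + |fv t|) :=
      Finset.single_le_sum (f := fun t => |sv t| + |fv t|)
      (fun i _ => by positivity) (Finset.mem_range.2 (Nat.lt_succ_of_le ht))
    have h2 := abs_nonneg (sv t)
    have h3 := abs_nonneg (fv t)
    constructor <;> linarith
  obtain ⟨h1, h2⟩ := run_meas_bdd ν a sv fv r (fun t ht => (hM t ht).1) (fun t ht => (hM t ht).2) u hu.le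
  refine Integrable.of_bound (C := M) ?_ (Eventually.of_forall fun x => ?_)
  · refine Measurable.aestronglyMeasurable ?_
    refine Measurable.ite ?_ measurable_const (Measurable.ite ?_ measurable_const ?_)
    · exact measurableSet_le measurable_const (measurable_const.add measurable_id)
    · exact measurableSet_lt (measurable_const.add measurable_id) measurable_const
    · exact h1.comp (measurable_const.add measurable_id)
  · rw [Real.norm_eq_abs]
    split_ifs
    · exact (hM _ (by omega)).1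
    · exact (hM _ (by omega)).2
    · exact h2 _

theorem run_ge (ν : Measure ℝ) [IsProbabilityMeasure ν] (a : ℝ) (sv fv : ℕ → ℝ) (r : ℕ)
    (V : ℕ → ℝ → ℝ)
    (hint : ∀ u < r, ∀ v, 0 ≤ v → v < a → Integrable (fun x => V u (v + x)) ν)
    (h0 : ∀ v, 0 ≤ v → v < a → V 0 v ≤ fv r)
    (hs : ∀ u < r, ∀ v, a ≤ v → V u v ≤ sv (r - u))
    (hf : ∀ u < r, ∀ v, v < 0 → V u v ≤ fv (r - u))
    (hstep : ∀ u < r, ∀ v, 0 ≤ v → v < a → V (u + 1) v ≤ ∫ x, V u (v + x) ∂ν)
    (u : ℕ) (hu : u ≤ r) (v : ℝ) (hv0 : 0 ≤ v) (hva : v < a) : V u v ≤ run ν a sv fv r u v := by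
  induction u generalizing v with
  | zero => exact h0 v hv0 hva
  | succ u ih =>
    refine (hstep u (by omega) v hv0 hva).trans ?_
    refine integral_mono (hint u (by omega) v hv0 hva) (integrable_piece ν a sv fv r u (by omega) v)
      fun x => ?_
    simp only
    split_ifs with h1 h2
    · exact hs u (by omega) _ h1
    · exact hf u (by omega) _ h2
    · exact ih (by omega) _ (not_lt.1 h2) (not_le.1 h1)

/-- the needed properties of the law of the block energies -/
structure Good (ν : Measure ℝ) (θ' θ : ℝ) : Prop where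
  prob : IsProbabilityMeasure ν
  int : ∀ t : ℝ, Integrable (fun x => Real.exp (t * x)) ν
  g1 : ∫ x, Real.exp ((1 / 4) * x) ∂ν ≤ Real.exp (-(1 / 16))
  g2 : 1 ≤ ∫ x, Real.exp (θ * x) ∂ν
  g3 : 2 ≤ ∫ x, Real.exp (2 * θ * x) ∂ν
  g3' : ∫ x, Real.exp (2 * θ * x) ∂ν ≤ Real.exp 130
  g4 : ∫ x, Real.exp (4 * θ * x) ∂ν ≤ Real.exp 130
  g5 : ∫ x, Real.exp (θ' * x) ∂ν ≤ 1
  g6 : -5 ≤ ∫ x, x ∂ν

theorem integral_exp_shift (ν : Measure ℝ) (t v c : ℝ) :
    ∫ x, Real.exp (t * (v + x) + c) ∂ν = Real.exp (t * v + c) * ∫ x, Real.exp (t * x) ∂ν := by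
  rw [← integral_const_mul]
  congr 1
  ext x
  rw [← Real.exp_add]
  congr 1
  ring

theorem integrable_exp_shift {ν : Measure ℝ} {θ' θ : ℝ} (hν : Good ν θ' θ) (t v c : ℝ) :
    Integrable (fun x => Real.exp (t * (v + x) + c)) ν := by
  have : (fun x => Real.exp (t * (v + x) + c)) = fun x => Real.exp (t * v + c) * Real.exp (t * x) := by
    ext x
    rw [← Real.exp_add]
    congr 1
    ring
  rw [this]
  exact (hν.int t).const_mul _

/-- test function -/
noncomputable def psi (θ a : ℝ) (t v : ℝ) : ℝ :=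
  Real.exp (θ * v + 0) + Real.exp (2 * θ * v + (-(θ * a))) - Real.exp ((1 / 4) * v + 0)
    - Real.exp ((1 / 4) * v + (1 / 16) * t)

noncomputable def MM (θ a : ℝ) : ℝ := Real.exp 130 * Real.exp (θ * a)

theorem MM_pos (θ a : ℝ) : 0 < MM θ a := by unfold MM; positivity

theorem min_psi_ge (θ a t v : ℝ) :
    psi θ a t v - (Real.exp (2 * θ * v + 0) + Real.exp (4 * θ * v + (-(2 * θ * a)))) / (2 * MM θ a)
      ≤ min (psi θ a t v) (MM θ a) := by
  have hM := MM_pos θ a
  have e1 : Real.exp (2 * θ * v + 0) = Real.exp (θ * v + 0) ^ 2 := by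
    rw [← Real.exp_nat_mul]; congr 1; push_cast; ring
  have e2 : Real.exp (4 * θ * v + (-(2 * θ * a))) = Real.exp (2 * θ * v + (-(θ * a))) ^ 2 := by
    rw [← Real.exp_nat_mul]; congr 1; push_cast; ring
  rw [e1, e2]
  set p := Real.exp (θ * v + 0)
  set q := Real.exp (2 * θ * v + (-(θ * a)))
  have hle : psi θ a t v ≤ p + q := by
    unfold psi
    have := Real.exp_pos ((1 / 4) * v + 0)
    have := Real.exp_pos ((1 / 4) * v + (1 / 16) * t)
    linarith
  have hnn : 0 ≤ (p ^ 2 + q ^ 2) / (2 * MM θ a) := by positivity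
  rcases le_total (psi θ a t v) (MM θ a) with h | h
  · rw [min_eq_left h]; linarith
  · rw [min_eq_right h]
    have : psi θ a t v - MM θ a ≤ (p ^ 2 + q ^ 2) / (2 * MM θ a) := by
      rw [le_div_iff₀ (by positivity)]
      have h1 : psi θ a t v - MM θ a ≤ p + q - MM θ a := by linarith
      have h2 : 0 ≤ psi θ a t v - MM θ a := by linarith
      nlinarith [sq_nonneg (p + q - 2 * MM θ a), sq_nonneg (p - q), mul_le_mul_of_nonneg_right h1 hM.le]
    linarith

theorem psi_step {ν : Measure ℝ} {θ' θ : ℝ} (hν : Good ν θ' θ) (hθ : 0 < θ) {a t v : ℝ}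
    (hva : v ≤ a) :
    Integrable (fun x => min (psi θ a (t + 1) (v + x)) (MM θ a)) ν ∧
    min (psi θ a t v) (MM θ a) ≤ ∫ x, min (psi θ a (t + 1) (v + x)) (MM θ a) ∂ν := by
  have := hν.prob
  have hM := MM_pos θ a
  have i1 := integrable_exp_shift hν θ v 0
  have i2 := integrable_exp_shift hν (2 * θ) v (-(θ * a))
  have i3 := integrable_exp_shift hν (1 / 4) v 0
  have i4 := integrable_exp_shift hν (1 / 4) v ((1 / 16) * (t + 1))
  have i5 := integrable_exp_shift hν (2 * θ) v 0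
  have i6 := integrable_exp_shift hν (4 * θ) v (-(2 * θ * a))
  have ipsi : Integrable (fun x => psi θ a (t + 1) (v + x)) ν := by
    unfold psi
    exact ((i1.add i2).sub i3).sub i4
  have imin : Integrable (fun x => min (psi θ a (t + 1) (v + x)) (MM θ a)) ν :=
    ipsi.inf (integrable_const _)
  refine ⟨imin, ?_⟩
  have iL : Integrable (fun x => psi θ a (t + 1) (v + x) -
      (Real.exp (2 * θ * (v + x) + 0) + Real.exp (4 * θ * (v + x) + (-(2 * θ * a)))) / (2 * MM θ a)) ν :=
    ipsi.sub ((i5.add i6).div_const _)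
  have i56 : Integrable (fun x => (Real.exp (2 * θ * (v + x) + 0) +
      Real.exp (4 * θ * (v + x) + (-(2 * θ * a)))) / (2 * MM θ a)) ν := (i5.add i6).div_const _
  have h1 := integral_mono iL imin (fun x => min_psi_ge θ a (t + 1) (v + x))
  refine le_trans ?_ h1
  have h2 : ∫ x, (psi θ a (t + 1) (v + x) -
      (Real.exp (2 * θ * (v + x) + 0) + Real.exp (4 * θ * (v + x) + (-(2 * θ * a)))) / (2 * MM θ a)) ∂ν
      = Real.exp (θ * v + 0) * ∫ x, Real.exp (θ * x) ∂ν
        + Real.exp (2 * θ * v + (-(θ * a))) * ∫ x, Real.exp (2 * θ * x) ∂ν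
        - Real.exp ((1 / 4) * v + 0) * ∫ x, Real.exp ((1 / 4) * x) ∂ν
        - Real.exp ((1 / 4) * v + (1 / 16) * (t + 1)) * ∫ x, Real.exp ((1 / 4) * x) ∂ν
        - (Real.exp (2 * θ * v + 0) * ∫ x, Real.exp (2 * θ * x) ∂ν
          + Real.exp (4 * θ * v + (-(2 * θ * a))) * ∫ x, Real.exp (4 * θ * x) ∂ν) / (2 * MM θ a) := by
    rw [integral_sub ipsi i56, integral_div]
    have e2 : ∫ x, (Real.exp (2 * θ * (v + x) + 0) + Real.exp (4 * θ * (v + x) + (-(2 * θ * a)))) ∂ν
        = ∫ x, Real.exp (2 * θ * (v + x) + 0) ∂ν + ∫ x, Real.exp (4 * θ * (v + x) + (-(2 * θ * a))) ∂ν :=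
      integral_add i5 i6
    have e3 : ∫ x, psi θ a (t + 1) (v + x) ∂ν = ∫ x, Real.exp (θ * (v + x) + 0) ∂ν
        + ∫ x, Real.exp (2 * θ * (v + x) + (-(θ * a))) ∂ν
        - ∫ x, Real.exp ((1 / 4) * (v + x) + 0) ∂ν
        - ∫ x, Real.exp ((1 / 4) * (v + x) + (1 / 16) * (t + 1)) ∂ν := by
      unfold psi
      rw [integral_sub (by exact (i1.add i2).sub i3) i4, integral_sub (by exact i1.add i2) i3,
        integral_add i1 i2]
    rw [e3, e2]
    simp only [integral_exp_shift]
  rw [h2]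
  refine le_trans (min_le_left _ _) ?_
  unfold psi
  have p1 := Real.exp_pos (θ * v + 0)
  have p2 := Real.exp_pos (2 * θ * v + (-(θ * a)))
  have p3 := Real.exp_pos ((1 / 4) * v + 0)
  have p5 := Real.exp_pos (2 * θ * v + 0)
  have p6 := Real.exp_pos (4 * θ * v + (-(2 * θ * a)))
  have q1 : Real.exp (θ * v + 0) ≤ Real.exp (θ * v + 0) * ∫ x, Real.exp (θ * x) ∂ν := by
    nlinarith [hν.g2]
  have q2 : 2 * Real.exp (2 * θ * v + (-(θ * a))) ≤
      Real.exp (2 * θ * v + (-(θ * a))) * ∫ x, Real.exp (2 * θ * x) ∂ν := by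
    nlinarith [hν.g3]
  have hE : ∫ x, Real.exp ((1 / 4) * x) ∂ν ≤ 1 := hν.g1.trans (by
    rw [show (1 : ℝ) = Real.exp 0 by simp]; apply Real.exp_le_exp.2; norm_num)
  have q3 : Real.exp ((1 / 4) * v + 0) * ∫ x, Real.exp ((1 / 4) * x) ∂ν ≤ Real.exp ((1 / 4) * v + 0) := by
    nlinarith
  have q4 : Real.exp ((1 / 4) * v + (1 / 16) * (t + 1)) * ∫ x, Real.exp ((1 / 4) * x) ∂ν
      ≤ Real.exp ((1 / 4) * v + (1 / 16) * t) := by
    calc _ ≤ Real.exp ((1 / 4) * v + (1 / 16) * (t + 1)) * Real.exp (-(1 / 16)) :=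
          mul_le_mul_of_nonneg_left hν.g1 (Real.exp_pos _).le
      _ = _ := by rw [← Real.exp_add]; congr 1; ring
  have q5 : (Real.exp (2 * θ * v + 0) * ∫ x, Real.exp (2 * θ * x) ∂ν
          + Real.exp (4 * θ * v + (-(2 * θ * a))) * ∫ x, Real.exp (4 * θ * x) ∂ν) / (2 * MM θ a)
      ≤ Real.exp (2 * θ * v + (-(θ * a))) := by
    rw [div_le_iff₀ (by positivity)]
    have s1 : Real.exp (2 * θ * v + 0) * ∫ x, Real.exp (2 * θ * x) ∂ν
        ≤ Real.exp (2 * θ * v + 0) * Real.exp 130 := mul_le_mul_of_nonneg_left hν.g3' p5.le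
    have s2 : Real.exp (4 * θ * v + (-(2 * θ * a))) * ∫ x, Real.exp (4 * θ * x) ∂ν
        ≤ Real.exp (4 * θ * v + (-(2 * θ * a))) * Real.exp 130 := mul_le_mul_of_nonneg_left hν.g4 p6.le
    have s3 : Real.exp (4 * θ * v + (-(2 * θ * a))) ≤ Real.exp (2 * θ * v + 0) := by
      apply Real.exp_le_exp.2
      nlinarith
    have s4 : Real.exp (2 * θ * v + (-(θ * a))) * (2 * MM θ a) = 2 * (Real.exp (2 * θ * v + 0) * Real.exp 130) := by
      unfold MM
      have : Real.exp (2 * θ * v + (-(θ * a))) * Real.exp (θ * a) = Real.exp (2 * θ * v + 0) := by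
        rw [← Real.exp_add]; congr 1; ring
      rw [← this]; ring
    rw [s4]
    have := mul_le_mul_of_nonneg_right s3 (Real.exp_pos 130).le
    linarith
  linarith

theorem psi_neg {θ a t v : ℝ} (hθ : 1 / 2 ≤ θ) (ha : 0 ≤ a) (ht : 0 ≤ t) (hv : v < 0) :
    psi θ a t v ≤ 0 := by
  unfold psi
  have h1 : Real.exp (θ * v + 0) ≤ Real.exp ((1 / 4) * v + 0) := Real.exp_le_exp.2 (by nlinarith)
  have h2 : Real.exp (2 * θ * v + (-(θ * a))) ≤ Real.exp ((1 / 4) * v + (1 / 16) * t) :=
    Real.exp_le_exp.2 (by nlinarith [mul_nonneg (by linarith : (0 : ℝ) ≤ θ) ha])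
  linarith

theorem psi_end {θ a t v : ℝ} (hθ : 1 / 2 ≤ θ) (hv : 0 ≤ v) (hva : v ≤ a)
    (ht : Real.log 2 + θ * a ≤ t / 16) : psi θ a t v ≤ 0 := by
  unfold psi
  have h1 : Real.exp (θ * v + 0) ≤ Real.exp (θ * a) :=
    Real.exp_le_exp.2 (by nlinarith)
  have h2 : Real.exp (2 * θ * v + (-(θ * a))) ≤ Real.exp (θ * a) :=
    Real.exp_le_exp.2 (by nlinarith)
  have h3 : 2 * Real.exp (θ * a) ≤ Real.exp ((1 / 4) * v + (1 / 16) * t) := by
    calc 2 * Real.exp (θ * a) = Real.exp (Real.log 2 + θ * a) := by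
          rw [Real.exp_add, Real.exp_log (by norm_num)]
      _ ≤ _ := Real.exp_le_exp.2 (by linarith)
  have h4 := Real.exp_pos ((1 / 4) * v + 0)
  linarith

theorem exp_two_bounds : (7 : ℝ) ≤ Real.exp 2 ∧ Real.exp 2 ≤ 8 := by
  have h1 := Real.exp_one_gt_d9
  have h2 := Real.exp_one_lt_d9
  have h3 : Real.exp 2 = Real.exp 1 * Real.exp 1 := by rw [← Real.exp_add]; norm_num
  rw [h3]
  constructor <;> nlinarith

theorem psi_start {θ a : ℝ} (hθ : 1 / 2 ≤ θ) : 1 ≤ psi θ a 0 8 := by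
  unfold psi
  have h1 : Real.exp 4 ≤ Real.exp (θ * 8 + 0) := Real.exp_le_exp.2 (by nlinarith)
  have h2 := Real.exp_pos (2 * θ * 8 + (-(θ * a)))
  have h3 : Real.exp 4 = Real.exp 2 * Real.exp 2 := by rw [← Real.exp_add]; norm_num
  have h4 : Real.exp ((1 / 4) * 8 + 0) = Real.exp 2 := by norm_num
  have h5 : Real.exp ((1 / 4) * 8 + (1 / 16) * 0) = Real.exp 2 := by norm_num
  rw [h4, h5]
  have := exp_two_bounds
  nlinarith

theorem cand {ν : Measure ℝ} {θ' θ : ℝ} (hν : Good ν θ' θ) (hθ' : 0 ≤ θ') (hθ : 1 / 2 ≤ θ) {a : ℝ}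
    (ha : 8 < a) {r : ℕ} (hr : Real.log 2 + θ * a ≤ (r : ℝ) / 16) {sv fv : ℕ → ℝ}
    {w b g β : ℝ} (hb : 0 ≤ b) (hβ : 0 ≤ β) (hgw : w ≤ g)
    (hsv : ∀ t, 1 ≤ t → t ≤ r → g - β ≤ sv t)
    (hfv : ∀ t, 1 ≤ t → t ≤ r → w - b * ((t : ℝ) + 1) ≤ fv t) :
    w - b * 257 + (g - w) * (Real.exp (-130) * Real.exp (-(θ * a)))
      - β * Real.exp (θ' * (8 - a)) ≤ run ν a sv fv r r 8 := by
  have hprob := hν.prob
  have hM := MM_pos θ a
  have hl2 : 0 < Real.log 2 := Real.log_pos (by norm_num)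
  have hr1 : 1 ≤ r := by
    by_contra hcon
    have : r = 0 := by omega
    subst this
    simp at hr
    nlinarith
  set V : ℕ → ℝ → ℝ := fun u v => w - b * (((r : ℝ) - u) + 1) - b * (32 * Real.exp ((1 / 4) * v + 0))
    + (g - w) * (min (psi θ a ((r : ℝ) - u) v) (MM θ a) / MM θ a)
    - β * Real.exp (θ' * v + (-(θ' * a))) with hVdef
  have hexp4 : ∀ v, Integrable (fun x => Real.exp ((1 / 4) * (v + x) + 0)) ν :=
    fun v => integrable_exp_shift hν _ _ _
  have hexpt : ∀ v, Integrable (fun x => Real.exp (θ' * (v + x) + (-(θ' * a)))) ν :=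
    fun v => integrable_exp_shift hν _ _ _
  have hpsi : ∀ (t v : ℝ), v ≤ a → Integrable (fun x => min (psi θ a t (v + x)) (MM θ a) / MM θ a) ν := by
    intro t v hv
    have := (psi_step hν (by linarith) (t := t - 1) hv).1
    simp only [sub_add_cancel] at this
    exact this.div_const _
  have key := run_ge ν a sv fv r V ?_ ?_ ?_ ?_ ?_ r le_rfl 8 (by norm_num) ha
  · refine le_trans ?_ key
    have e0 : V r 8 = w - b * (0 + 1) - b * (32 * Real.exp 2)
        + (g - w) * (min (psi θ a 0 8) (MM θ a) / MM θ a) - β * Real.exp (θ' * (8 - a)) := by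
      simp only [hVdef, sub_self]
      have : Real.exp ((1 / 4) * 8 + 0) = Real.exp 2 := by norm_num
      rw [this]
      congr 3
      ring
    rw [e0]
    have h2 := exp_two_bounds
    have hmin : Real.exp (-130) * Real.exp (-(θ * a)) ≤ min (psi θ a 0 8) (MM θ a) / MM θ a := by
      have hM1 : 1 ≤ MM θ a := by
        unfold MM
        rw [← Real.exp_add]
        apply Real.one_le_exp
        nlinarith
      have h1 : 1 ≤ min (psi θ a 0 8) (MM θ a) := le_min (psi_start hθ) hM1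
      rw [le_div_iff₀ hM]
      refine le_trans (le_of_eq ?_) h1
      unfold MM
      rw [← Real.exp_add, ← Real.exp_add, ← Real.exp_add]
      rw [show (-130 + -(θ * a) + (130 + θ * a)) = 0 by ring, Real.exp_zero]
    have h3 := mul_le_mul_of_nonneg_left hmin (sub_nonneg.2 hgw)
    nlinarith
  · -- integrability
    intro u hu v hv0 hva
    refine Integrable.sub (Integrable.add (Integrable.sub (integrable_const _) ?_) ?_) ?_
    · exact ((hexp4 v).const_mul 32).const_mul b
    · exact (hpsi _ v hva.le).const_mul _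
    · exact (hexpt v).const_mul β
  · intro v hv0 hva
    have h1 := psi_end (t := (r : ℝ)) hθ hv0 hva.le hr
    have h2 : min (psi θ a (r : ℝ) v) (MM θ a) / MM θ a ≤ 0 :=
      div_nonpos_of_nonpos_of_nonneg ((min_le_left _ _).trans h1) hM.le
    have h3 := hfv r hr1 le_rfl
    have h4 := Real.exp_pos ((1 / 4) * v + 0)
    have h5 := Real.exp_pos (θ' * v + (-(θ' * a)))
    have h6 := mul_nonpos_of_nonneg_of_nonpos (sub_nonneg.2 hgw) h2
    simp only [hVdef, Nat.cast_zero, sub_zero]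
    have h7 : 0 ≤ b * (32 * Real.exp ((1 / 4) * v + 0)) := by positivity
    have h8 : 0 ≤ β * Real.exp (θ' * v + (-(θ' * a))) := by positivity
    linarith
  · intro u hu v hva
    have hcast : ((r - u : ℕ) : ℝ) = (r : ℝ) - u := by rw [Nat.cast_sub hu.le]
    have h3 := hsv (r - u) (by omega) (by omega)
    have h2 : min (psi θ a ((r : ℝ) - u) v) (MM θ a) / MM θ a ≤ 1 :=
      (div_le_one hM).2 (min_le_right _ _)
    have h6 := mul_le_mul_of_nonneg_left h2 (sub_nonneg.2 hgw)
    have h5 : 1 ≤ Real.exp (θ' * v + (-(θ' * a))) := Real.one_le_exp (by nlinarith)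
    have h8 := mul_le_mul_of_nonneg_left h5 hβ
    have h7 : 0 ≤ b * (32 * Real.exp ((1 / 4) * v + 0)) := by positivity
    have h9 : 0 ≤ b * (((r : ℝ) - u) + 1) := by
      rw [← hcast]; positivity
    simp only [hVdef]
    linarith
  · intro u hu v hv
    have hcast : ((r - u : ℕ) : ℝ) = (r : ℝ) - u := by rw [Nat.cast_sub hu.le]
    have h3 := hfv (r - u) (by omega) (by omega)
    rw [hcast] at h3
    have h1 := psi_neg (a := a) (t := (r : ℝ) - u) hθ (by linarith) (by rw [← hcast]; positivity) hv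
    have h2 : min (psi θ a ((r : ℝ) - u) v) (MM θ a) / MM θ a ≤ 0 :=
      div_nonpos_of_nonpos_of_nonneg ((min_le_left _ _).trans h1) hM.le
    have h6 := mul_nonpos_of_nonneg_of_nonpos (sub_nonneg.2 hgw) h2
    have h7 : 0 ≤ b * (32 * Real.exp ((1 / 4) * v + 0)) := by positivity
    have h8 : 0 ≤ β * Real.exp (θ' * v + (-(θ' * a))) := by positivity
    simp only [hVdef]
    linarith
  · intro u hu v hv0 hva
    have hcast : ((r : ℝ) - u) = ((r : ℝ) - ((u + 1 : ℕ) : ℝ)) + 1 := by push_cast; ring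
    have hps := (psi_step hν (by linarith) (t := (r : ℝ) - ((u + 1 : ℕ) : ℝ)) hva.le).2
    rw [← hcast] at hps
    have e : ∫ x, V u (v + x) ∂ν = w - b * (((r : ℝ) - u) + 1)
        - b * (32 * (Real.exp ((1 / 4) * v + 0) * ∫ x, Real.exp ((1 / 4) * x) ∂ν))
        + (g - w) * ((∫ x, min (psi θ a ((r : ℝ) - u) (v + x)) (MM θ a) ∂ν) / MM θ a)
        - β * (Real.exp (θ' * v + (-(θ' * a))) * ∫ x, Real.exp (θ' * x) ∂ν) := by
      simp only [hVdef]
      have j1 : Integrable (fun x => b * (32 * Real.exp ((1 / 4) * (v + x) + 0))) ν :=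
        ((hexp4 v).const_mul 32).const_mul b
      have j2 : Integrable (fun x => (g - w) * (min (psi θ a ((r : ℝ) - u) (v + x)) (MM θ a) / MM θ a)) ν :=
        (hpsi _ v hva.le).const_mul _
      have j3 : Integrable (fun x => β * Real.exp (θ' * (v + x) + (-(θ' * a)))) ν :=
        (hexpt v).const_mul β
      have j4 : Integrable (fun x => w - b * (((r : ℝ) - u) + 1) - b * (32 * Real.exp ((1 / 4) * (v + x) + 0))) ν :=
        (integrable_const _).sub j1
      have j5 : Integrable (fun x => w - b * (((r : ℝ) - u) + 1) - b * (32 * Real.exp ((1 / 4) * (v + x) + 0))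
        + (g - w) * (min (psi θ a ((r : ℝ) - u) (v + x)) (MM θ a) / MM θ a)) ν := j4.add j2
      rw [integral_sub j5 j3, integral_add j4 j2, integral_sub (integrable_const _) j1,
        integral_const_mul, integral_const_mul, integral_const_mul, integral_const_mul, integral_div,
        integral_exp_shift, integral_exp_shift]
      simp
    rw [e]
    have q1 : Real.exp ((1 / 4) * v + 0) * ∫ x, Real.exp ((1 / 4) * x) ∂ν
        ≤ Real.exp ((1 / 4) * v + 0) * (1 - 1 / 32) := by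
      apply mul_le_mul_of_nonneg_left _ (Real.exp_pos _).le
      refine hν.g1.trans ?_
      have h1 : 1 + (1 / 16 : ℝ) ≤ Real.exp (1 / 16) := by
        have := Real.add_one_le_exp (1 / 16 : ℝ)
        linarith
      rw [Real.exp_neg]
      rw [inv_le_comm₀ (Real.exp_pos _) (by norm_num)]
      refine le_trans ?_ h1
      norm_num
    have q2 : 1 ≤ Real.exp ((1 / 4) * v + 0) := Real.one_le_exp (by linarith)
    have q3 : Real.exp (θ' * v + (-(θ' * a))) * ∫ x, Real.exp (θ' * x) ∂ν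
        ≤ Real.exp (θ' * v + (-(θ' * a))) := by
      have := mul_le_mul_of_nonneg_left hν.g5 (Real.exp_pos (θ' * v + (-(θ' * a)))).le
      linarith
    have q4 : min (psi θ a ((r : ℝ) - ((u + 1 : ℕ) : ℝ)) v) (MM θ a) / MM θ a
        ≤ (∫ x, min (psi θ a ((r : ℝ) - u) (v + x)) (MM θ a) ∂ν) / MM θ a :=
      div_le_div_of_nonneg_right hps hM.le
    have q5 := mul_le_mul_of_nonneg_left q4 (sub_nonneg.2 hgw)
    have q6 := mul_le_mul_of_nonneg_left q3 hβ
    have q7 : b * (32 * (Real.exp ((1 / 4) * v + 0) * ∫ x, Real.exp ((1 / 4) * x) ∂ν))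
        ≤ b * (32 * Real.exp ((1 / 4) * v + 0)) - b := by
      have : 32 * (Real.exp ((1 / 4) * v + 0) * ∫ x, Real.exp ((1 / 4) * x) ∂ν)
          ≤ 32 * Real.exp ((1 / 4) * v + 0) - 1 := by nlinarith
      have := mul_le_mul_of_nonneg_left this hb
      linarith
    simp only [hVdef]
    push_cast
    push_cast at q5
    linarith

end Pool.Agent.R239.Cop.Val
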