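import Pool.Agent.R239.Cop.Mgf
import Pool.Agent.R239.Cop.Val

open MeasureTheory ProbabilityTheory Filter Topology

namespace Pool.Agent.R239.Cop.Small

open Pool.Agent.R239.Cop Pool.Agent.R239.Cop.Val

variable {Ω : Type*} [MeasurableSpace Ω] {Q : Measure Ω} {ω : ℕ → Ω → ℝ}

theorem meas_en (hQ : Charges Q ω) (lam h : ℝ) (a b : ℕ) :
    Measurable (fun y => en lam h (fun i => ω i y) a b) := by
  unfold en
  refine Measurable.const_mul (Finset.measurable_sum _ fun i _ => ?_) _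
  exact (hQ.meas i).add_const h

theorem integral_map_exp (hQ : Charges Q ω) (lam m t : ℝ) (n : ℕ) :
    ∫ x, Real.exp (t * x) ∂(Q.map (fun y => en lam (m * lam) (fun i => ω i y) 0 n))
      = (mgf (ω 0) Q (-2 * lam * t)) ^ n * Real.exp (-2 * lam * (m * lam) * t * (n : ℝ)) := by
  rw [integral_map (meas_en hQ _ _ _ _).aemeasurable (by fun_prop)]
  have := integral_exp_en hQ lam (m * lam) t 0 n
  rw [Nat.sub_zero] at this
  exact this

theorem integrable_exp_en (hQ : Charges Q ω) (lam h t : ℝ) (a b : ℕ) :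
    Integrable (fun y => Real.exp (t * en lam h (fun i => ω i y) a b)) Q := by
  have hprob := hQ.prob
  have h1 : (fun y => Real.exp (t * en lam h (fun i => ω i y) a b))
      = fun y => Real.exp (-2 * lam * t * h * ((Finset.Ioc a b).card : ℝ)) *
        Real.exp ((-2 * lam * t) * (∑ i ∈ Finset.Ioc a b, ω i) y) := by
    ext y
    rw [← Real.exp_add]
    congr 1
    unfold en
    rw [Finset.sum_add_distrib, Finset.sum_const, nsmul_eq_mul, Finset.sum_apply]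
    ring
  rw [h1]
  refine Integrable.const_mul ?_ _
  have h2 := hQ.indep.integrable_exp_mul_sum (t := -2 * lam * t) (s := Finset.Ioc a b) hQ.meas
    (fun i _ => by
      have h3 := (hQ.ident i).symm
      have h4 : IdentDistrib (fun y => Real.exp (-2 * lam * t * ω 0 y))
          (fun y => Real.exp (-2 * lam * t * ω i y)) Q Q :=
        h3.comp (u := fun x => Real.exp (-2 * lam * t * x)) (by fun_prop)
      exact h4.integrable_iff.1 (hQ.mgf _))
  exact h2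

theorem lam_sq_n {lam : ℝ} (h0 : 0 < lam) (h1 : lam ≤ 1) :
    lam ^ 2 * (⌈1 / lam ^ 2⌉₊ : ℝ) ≤ 2 := by
  have h2 : (⌈1 / lam ^ 2⌉₊ : ℝ) ≤ 1 / lam ^ 2 + 1 := (Nat.ceil_lt_add_one (by positivity)).le
  calc lam ^ 2 * (⌈1 / lam ^ 2⌉₊ : ℝ) ≤ lam ^ 2 * (1 / lam ^ 2 + 1) :=
        mul_le_mul_of_nonneg_left h2 (by positivity)
    _ = 1 + lam ^ 2 := by field_simp
    _ ≤ 2 := by nlinarith

theorem good_of_small (hQ : Charges Q ω) {θ0 ε : ℝ} (h1 : 1 / 2 ≤ θ0) (h2 : θ0 ≤ 1) (h3 : 0 < ε)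
    (h4 : ε ≤ 1 / 4) :
    ∀ᶠ lam : ℝ in 𝓝[>] 0,
      Good (Q.map (fun y => en lam ((θ0 + ε) * lam) (fun i => ω i y) 0 ⌈1 / lam ^ 2⌉₊)) θ0
        (θ0 + 2 * ε) := by
  have hprob := hQ.prob
  have T := fun t => tendsto_mgf hQ (θ0 + ε) t
  have l1 : Real.exp (2 * (1 / 4) ^ 2 - 2 * (θ0 + ε) * (1 / 4)) < Real.exp (-(1 / 16)) :=
    Real.exp_lt_exp.2 (by linarith)
  have l2 : 1 < Real.exp (2 * (θ0 + 2 * ε) ^ 2 - 2 * (θ0 + ε) * (θ0 + 2 * ε)) := by
    rw [← Real.exp_zero]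
    apply Real.exp_lt_exp.2
    nlinarith
  have l3 : 2 < Real.exp (2 * (2 * (θ0 + 2 * ε)) ^ 2 - 2 * (θ0 + ε) * (2 * (θ0 + 2 * ε))) := by
    have e1 : (1 : ℝ) ≤ 2 * (2 * (θ0 + 2 * ε)) ^ 2 - 2 * (θ0 + ε) * (2 * (θ0 + 2 * ε)) := by nlinarith
    have e2 := Real.exp_one_gt_d9
    have e3 := Real.exp_le_exp.2 e1
    linarith
  have l3' : Real.exp (2 * (2 * (θ0 + 2 * ε)) ^ 2 - 2 * (θ0 + ε) * (2 * (θ0 + 2 * ε))) < Real.exp 130 :=
    Real.exp_lt_exp.2 (by nlinarith)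
  have l4 : Real.exp (2 * (4 * (θ0 + 2 * ε)) ^ 2 - 2 * (θ0 + ε) * (4 * (θ0 + 2 * ε))) < Real.exp 130 :=
    Real.exp_lt_exp.2 (by nlinarith)
  have l5 : Real.exp (2 * θ0 ^ 2 - 2 * (θ0 + ε) * θ0) < 1 := by
    rw [← Real.exp_zero]
    apply Real.exp_lt_exp.2
    nlinarith
  have hle1 : ∀ᶠ lam : ℝ in 𝓝[>] 0, lam ≤ 1 := by
    apply nhdsWithin_le_nhds
    exact Iic_mem_nhds (by norm_num)
  filter_upwards [(T (1 / 4)).eventually_le_const l1, (T (θ0 + 2 * ε)).eventually_const_le l2,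
    (T (2 * (θ0 + 2 * ε))).eventually_const_le l3, (T (2 * (θ0 + 2 * ε))).eventually_le_const l3',
    (T (4 * (θ0 + 2 * ε))).eventually_le_const l4, (T θ0).eventually_le_const l5, hle1,
    self_mem_nhdsWithin] with lam g1 g2 g3 g3' g4 g5 hl1 hl0
  have hl0' : 0 < lam := hl0
  refine ⟨Measure.isProbabilityMeasure_map (meas_en hQ _ _ _ _).aemeasurable, ?_, ?_, ?_, ?_, ?_, ?_, ?_, ?_⟩
  · intro t
    rw [integrable_map_measure (by fun_prop) (meas_en hQ _ _ _ _).aemeasurable]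
    exact integrable_exp_en hQ _ _ _ _ _
  · rw [integral_map_exp hQ]; exact g1
  · rw [integral_map_exp hQ]; exact g2
  · rw [integral_map_exp hQ]; exact g3
  · rw [integral_map_exp hQ]; exact g3'
  · rw [integral_map_exp hQ]; exact g4
  · rw [integral_map_exp hQ]; exact g5
  · rw [integral_map (meas_en hQ _ _ _ _).aemeasurable (by fun_prop), integral_en hQ _ _ (Nat.zero_le _)]
    have h5 := lam_sq_n hl0' hl1
    push_cast
    nlinarith [mul_nonneg (sq_nonneg lam) (Nat.cast_nonneg (α := ℝ) ⌈1 / lam ^ 2⌉₊)]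

end Pool.Agent.R239.Cop.Small
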