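import Pool.Agent.R239.Cop.Val

open MeasureTheory ProbabilityTheory Filter Topology

namespace Pool.Agent.R239.Cop.Val

open Pool.Agent.R239.Cop

theorem stage2 {ν : Measure ℝ} {θ' θ : ℝ} (hν : Good ν θ' θ) (hθ' : 0 ≤ θ') (hθ : 1 / 2 ≤ θ)
    {q CW Q as : ℝ} (hq : 0 ≤ q) {a : ℕ → ℝ} {r : ℕ → ℕ} {y : ℕ → ℕ → ℝ} {R I J : ℕ}
    (hy : ∀ F t : ℕ, y F t = Q - q * (Real.log (F + 1) + Real.log (t + 2)) - CW)
    (haJ : ∀ i, J ≤ i → a i = as) (has : 8 < as)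
    (hr : ∀ i, J ≤ i → Real.log 2 + θ * as ≤ (r i : ℝ) / 16) (hrR : ∀ i, r i ≤ R)
    {L L3 ρ : ℝ} (hL3 : 0 ≤ L3) (hρ : ρ ≤ Real.exp (-130) * Real.exp (-(θ * as)))
    (hρ1 : ρ ≤ 1)
    (hL : q * (Real.log (((1 + I * (R + 1) : ℕ) : ℝ) + 1) + Real.log (R + 2)) + CW + 8 - as ≤ L)
    (hL3' : q * (Real.log (((1 + I * (R + 1) : ℕ) : ℝ) + 1) + Real.log 3) + CW + 5 ≤ L + L3)
    (k : ℕ) (hk : J + k ≤ I) (F : ℕ) (hF : 1 ≤ F) (hF2 : F ≤ 1 + (I - k) * (R + 1)) :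
    Q - L - (1 - ρ) ^ k * L3 ≤ vst ν a r 8 y (fun F => y F 1 + ∫ x, x ∂ν) I k F := by
  have hlogF : ∀ k F : ℕ, F ≤ 1 + (I - k) * (R + 1) →
      Real.log ((F : ℝ) + 1) ≤ Real.log (((1 + I * (R + 1) : ℕ) : ℝ) + 1) := by
    intro k F hF
    apply Real.log_le_log (by positivity)
    have : F ≤ 1 + I * (R + 1) := hF.trans (by
      have : (I - k) * (R + 1) ≤ I * (R + 1) := Nat.mul_le_mul_right _ (Nat.sub_le _ _)
      omega)
    have : (F : ℝ) ≤ ((1 + I * (R + 1) : ℕ) : ℝ) := by exact_mod_cast this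
    linarith
  induction k generalizing F with
  | zero =>
    have h1 := hlogF 0 F hF2
    have h2 := mul_le_mul_of_nonneg_left h1 hq
    have h3 := hν.g6
    have h4 := hy F 1
    have h5 : ((1 : ℕ) : ℝ) + 2 = 3 := by norm_num
    rw [h5] at h4
    show Q - L - (1 - ρ) ^ 0 * L3 ≤ y F 1 + ∫ x, x ∂ν
    rw [h4, pow_zero]
    linarith
  | succ k ih =>
    have hi : J ≤ I - (k + 1) := by omega
    show Q - L - (1 - ρ) ^ (k + 1) * L3 ≤ run ν (a (I - (k + 1)))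
      (fun t => a (I - (k + 1)) - 8 + y F t)
      (fun t => vst ν a r 8 y (fun F => y F 1 + ∫ x, x ∂ν) I k (F + t + 1)) (r (I - (k + 1)))
      (r (I - (k + 1))) 8
    rw [haJ _ hi]
    have hw : 0 ≤ (1 - ρ) ^ k * L3 := mul_nonneg (pow_nonneg (by linarith) _) hL3
    have key := cand hν hθ' hθ has (hr _ hi) (sv := fun t => as - 8 + y F t)
      (fv := fun t => vst ν a r 8 y (fun F => y F 1 + ∫ x, x ∂ν) I k (F + t + 1))
      (w := Q - L - (1 - ρ) ^ k * L3) (b := 0) (g := Q - L) (β := 0) le_rfl le_rfl (by linarith)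
      ?_ ?_
    · refine le_trans ?_ key
      have h1 : (1 - ρ) ^ (k + 1) * L3 = (1 - ρ) ^ k * L3 - ρ * ((1 - ρ) ^ k * L3) := by
        rw [pow_succ]; ring
      have h2 := mul_le_mul_of_nonneg_right hρ hw
      rw [h1]
      linarith
    · intro t ht1 ht2
      have h1 := hlogF (k + 1) F hF2
      have h3 : Real.log ((t : ℝ) + 2) ≤ Real.log (R + 2) := by
        apply Real.log_le_log (by positivity)
        have : (t : ℝ) ≤ R := by exact_mod_cast ht2.trans (hrR _)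
        linarith
      have h2 := mul_le_mul_of_nonneg_left (add_le_add h1 h3) hq
      simp only [hy]
      linarith
    · intro t ht1 ht2
      have h1 := ih (by omega) (F + t + 1) (by omega) (by
        have h3 : I - k = (I - (k + 1)) + 1 := by omega
        have h4 := ht2.trans (hrR _)
        rw [h3, add_mul]
        omega)
      simpa using h1

theorem stage1 {ν : Measure ℝ} {θ' θ : ℝ} (hν : Good ν θ' θ) (hθ' : 0 ≤ θ') (hθ : 1 / 2 ≤ θ)
    {Q : ℝ} {a : ℕ → ℝ} {r : ℕ → ℕ} {y : ℕ → ℕ → ℝ} {fb : ℕ → ℝ} {R I J : ℕ} (hJI : J ≤ I)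
    (ha : ∀ i < J, 8 < a i)
    (hr : ∀ i < J, Real.log 2 + θ * a i ≤ (r i : ℝ) / 16) (hrR : ∀ i, r i ≤ R)
    {ρ ρp σ b : ℕ → ℝ} {L : ℝ} (hL : 0 ≤ L + 2)
    (hρ1 : ∀ i < J, ρ i ≤ 1)
    (hρ : ∀ i < J, ρ i ≤ Real.exp (-130) * Real.exp (-(θ * a i)))
    (hρp : ∀ i < J, Real.exp (θ' * (8 - a i)) ≤ ρp i) (hσ : ∀ i < J, 0 ≤ σ i)
    (hsv : ∀ i < J, ∀ F t : ℕ, 1 ≤ F → 1 ≤ t → t ≤ r i →
      Q + 2 - σ i * ((F : ℝ) + 1) ≤ a i - 8 + y F t)
    (hb0 : ∀ i, 0 ≤ b i) (hb1 : ∀ i < J, b (i + 1) + σ i * ρp i ≤ b i)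
    (hb2 : ∀ i < J, 257 * b (i + 1) ≤ ρ i)
    (hbase : ∀ F : ℕ, 1 ≤ F → F ≤ 1 + J * (R + 1) →
      Q + 1 - (L + 2) ≤ vst ν a r 8 y fb I (I - J) F)
    (n : ℕ) (hn : n ≤ J) (F : ℕ) (hF : 1 ≤ F) (hF2 : F ≤ 1 + (J - n) * (R + 1)) :
    Q + 1 - (L + 2) * ∏ i ∈ Finset.Ico (J - n) J, (1 - ρ i) - b (J - n) * ((F : ℝ) + 1)
      ≤ vst ν a r 8 y fb I (I - (J - n)) F := by
  induction n generalizing F with
  | zero =>
    have h1 := hbase F hF (by simpa using hF2)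
    have h2 := mul_nonneg (hb0 J) (by positivity : (0 : ℝ) ≤ (F : ℝ) + 1)
    simp only [Nat.sub_zero, Finset.Ico_self, Finset.prod_empty, mul_one]
    linarith
  | succ n ih =>
    obtain ⟨i, hi⟩ : ∃ i, i = J - (n + 1) := ⟨_, rfl⟩
    have hiJ : i < J := by omega
    have hi1 : J - n = i + 1 := by omega
    rw [hi1] at ih
    rw [← hi]
    rw [← hi] at hF2
    have hk : I - i = (I - (i + 1)) + 1 := by omega
    have hidx : I - ((I - (i + 1)) + 1) = i := by omega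
    rw [hk]
    show _ ≤ run ν (a (I - ((I - (i + 1)) + 1)))
      (fun t => a (I - ((I - (i + 1)) + 1)) - 8 + y F t)
      (fun t => vst ν a r 8 y fb I (I - (i + 1)) (F + t + 1)) (r (I - ((I - (i + 1)) + 1)))
      (r (I - ((I - (i + 1)) + 1))) 8
    rw [hidx]
    set pr := ∏ i ∈ Finset.Ico (i + 1) J, (1 - ρ i) with hpr
    have hpr0 : 0 ≤ pr := Finset.prod_nonneg fun j hj => by
      have := hρ1 j (Finset.mem_Ico.1 hj).2
      linarith
    have hpr : ∏ i ∈ Finset.Ico i J, (1 - ρ i) = (1 - ρ i) * pr := by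
      rw [Finset.prod_eq_prod_Ico_succ_bot hiJ]
    rw [hpr]
    have hF0 : (0 : ℝ) ≤ (F : ℝ) + 1 := by positivity
    set w := Q + 1 - (L + 2) * pr - b (i + 1) * ((F : ℝ) + 1) with hw
    have hgw : w ≤ Q + 2 := by
      have h1 := mul_nonneg hL hpr0
      have h2 := mul_nonneg (hb0 (i + 1)) hF0
      rw [hw]; linarith
    have key := cand hν hθ' hθ (ha i hiJ) (hr i hiJ) (sv := fun t => a i - 8 + y F t)
      (fv := fun t => vst ν a r 8 y fb I (I - (i + 1)) (F + t + 1))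
      (w := w) (b := b (i + 1)) (g := Q + 2) (β := σ i * ((F : ℝ) + 1)) (hb0 _)
      (mul_nonneg (hσ i hiJ) hF0) hgw ?_ ?_
    · refine le_trans ?_ key
      have h1 := mul_le_mul_of_nonneg_left (hρ i hiJ) (sub_nonneg.2 hgw)
      have h2 := mul_le_mul_of_nonneg_left (hρp i hiJ) (mul_nonneg (hσ i hiJ) hF0)
      have h3 := hb2 i hiJ
      have h4 := mul_le_mul_of_nonneg_right (hb1 i hiJ) hF0
      have h6 := hρ1 i hiJ
      have h5 : 0 ≤ ρ i := le_trans (mul_nonneg (by norm_num) (hb0 _)) h3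
      have h7 := mul_nonneg (mul_nonneg h5 (hb0 (i + 1))) hF0
      have e1 : (Q + 2 - w) * ρ i = ρ i + (L + 2) * pr * ρ i + ρ i * b (i + 1) * ((F : ℝ) + 1) := by
        rw [hw]; ring
      rw [e1] at h1
      have e2 : (L + 2) * ((1 - ρ i) * pr) = (L + 2) * pr - (L + 2) * pr * ρ i := by ring
      rw [e2, hw]
      nlinarith
    · intro t ht1 ht2
      exact hsv i hiJ F t hF ht1 ht2
    · intro t ht1 ht2
      have h1 := ih (by omega) (F + t + 1) (by omega) (by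
        have h4 := ht2.trans (hrR i)
        rw [add_mul]
        omega)
      refine le_trans (le_of_eq ?_) h1
      rw [hw]
      push_cast
      ring

end Pool.Agent.R239.Cop.Val
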