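import Pool.Agent.R239.Cop.LogZ
import Pool.Agent.R239.Cop.Ind
import Pool.Agent.R239.Cop.Glue
import Pool.Agent.R239.Cop.Small
import Pool.Agent.R239.Cop.Const

open MeasureTheory ProbabilityTheory Filter Topology

namespace Pool.Agent.R239.Cop.Step

open Pool.Agent.R239.Cop Pool.Agent.R239.Cop.Glue

variable {Ω : Type*} [MeasurableSpace Ω] {Q : Measure Ω} {ω : ℕ → Ω → ℝ} {K : ℕ → ℝ}

theorem integrable_ratio (hQ : Charges Q ω) (hK0 : K 0 = 0) (hKn : ∀ n, 0 ≤ K n)
    (hKs : HasSum K 1) (lam h : ℝ) {a b : ℕ} (hab : a ≤ b) :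
    Integrable (fun y => Real.log (Zc K lam h (fun i => ω i y) a b / uu K (b - a))) Q := by
  have := hQ.prob
  rcases (Ren.uu_nonneg hKn (b - a)).eq_or_lt with h0 | h0
  · rw [← h0]; simp
  · have h1 := (integrable_log_Zc hQ hK0 hKn hKs lam h a b).sub
      (integrable_const (Real.log (uu K (b - a))))
    refine h1.congr (Eventually.of_forall fun y => ?_)
    show Real.log (Zc K lam h (fun i => ω i y) a b) - Real.log (uu K (b - a))
      = Real.log (Zc K lam h (fun i => ω i y) a b / uu K (b - a))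
    rw [Real.log_div (Zc_pos hKn lam h _ hab h0).ne' h0.ne']

theorem integrable_hw (hQ : Charges Q ω) (hK0 : K 0 = 0) (hKn : ∀ n, 0 ≤ K n)
    (hKs : HasSum K 1) (lam h : ℝ) {n F l b : ℕ} {s : Σ _ : ℕ, Σ _ : ℕ, Σ _ : ℕ, ℕ}
    (hs : s ∈ idx n F l) :
    Integrable (fun y => hw K lam h (fun i => ω i y) n F l b s) Q := by
  have := hQ.prob
  rw [mem_idx] at hs
  have i1 := integrable_ratio hQ hK0 hKn hKs lam h (Nat.zero_le s.1)
  rw [Nat.sub_zero] at i1
  have i2 := integrable_ratio hQ hK0 hKn hKs lam h hs.2.2.1.1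
  have i3 := integrable_en hQ lam h s.2.2.1 ((F + 1) * n)
  have i4 := integrable_en hQ lam h ((F + l + 1) * n) s.2.2.2
  have i5 := integrable_log_Zc hQ hK0 hKn hKs lam h s.2.2.2 b
  exact (((i1.add i2).add i3).add i4).add i5

theorem integrable_YY (hQ : Charges Q ω) (hK0 : K 0 = 0) (hKn : ∀ n, 0 ≤ K n)
    (hKs : HasSum K 1) (lam h : ℝ) (n F l b : ℕ) :
    Integrable (fun y => YY K lam h (fun i => ω i y) n F l b) Q := by
  have := hQ.prob
  unfold YY
  refine (integrable_const _).add (Integrable.div_const ?_ _)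
  exact integrable_finsetSum _ fun s hs => (integrable_hw hQ hK0 hKn hKs lam h hs).const_mul _

theorem integral_YY_ge (hQ : Charges Q ω) (hK0 : K 0 = 0) (hKn : ∀ n, 0 ≤ K n)
    (hKs : HasSum K 1) {lam h : ℝ} (hl : 0 ≤ lam) (hh : 0 ≤ h) {n F l b : ℕ}
    (hW : 0 < Wt K n F l) {Φ : ℝ}
    (hΦ : ∀ z, z ≤ (F + l + 2) * n → Φ ≤ ∫ y, Real.log (Zc K lam h (fun i => ω i y) z b) ∂Q) :
    Real.log (Wt K n F l) - 6 * (lam * h * n) + Φ ≤ ∫ y, YY K lam h (fun i => ω i y) n F l b ∂Q := by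
  have := hQ.prob
  have hF1n : (F + 1) * n = F * n + n := by ring
  have hl1n : (F + l + 2) * n = (F + l + 1) * n + n := by ring
  unfold YY
  rw [integral_add (integrable_const _) (Integrable.div_const (integrable_finsetSum _ fun s hs =>
    (integrable_hw hQ hK0 hKn hKs lam h hs).const_mul _) _), integral_const, integral_div,
    integral_finsetSum _ fun s hs => (integrable_hw hQ hK0 hKn hKs lam h hs).const_mul _]
  simp only [probReal_univ, one_smul]
  have key : (Φ - 6 * (lam * h * n)) * Wt K n F l ≤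
      ∑ s ∈ idx n F l, ∫ y, pw K s * hw K lam h (fun i => ω i y) n F l b s ∂Q := by
    rw [← sum_pw, Finset.mul_sum]
    refine Finset.sum_le_sum fun s hs => ?_
    rw [integral_const_mul, mul_comm]
    rcases (pw_nonneg hKn s).eq_or_lt with h0 | h0
    · rw [← h0]; simp
    · apply mul_le_mul_of_nonneg_left _ h0.le
      have u1 : 0 < uu K s.1 := by
        rcases (Ren.uu_nonneg hKn s.1).eq_or_lt with h5 | h5
        · unfold pw at h0
          rw [← h5] at h0
          simp at h0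
        · exact h5
      have u2 : 0 < uu K (s.2.2.1 - s.2.1) := by
        rcases (Ren.uu_nonneg hKn (s.2.2.1 - s.2.1)).eq_or_lt with h5 | h5
        · unfold pw at h0
          rw [← h5] at h0
          simp at h0
        · exact h5
      rw [mem_idx] at hs
      obtain ⟨hs1, ⟨hs2, hs3⟩, ⟨hs4, hs5⟩, hs6, hs7⟩ := hs
      have i1 := integrable_ratio hQ hK0 hKn hKs lam h (Nat.zero_le s.1)
      rw [Nat.sub_zero] at i1
      have i2 := integrable_ratio hQ hK0 hKn hKs lam h hs4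
      have i3 := integrable_en hQ lam h s.2.2.1 ((F + 1) * n)
      have i4 := integrable_en hQ lam h ((F + l + 1) * n) s.2.2.2
      have i5 := integrable_log_Zc hQ hK0 hKn hKs lam h s.2.2.2 b
      have e : ∫ y, hw K lam h (fun i => ω i y) n F l b s ∂Q
          = ∫ y, Real.log (Zc K lam h (fun i => ω i y) 0 s.1 / uu K s.1) ∂Q
            + ∫ y, Real.log (Zc K lam h (fun i => ω i y) s.2.1 s.2.2.1 / uu K (s.2.2.1 - s.2.1)) ∂Q
            + ∫ y, en lam h (fun i => ω i y) s.2.2.1 ((F + 1) * n) ∂Q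
            + ∫ y, en lam h (fun i => ω i y) ((F + l + 1) * n) s.2.2.2 ∂Q
            + ∫ y, Real.log (Zc K lam h (fun i => ω i y) s.2.2.2 b) ∂Q := by
        unfold hw
        have i12 := i1.add i2
        have i123 := i12.add i3
        have i1234 := i123.add i4
        simp only [Pi.add_def] at i12 i123 i1234
        rw [integral_add i1234 i5, integral_add i123 i4, integral_add i12 i3, integral_add i1 i2]
      rw [e]
      have r1 := integral_log_ratio hQ hK0 hKn hKs hl hh (Nat.zero_le s.1) (by simpa using u1)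
      rw [Nat.sub_zero] at r1
      have r2 := integral_log_ratio hQ hK0 hKn hKs hl hh hs4 u2
      have r3 := integral_en hQ lam h hs5
      have r4 := integral_en hQ lam h hs6.le
      have r5 := hΦ s.2.2.2 hs7
      rw [r3, r4]
      have hlh : 0 ≤ lam * h := mul_nonneg hl hh
      have c1 : (s.1 : ℝ) ≤ n := by
        have : s.1 ≤ n := by omega
        exact_mod_cast this
      have c2 : ((s.2.2.1 : ℕ) : ℝ) ≤ (s.2.1 : ℕ) + (n : ℝ) := by
        have : s.2.2.1 ≤ s.2.1 + n := by omega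
        exact_mod_cast this
      have c3 : (((F + 1) * n : ℕ) : ℝ) ≤ (s.2.2.1 : ℕ) + (n : ℝ) := by
        have : (F + 1) * n ≤ s.2.2.1 + n := by omega
        exact_mod_cast this
      have c4 : ((s.2.2.2 : ℕ) : ℝ) ≤ (((F + l + 1) * n : ℕ) : ℝ) + (n : ℝ) := by
        have : s.2.2.2 ≤ (F + l + 1) * n + n := by omega
        exact_mod_cast this
      have m1 := mul_le_mul_of_nonneg_left c1 hlh
      have m2 := mul_le_mul_of_nonneg_left c2 hlh
      have m3 := mul_le_mul_of_nonneg_left c3 hlh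
      have m4 := mul_le_mul_of_nonneg_left c4 hlh
      simp only [Nat.cast_zero, sub_zero] at r1
      linarith
  have key2 := (le_div_iff₀ hW).2 key
  linarith

theorem measurable_YY (hQ : Charges Q ω) (lam h : ℝ) {n F l b : ℕ} (hb : (F + l + 2) * n ≤ b) :
    Measurable[sg ω (Set.Ioc 0 n ∪ Set.Ioc (F * n) ((F + 1) * n) ∪ Set.Ioc ((F + l + 1) * n) b)]
      (fun y => YY K lam h (fun i => ω i y) n F l b) := by
  unfold YY
  refine Measurable.const_add (Measurable.div_const (Finset.measurable_sum _ fun s hs => ?_) _) _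
  rw [mem_idx] at hs
  obtain ⟨hs1, ⟨hs2, hs3⟩, ⟨hs4, hs5⟩, hs6, hs7⟩ := hs
  have hn2 : n / 2 ≤ n := Nat.div_le_self _ _
  refine Measurable.const_mul ?_ _
  unfold hw
  have S1 : Set.Ioc 0 s.1 ⊆ Set.Ioc 0 n ∪ Set.Ioc (F * n) ((F + 1) * n) ∪ Set.Ioc ((F + l + 1) * n) b := by
    intro i hi
    left; left
    rw [Set.mem_Ioc] at hi ⊢
    omega
  have S2 : Set.Ioc s.2.1 s.2.2.1 ⊆ Set.Ioc 0 n ∪ Set.Ioc (F * n) ((F + 1) * n) ∪ Set.Ioc ((F + l + 1) * n) b := by
    intro i hi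
    left; right
    rw [Set.mem_Ioc] at hi ⊢
    omega
  have S3 : Set.Ioc s.2.2.1 ((F + 1) * n) ⊆ Set.Ioc 0 n ∪ Set.Ioc (F * n) ((F + 1) * n) ∪ Set.Ioc ((F + l + 1) * n) b := by
    intro i hi
    left; right
    rw [Set.mem_Ioc] at hi ⊢
    omega
  have S4 : Set.Ioc ((F + l + 1) * n) s.2.2.2 ⊆ Set.Ioc 0 n ∪ Set.Ioc (F * n) ((F + 1) * n) ∪ Set.Ioc ((F + l + 1) * n) b := by
    intro i hi
    right
    rw [Set.mem_Ioc] at hi ⊢
    omega
  have S5 : Set.Ioc s.2.2.2 b ⊆ Set.Ioc 0 n ∪ Set.Ioc (F * n) ((F + 1) * n) ∪ Set.Ioc ((F + l + 1) * n) b := by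
    intro i hi
    right
    rw [Set.mem_Ioc] at hi ⊢
    omega
  refine Measurable.add (Measurable.add (Measurable.add (Measurable.add ?_ ?_) ?_) ?_) ?_
  · exact Real.measurable_log.comp ((measurable_Zc_sg hQ lam h S1).div_const _)
  · exact Real.measurable_log.comp ((measurable_Zc_sg hQ lam h S2).div_const _)
  · exact measurable_en_sg hQ lam h S3
  · exact measurable_en_sg hQ lam h S4
  · exact Real.measurable_log.comp (measurable_Zc_sg hQ lam h S5)

theorem disj {n F l b : ℕ} :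
    ∀ i ∈ Set.Ioc 0 n ∪ Set.Ioc (F * n) ((F + 1) * n) ∪ Set.Ioc ((F + l + 1) * n) b,
      ∀ c ∈ expl F l, i ∉ blk n c := by
  intro i hi c hc hic
  obtain ⟨hc1, hc2, hc3⟩ := hc
  obtain ⟨hi1, hi2⟩ := hic
  rcases hi with (hi | hi) | hi
  · rw [Set.mem_Ioc] at hi
    have : n ≤ c * n := Nat.le_mul_of_pos_left _ (by omega)
    omega
  · rw [Set.mem_Ioc] at hi
    rcases lt_or_gt_of_ne hc3 with h | h
    · have : (c + 1) * n ≤ F * n := Nat.mul_le_mul_right _ (by omega)
      omega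
    · have : (F + 1) * n ≤ c * n := Nat.mul_le_mul_right _ (by omega)
      omega
  · rw [Set.mem_Ioc] at hi
    have : (c + 1) * n ≤ (F + l + 1) * n := Nat.mul_le_mul_right _ (by omega)
    omega

/-- one step of the strategy -/
theorem one_step {α : ℝ} (h0 : 0 < α) (h1 : α < 1) (hQ : Charges Q ω) (hK0 : K 0 = 0)
    (hKn : ∀ n, 0 ≤ K n) (hKs : HasSum K 1) {cK : ℝ} (hcK : 0 < cK)
    (hKl : Tendsto (fun n : ℕ => K n * (n : ℝ) ^ (1 + α)) atTop (𝓝 cK)) :
    ∃ ε : ℝ, 0 < ε ∧ ∃ D : ℕ, ∀ᶠ lam : ℝ in 𝓝[>] 0, ∀ b : ℕ, D * ⌈1 / lam ^ 2⌉₊ ≤ b →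
      ∀ Φ : ℝ, (∀ z, z ≤ D * ⌈1 / lam ^ 2⌉₊ → 0 < K (b - z) ∧
        Φ ≤ ∫ y, Real.log (Zc K lam ((1 / (1 + α) + ε) * lam) (fun i => ω i y) z b) ∂Q) →
      Φ + 1 / 2 ≤ ∫ y, Real.log (Zc K lam ((1 / (1 + α) + ε) * lam) (fun i => ω i y) 0 b) ∂Q := by
  have hprob := hQ.prob
  obtain ⟨C, n₁, hC⟩ := Wt_lower h0 h1 hK0 hKn hKs hcK hKl
  obtain ⟨ε, hε0, hε1, a, r, R, I, ha, hr, hV⟩ := Val.vst_lower h0 h1 (C + 15)
  have hθ1 : 1 / 2 ≤ 1 / (1 + α) := one_div_le_one_div_of_le (by linarith) (by linarith)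
  have hθ2 : 1 / (1 + α) ≤ 1 := by rw [div_le_one (by linarith)]; linarith
  refine ⟨ε, hε0, I * (R + 1) + 4, ?_⟩
  have hn_large : ∀ᶠ lam : ℝ in 𝓝[>] 0, n₁ + 1 ≤ ⌈1 / lam ^ 2⌉₊ := by
    have h2 : Tendsto (fun lam : ℝ => (lam ^ 2)⁻¹) (𝓝[>] 0) atTop := by
      have h3 : Tendsto (fun lam : ℝ => lam ^ 2) (𝓝[>] 0) (𝓝[>] 0) := by
        rw [tendsto_nhdsWithin_iff]
        constructor
        · have : Tendsto (fun lam : ℝ => lam ^ 2) (𝓝 0) (𝓝 (0 ^ 2)) :=
            (continuous_pow 2).tendsto 0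
          rw [zero_pow (by norm_num)] at this
          exact this.mono_left nhdsWithin_le_nhds
        · filter_upwards [self_mem_nhdsWithin] with x hx
          exact pow_pos (Set.mem_Ioi.1 hx) 2
      exact tendsto_inv_nhdsGT_zero.comp h3
    filter_upwards [h2.eventually_ge_atTop ((n₁ + 1 : ℕ) : ℝ)] with lam hlam
    have : ((n₁ + 1 : ℕ) : ℝ) ≤ (⌈1 / lam ^ 2⌉₊ : ℝ) := by
      rw [one_div]
      exact hlam.trans (Nat.le_ceil _)
    exact_mod_cast this
  have hle1 : ∀ᶠ lam : ℝ in 𝓝[>] 0, lam ≤ 1 := by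
    apply nhdsWithin_le_nhds
    exact Iic_mem_nhds (by norm_num)
  filter_upwards [Small.good_of_small hQ hθ1 hθ2 hε0 hε1, hn_large, hle1, self_mem_nhdsWithin]
    with lam hgood hn hl1 hl0
  have hl0' : 0 < lam := hl0
  intro b hb Φ hΦ
  set n := ⌈1 / lam ^ 2⌉₊ with hndef
  set h := (1 / (1 + α) + ε) * lam with hhdef
  have hh0 : 0 ≤ h := by positivity
  have hn1 : 1 ≤ n := by omega
  have hlhn : lam * h * n ≤ 5 / 2 := by
    have h5 := Small.lam_sq_n hl0' hl1
    rw [← hndef] at h5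
    have : lam * h * n = (1 / (1 + α) + ε) * (lam ^ 2 * n) := by rw [hhdef]; ring
    rw [this]
    nlinarith [mul_nonneg (sq_nonneg lam) (Nat.cast_nonneg (α := ℝ) n)]
  have hDb : ∀ F t : ℕ, F + t ≤ I * (R + 1) + 2 → (F + t + 2) * n ≤ (I * (R + 1) + 4) * n :=
    fun F t hFt => Nat.mul_le_mul_right _ (by omega)
  have hZpos : ∀ y : Ω, ∀ z, z ≤ (I * (R + 1) + 4) * n → 0 < Zc K lam h (fun i => ω i y) z b := by
    intro y z hz
    have hKz := (hΦ z hz).1
    have hzb : z < b := by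
      rcases lt_or_ge z b with hlt | hge
      · exact hlt
      · rw [Nat.sub_eq_zero_of_le hge, hK0] at hKz
        exact absurd hKz (lt_irrefl _)
    have := Zc_ge_single hKn lam h (fun i => ω i y) hzb
    linarith
  have hsel := select (Q := Q) (fun c => sg ω (blk n c)) (fun c => sg_le hQ _) (iIndep_blk hQ n)
    (fun c y => en lam h (fun i => ω i y) (c * n) ((c + 1) * n))
    (fun c => measurable_en_sg hQ lam h (le_refl (blk n c)))
    (fun c => integrable_en hQ lam h _ _)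
    (Q.map (fun y => en lam h (fun i => ω i y) 0 n)) (fun c _ => map_en hQ lam h n c)
    a r 8 ha (by norm_num) (R := R) (I := I) (B := I * (R + 1) + 2) hr le_rfl
    (fun y => Real.log (Zc K lam h (fun i => ω i y) 0 b))
    (integrable_log_Zc hQ hK0 hKn hKs lam h 0 b)
    (fun F t y => YY K lam h (fun i => ω i y) n F t b)
    (fun F t => Φ - (1 + α) * (Real.log (F + 1) + Real.log (t + 2)) - (C + 15))
    (fun F t _ _ _ => integrable_YY hQ hK0 hKn hKs lam h n F t b)
    (fun F t _ _ hFt => indep_comap_expl hQ n F t disj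
      (measurable_YY hQ lam h ((hDb F t hFt).trans hb)))
    (fun F t hF ht hFt => by
      have hW := hC n (by omega) F hF t ht
      have h2 := integral_YY_ge hQ hK0 hKn hKs hl0'.le hh0 (b := b) hW.1 (Φ := Φ)
        (fun z hz => (hΦ z (hz.trans (hDb F t hFt))).2)
      have h3 := hW.2
      linarith)
    (fun F t hF ht hFt y => by
      have hW := hC n (by omega) F hF t ht
      exact glue hKn lam h (fun i => ω i y) hn1 hF ((hDb F t hFt).trans hb) hW.1
        (fun u v huv huu => Zc_pos hKn lam h _ huv huu)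
        (fun z hz => hZpos y z (hz.trans (hDb F t hFt))))
  refine le_trans (hV _ hgood Φ _ fun F t => rfl) hsel

end Pool.Agent.R239.Cop.Step
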